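import Mathlib
import Pool.Agent.Helper698.SA

/-!
Ideals of `R[X_σ]` generated by pure monomials and by binomials `X^b + ζ X^j`: membership criterion.
-/

set_option autoImplicit false

namespace Pool.Agent.H408R3

open MvPolynomial
open Pool.Agent.Helper698.Dstab

universe u

variable {σ : Type} {R : Type u} [CommRing R]

/-- generators: pure monomials with exponent in `Cv` and the binomials of `B` -/
def gens (R : Type u) [CommRing R] (Cv : Set (σ →₀ ℕ)) (B : Set ((σ →₀ ℕ) × (σ →₀ ℕ) × R)) :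
    Set (MvPolynomial σ R) :=
  {f | (∃ q ∈ Cv, f = monomial q 1) ∨ ∃ b j ζ, (b, j, ζ) ∈ B ∧ f = monomial b 1 + monomial j ζ}

/-- the coefficient ideals -/
def coefI (Cv : Set (σ →₀ ℕ)) (B : Set ((σ →₀ ℕ) × (σ →₀ ℕ) × R)) (q : σ →₀ ℕ) : Ideal R :=
  Ideal.span {r | q ∈ Cv ∨ ∃ b, b ∈ Cv ∧ (b, q, r) ∈ B}

/-- hypotheses on the data -/
structure Good (Cv : Set (σ →₀ ℕ)) (B : Set ((σ →₀ ℕ) × (σ →₀ ℕ) × R)) : Prop where
  upper : ∀ q v, q ∈ Cv → q + v ∈ Cv
  bv : ∀ b j ζ, (b, j, ζ) ∈ B → ∀ v, v ≠ 0 → b + v ∈ Cv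
  jv : ∀ b j ζ, (b, j, ζ) ∈ B → ∀ v, v ≠ 0 → j + v ∈ Cv
  inj : ∀ b j ζ j' ζ', (b, j, ζ) ∈ B → (b, j', ζ') ∈ B → j = j' ∧ ζ = ζ'
  disj : ∀ b j ζ b' j' ζ', (b, j, ζ) ∈ B → (b', j', ζ') ∈ B → b ≠ j'

open Classical in
/-- the reduction of a monomial -/
noncomputable def rhoFun (Cv : Set (σ →₀ ℕ)) (B : Set ((σ →₀ ℕ) × (σ →₀ ℕ) × R)) (q : σ →₀ ℕ) :
    MvPolynomial σ R :=
  if q ∈ Cv then 0
  else if h : ∃ x : (σ →₀ ℕ) × R, (q, x.1, x.2) ∈ B then
    - monomial h.choose.1 h.choose.2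
  else monomial q 1

/-- the `R`-linear reduction map -/
noncomputable def rho (Cv : Set (σ →₀ ℕ)) (B : Set ((σ →₀ ℕ) × (σ →₀ ℕ) × R)) :
    MvPolynomial σ R →ₗ[R] MvPolynomial σ R :=
  (basisMonomials σ R).constr R (rhoFun Cv B)

variable {Cv : Set (σ →₀ ℕ)} {B : Set ((σ →₀ ℕ) × (σ →₀ ℕ) × R)}

theorem rho_monomial_one (q : σ →₀ ℕ) : rho Cv B (monomial q 1) = rhoFun Cv B q := by
  have h := (basisMonomials σ R).constr_basis R (rhoFun Cv B) q
  rwa [coe_basisMonomials] at h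

theorem rho_monomial (q : σ →₀ ℕ) (r : R) : rho Cv B (monomial q r) = r • rhoFun Cv B q := by
  rw [← rho_monomial_one, ← map_smul, smul_monomial, smul_eq_mul, mul_one]

theorem rhoFun_cov {q : σ →₀ ℕ} (h : q ∈ Cv) : rhoFun Cv B q = 0 := by
  rw [rhoFun, if_pos h]

theorem rhoFun_b (hG : Good Cv B) {b j : σ →₀ ℕ} {ζ : R} (h : (b, j, ζ) ∈ B) (hb : b ∉ Cv) :
    rhoFun Cv B b = - monomial j ζ := by
  have hex : ∃ x : (σ →₀ ℕ) × R, (b, x.1, x.2) ∈ B := ⟨(j, ζ), h⟩
  rw [rhoFun, if_neg hb, dif_pos hex]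
  obtain ⟨h1, h2⟩ := hG.inj _ _ _ _ _ h hex.choose_spec
  rw [← h1, ← h2]

theorem rhoFun_other {q : σ →₀ ℕ} (h : q ∉ Cv) (h' : ∀ j ζ, (q, j, ζ) ∉ B) :
    rhoFun Cv B q = monomial q 1 := by
  rw [rhoFun, if_neg h, dif_neg]
  rintro ⟨x, hx⟩
  exact h' _ _ hx

/-- the ideal generated by the generators -/
noncomputable def lineI (Cv : Set (σ →₀ ℕ)) (B : Set ((σ →₀ ℕ) × (σ →₀ ℕ) × R)) :
    Ideal (MvPolynomial σ R) := Ideal.span (gens R Cv B)

theorem mono_mem_lineI {q : σ →₀ ℕ} (h : q ∈ Cv) (r : R) : monomial q r ∈ lineI Cv B := by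
  have h1 : (monomial q r : MvPolynomial σ R) = C r * monomial q 1 := by
    rw [C_mul_monomial, mul_one]
  rw [h1]
  exact Ideal.mul_mem_left _ _ (Ideal.subset_span (Or.inl ⟨q, h, rfl⟩))

theorem binom_mem_lineI {b j : σ →₀ ℕ} {ζ : R} (h : (b, j, ζ) ∈ B) :
    monomial b 1 + monomial j ζ ∈ lineI Cv B :=
  Ideal.subset_span (Or.inr ⟨b, j, ζ, h, rfl⟩)

theorem sub_rho_mem (hG : Good Cv B) (f : MvPolynomial σ R) : f - rho Cv B f ∈ lineI Cv B := by
  induction f using MvPolynomial.induction_on' with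
  | monomial q r =>
    rw [rho_monomial]
    have h1 : (monomial q r : MvPolynomial σ R) = r • monomial q 1 := by
      rw [smul_monomial, smul_eq_mul, mul_one]
    rw [h1, ← smul_sub]
    have h2 : monomial q 1 - rhoFun Cv B q ∈ lineI Cv B := by
      by_cases hq : q ∈ Cv
      · rw [rhoFun_cov hq, sub_zero]
        exact mono_mem_lineI hq 1
      · by_cases hb : ∃ x : (σ →₀ ℕ) × R, (q, x.1, x.2) ∈ B
        · obtain ⟨x, hx⟩ := hb
          rw [rhoFun_b hG hx hq, sub_neg_eq_add]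
          exact binom_mem_lineI hx
        · rw [rhoFun_other hq (fun j ζ h => hb ⟨(j, ζ), h⟩), sub_self]
          exact Ideal.zero_mem _
    rw [smul_eq_C_mul]
    exact Ideal.mul_mem_left _ _ h2
  | add p q hp hq =>
    have h1 : p + q - rho Cv B (p + q) = (p - rho Cv B p) + (q - rho Cv B q) := by
      rw [map_add]; ring
    rw [h1]
    exact Ideal.add_mem _ hp hq

theorem coefI_cov {q : σ →₀ ℕ} (h : q ∈ Cv) : coefI Cv B q = ⊤ := by
  rw [Ideal.eq_top_iff_one]
  exact Ideal.subset_span (Or.inl h)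

theorem mem_coefI_of {b q : σ →₀ ℕ} {ζ : R} (h : (b, q, ζ) ∈ B) (hb : b ∈ Cv) :
    ζ ∈ coefI Cv B q := Ideal.subset_span (Or.inr ⟨b, hb, h⟩)

/-- the submodule of those `f` whose reduction has coefficients in the coefficient ideals -/
noncomputable def redSub (Cv : Set (σ →₀ ℕ)) (B : Set ((σ →₀ ℕ) × (σ →₀ ℕ) × R)) (k : Ideal R) :
    Submodule R (MvPolynomial σ R) where
  carrier := {f | ∀ q, coeff q (rho Cv B f) ∈ coefI Cv B q ⊔ k}
  add_mem' := by
    intro f g hf hg q
    rw [map_add, coeff_add]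
    exact Ideal.add_mem _ (hf q) (hg q)
  zero_mem' := by
    intro q
    rw [map_zero, coeff_zero]
    exact Ideal.zero_mem _
  smul_mem' := by
    intro c f hf q
    rw [map_smul, coeff_smul, smul_eq_mul]
    exact Ideal.mul_mem_left _ _ (hf q)

theorem coeff_mem_of (k : Ideal R) {q j : σ →₀ ℕ} {ζ : R} (h : ζ ∈ coefI Cv B j) :
    coeff q (monomial j ζ) ∈ coefI Cv B q ⊔ k := by
  classical
  rw [coeff_monomial]
  split_ifs with h1
  · subst h1; exact Ideal.mem_sup_left h
  · exact Ideal.zero_mem _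

theorem mul_gen_mem (hG : Good Cv B) (k : Ideal R) (v : σ →₀ ℕ) {g : MvPolynomial σ R}
    (hg : g ∈ gens R Cv B) : monomial v 1 * g ∈ redSub Cv B k := by
  rcases hg with ⟨q, hq, rfl⟩ | ⟨b, j, ζ, hB, rfl⟩
  · intro q'
    rw [monomial_mul, one_mul, rho_monomial, rhoFun_cov (by rw [add_comm]; exact hG.upper _ _ hq),
      smul_zero, coeff_zero]
    exact Ideal.zero_mem _
  · by_cases hv : v = 0
    · subst hv
      intro q'
      have h1 : (monomial (0 : σ →₀ ℕ) (1 : R)) * (monomial b 1 + monomial j ζ) =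
        monomial b 1 + monomial j ζ := by
        rw [mul_add, monomial_mul, monomial_mul, zero_add, zero_add, one_mul, one_mul]
      rw [h1, map_add, rho_monomial, rho_monomial, one_smul]
      by_cases hj : j ∈ Cv
      · rw [rhoFun_cov hj, smul_zero, add_zero]
        by_cases hb : b ∈ Cv
        · rw [rhoFun_cov hb, coeff_zero]; exact Ideal.zero_mem _
        · rw [rhoFun_b hG hB hb, coeff_neg]
          apply Ideal.neg_mem_iff _ |>.2
          apply coeff_mem_of
          rw [coefI_cov hj]; trivial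
      · rw [rhoFun_other hj (fun j' ζ' h => hG.disj _ _ _ _ _ _ h hB rfl), smul_monomial, smul_eq_mul,
          mul_one]
        by_cases hb : b ∈ Cv
        · rw [rhoFun_cov hb, zero_add]
          exact coeff_mem_of k (mem_coefI_of hB hb)
        · rw [rhoFun_b hG hB hb, neg_add_cancel, coeff_zero]
          exact Ideal.zero_mem _
    · intro q'
      rw [mul_add, monomial_mul, monomial_mul, map_add, rho_monomial, rho_monomial,
        rhoFun_cov (by rw [add_comm]; exact hG.bv _ _ _ hB v hv),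
        rhoFun_cov (by rw [add_comm]; exact hG.jv _ _ _ hB v hv), smul_zero, smul_zero, add_zero,
        coeff_zero]
      exact Ideal.zero_mem _

theorem le_redSub (hG : Good Cv B) (k : Ideal R) {f : MvPolynomial σ R}
    (hf : f ∈ lineI Cv B ⊔ k.map C) : f ∈ redSub Cv B k := by
  have h1 : ∀ g : MvPolynomial σ R, (∀ v, monomial v 1 * g ∈ redSub Cv B k) →
      ∀ a, a * g ∈ redSub Cv B k := by
    intro g hg a
    induction a using MvPolynomial.induction_on' with
    | monomial v r =>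
      have : (monomial v r : MvPolynomial σ R) * g = r • (monomial v 1 * g) := by
        rw [← smul_mul_assoc, smul_monomial, smul_eq_mul, mul_one]
      rw [this]
      exact Submodule.smul_mem _ _ (hg v)
    | add p q hp hq =>
      rw [add_mul]; exact Submodule.add_mem _ hp hq
  have h2 : ∀ (G : Set (MvPolynomial σ R)), (∀ g ∈ G, ∀ a, a * g ∈ redSub Cv B k) →
      ∀ x ∈ Ideal.span G, ∀ a, a * x ∈ redSub Cv B k := by
    intro G hGG x hx
    refine Submodule.span_induction (p := fun x _ => ∀ a, a * x ∈ redSub Cv B k) ?_ ?_ ?_ ?_ hx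
    · exact hGG
    · intro a; rw [mul_zero]; exact Submodule.zero_mem _
    · intro x y _ _ hx hy a
      rw [mul_add]; exact Submodule.add_mem _ (hx a) (hy a)
    · intro c x _ hx a
      rw [smul_eq_mul, ← mul_assoc]; exact hx _
  obtain ⟨f1, hf1, f2, hf2, rfl⟩ := Submodule.mem_sup.1 hf
  refine Submodule.add_mem _ ?_ ?_
  · have := h2 _ (fun g hg => h1 g (fun v => mul_gen_mem hG k v hg)) f1 hf1 1
    rwa [one_mul] at this
  · have := h2 (C '' (k : Set R)) (by
      rintro _ ⟨c, hc, rfl⟩ a q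
      rw [mul_comm, ← smul_eq_C_mul, map_smul, coeff_smul, smul_eq_mul]
      exact Ideal.mem_sup_right (Ideal.mul_mem_right _ _ hc)) f2 hf2 1
    rwa [one_mul] at this

theorem mono_mem_of_coefI (k : Ideal R) {q : σ →₀ ℕ} {r : R} (h : r ∈ coefI Cv B q ⊔ k) :
    monomial q r ∈ lineI Cv B ⊔ k.map C := by
  obtain ⟨r1, h1, r2, h2, rfl⟩ := Submodule.mem_sup.1 h
  rw [map_add]
  refine Ideal.add_mem _ (Ideal.mem_sup_left ?_) (Ideal.mem_sup_right ?_)
  · refine Submodule.span_induction (p := fun x _ => monomial q x ∈ lineI Cv B) ?_ ?_ ?_ ?_ h1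
    · rintro ζ (hq | ⟨b, hb, hB⟩)
      · exact mono_mem_lineI hq _
      · have h3 := Ideal.sub_mem _ (binom_mem_lineI hB) (mono_mem_lineI hb 1)
        rwa [add_sub_cancel_left] at h3
    · rw [map_zero]; exact Ideal.zero_mem _
    · intro x y _ _ hx hy
      rw [map_add]; exact Ideal.add_mem _ hx hy
    · intro c x _ hx
      have : (monomial q (c • x) : MvPolynomial σ R) = C c * monomial q x := by
        rw [C_mul_monomial, smul_eq_mul]
      rw [this]; exact Ideal.mul_mem_left _ _ hx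
  · have : (monomial q r2 : MvPolynomial σ R) = monomial q 1 * C r2 := by
      rw [mul_comm, C_mul_monomial, mul_one]
    rw [this]
    exact Ideal.mul_mem_left _ _ (Ideal.mem_map_of_mem _ h2)

theorem mem_lineI_sup_iff (hG : Good Cv B) (k : Ideal R) (f : MvPolynomial σ R) :
    f ∈ lineI Cv B ⊔ k.map C ↔ ∀ q, coeff q (rho Cv B f) ∈ coefI Cv B q ⊔ k := by
  constructor
  · intro h; exact le_redSub hG k h
  · intro h
    have h1 : f = (f - rho Cv B f) + rho Cv B f := by ring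
    rw [h1]
    refine Ideal.add_mem _ (Ideal.mem_sup_left (sub_rho_mem hG f)) ?_
    rw [(rho Cv B f).as_sum]
    exact Ideal.sum_mem _ fun q _ => mono_mem_of_coefI k (h q)

theorem regChain_lineI (hG : Good Cv B) : ∀ (ys : List R) (k : Ideal R),
    (∀ q, q ∉ Cv → RegChain (coefI Cv B q ⊔ k) ys) →
      RegChain (lineI Cv B ⊔ k.map C) (ys.map (C : R →+* MvPolynomial σ R)) := by
  intro ys
  induction ys with
  | nil => intro k _; trivial
  | cons y ys ih =>
    intro k h
    refine ⟨?_, ?_⟩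
    · intro a ha
      rw [mem_lineI_sup_iff hG] at ha ⊢
      intro q
      by_cases hq : q ∈ Cv
      · rw [coefI_cov hq, top_sup_eq]; trivial
      · have h1 := ha q
        rw [← smul_eq_C_mul, map_smul, coeff_smul, smul_eq_mul] at h1
        exact (h q hq).1 _ h1
    · have h1 := ih (k ⊔ Ideal.span {y}) (fun q hq => by
        rw [← sup_assoc]; exact (h q hq).2)
      rw [Ideal.map_sup, Ideal.map_span, Set.image_singleton, ← sup_assoc] at h1
      exact h1

end Pool.Agent.H408R3
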