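import Mathlib
import Pool.Agent.Helper698.SA

set_option autoImplicit false

namespace Pool.Agent.H408R3

open RingTheory.Sequence Submodule
open scoped Pointwise

universe u

variable {R : Type u} [CommRing R] [IsNoetherianRing R]

/-- a monic polynomial with lower coefficients in a prime `𝔪` evaluated at an element outside `𝔪` -/
theorem eval_notMem (𝔪 : Ideal R) [𝔪.IsPrime] (p : Polynomial R) (hp : p.Monic)
    (hc : ∀ k < p.natDegree, p.coeff k ∈ 𝔪) {s : R} (hs : s ∉ 𝔪) : p.eval s ∉ 𝔪 := by
  intro h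
  rw [Polynomial.eval_eq_sum_range, Finset.sum_range_succ] at h
  have h1 : (∑ x ∈ Finset.range p.natDegree, p.coeff x * s ^ x) ∈ 𝔪 :=
    Ideal.sum_mem _ fun i hi => Ideal.mul_mem_right _ _ (hc i (Finset.mem_range.1 hi))
  have h2 := (Ideal.add_mem_iff_right 𝔪 h1).1 h
  rw [Polynomial.coeff_natDegree, hp.leadingCoeff, one_mul] at h2
  exact hs (Ideal.IsPrime.mem_of_pow_mem inferInstance _ h2)

/-- The basic step: modulo a regular element of the prime `𝔪`, an associated prime inside `𝔪`
becomes strictly larger, still inside `𝔪`. -/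
theorem ass_step (𝔪 : Ideal R) [𝔪.IsPrime] {M : Type u} [AddCommGroup M] [Module R M]
    [Module.Finite R M] {r : R} (hr : r ∈ 𝔪) (hreg : IsSMulRegular M r) {P : Ideal R}
    (hP : P ∈ associatedPrimes R M) (hPm : P ≤ 𝔪) :
    ∃ P' ∈ associatedPrimes R (QuotSMulTop r M), P < P' ∧ P' ≤ 𝔪 := by
  obtain ⟨hPp, v0, hv0⟩ := isAssociatedPrime_iff.1 hP
  -- the submodule killed by `P`
  let N : Submodule R M :=
    { carrier := {v | ∀ a ∈ P, a • v = 0}
      add_mem' := by
        intro v w hv hw a ha
        rw [smul_add, hv a ha, hw a ha, add_zero]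
      zero_mem' := fun a _ => smul_zero a
      smul_mem' := by
        intro c v hv a ha
        rw [smul_comm, hv a ha, smul_zero] }
  have hN : ∀ v, v ∈ N ↔ ∀ a ∈ P, a • v = 0 := fun v => Iff.rfl
  have hv0N : v0 ∈ N := by
    intro a ha
    rw [hv0, mem_colon_singleton] at ha
    exact ha
  -- key claim
  have key : ∃ v ∈ N, ∀ s, s • v ∈ r • (⊤ : Submodule R M) → s ∈ 𝔪 := by
    by_contra hcon
    push Not at hcon
    -- each `v ∈ N` is moved into `r N` by some `s ∉ 𝔪`
    have h1 : ∀ v ∈ N, ∃ s, s ∉ 𝔪 ∧ ∃ w ∈ N, s • v = r • w := by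
      intro v hv
      obtain ⟨s, hs, hsm⟩ := hcon v hv
      obtain ⟨w, -, hw⟩ := (Submodule.mem_smul_pointwise_iff_exists _ _ _).1 hs
      refine ⟨s, hsm, w, ?_, hw.symm⟩
      intro a ha
      apply hreg
      show r • a • w = r • (0 : M)
      rw [smul_zero, smul_comm, hw, smul_comm, (hN v).1 hv a ha, smul_zero]
    obtain ⟨t, ht⟩ := (inferInstance : Module.Finite R N).fg_top
    have h2 : ∀ (T : Finset N), ∃ s, s ∉ 𝔪 ∧ ∀ v ∈ T, ∃ w : N, s • v = r • w := by
      classical
      intro T
      induction T using Finset.induction_on with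
      | empty => exact ⟨1, (Ideal.ne_top_iff_one 𝔪).1 (Ideal.IsPrime.ne_top inferInstance), by simp⟩
      | insert a T ha ih =>
        obtain ⟨s, hs, hsT⟩ := ih
        obtain ⟨s', hs', w', hw'N, hw'⟩ := h1 a.1 a.2
        refine ⟨s * s', fun h => ?_, ?_⟩
        · rcases Ideal.IsPrime.mem_or_mem inferInstance h with h | h
          · exact hs h
          · exact hs' h
        · intro v hv
          rcases Finset.mem_insert.1 hv with rfl | hv
          · refine ⟨s • ⟨w', hw'N⟩, ?_⟩
            apply Subtype.ext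
            show (s * s') • (v : M) = r • s • w'
            rw [mul_smul, hw', smul_comm]
          · obtain ⟨w, hw⟩ := hsT v hv
            refine ⟨s' • w, ?_⟩
            rw [mul_comm, mul_smul, hw, smul_comm]
    obtain ⟨s, hs, hsT⟩ := h2 t
    -- `s N ⊆ r N`
    let f : Module.End R N := LinearMap.lsmul R N s
    have hf : LinearMap.range f ≤ (Ideal.span {r}) • (⊤ : Submodule R N) := by
      rw [LinearMap.range_eq_map, ← ht, Submodule.map_span, Submodule.span_le]
      rintro _ ⟨v, hv, rfl⟩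
      obtain ⟨w, hw⟩ := hsT v hv
      show s • v ∈ _
      rw [hw]
      exact Submodule.smul_mem_smul (Ideal.mem_span_singleton_self r) (by rw [ht]; trivial)
    obtain ⟨p, hp1, -, hp2, hp3⟩ :=
      LinearMap.exists_monic_and_natDegree_eq_and_coeff_mem_pow_and_aeval_eq_zero R f
        (Ideal.span {r}) hf
    have hle : Ideal.span {r} ≤ 𝔪 := by
      rw [Ideal.span_singleton_le_iff_mem]; exact hr
    have h3 : p.eval s ∉ 𝔪 := by
      apply eval_notMem 𝔪 p hp1 _ hs
      intro k hk
      exact hle (Ideal.pow_le_self (by omega) (hp2 k))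
    have h4 : (p.eval s) • (⟨v0, hv0N⟩ : N) = 0 := by
      have h5 : Polynomial.aeval f p (⟨v0, hv0N⟩ : N) = 0 := by rw [hp3]; rfl
      have h6 : f = algebraMap R (Module.End R N) s := by
        ext v; rfl
      rw [h6, Polynomial.aeval_algebraMap_apply, Polynomial.coe_aeval_eq_eval] at h5
      exact h5
    apply h3
    apply hPm
    rw [hv0, mem_colon_singleton]
    exact congrArg Subtype.val h4
  obtain ⟨v, hvN, hv⟩ := key
  -- the class of `v`
  let vb : QuotSMulTop r M := Submodule.Quotient.mk v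
  have hcol : ∀ s, s ∈ (⊥ : Submodule R (QuotSMulTop r M)).colon {vb} ↔
      s • v ∈ r • (⊤ : Submodule R M) := by
    intro s
    rw [mem_colon_singleton, Submodule.mem_bot]
    show s • (Submodule.Quotient.mk v : QuotSMulTop r M) = 0 ↔ _
    rw [← Submodule.Quotient.mk_smul, Submodule.Quotient.mk_eq_zero]
  have hle : (⊥ : Submodule R (QuotSMulTop r M)).colon {vb} ≤ 𝔪 := by
    intro s hs
    exact hv s ((hcol s).1 hs)
  obtain ⟨P', hP'min, hP'le⟩ := Ideal.exists_minimalPrimes_le hle
  have hPP' : (⊥ : Submodule R (QuotSMulTop r M)).colon {vb} ≤ P' := hP'min.1.2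
  refine ⟨P', ?_, ?_, hP'le⟩
  · apply isAssociatedPrime_iff.2
    exact ⟨hP'min.1.1, exists_eq_colon_of_mem_minimalPrimes hP'min⟩
  · have hPle : P ≤ P' := by
      intro a ha
      apply hPP'
      rw [hcol, (hN v).1 hvN a ha]
      exact Submodule.zero_mem _
    have hrP' : r ∈ P' := by
      apply hPP'
      rw [hcol]
      exact Submodule.smul_mem_pointwise_smul _ _ _ trivial
    have hrP : r ∉ P := by
      intro h
      have h1 : r • v0 = r • (0 : M) := by rw [smul_zero]; exact hv0N r h
      have h2 : v0 = 0 := hreg h1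
      apply hPp.ne_top
      rw [hv0, h2]
      simp
    exact lt_of_le_of_ne hPle fun h => hrP (h ▸ hrP')

/-- A weakly regular sequence inside the prime `𝔪` gives a chain of primes starting at a given
associated prime inside `𝔪`. -/
theorem ass_chain (𝔪 : Ideal R) [𝔪.IsPrime] : ∀ (rs : List R) (M : Type u) [AddCommGroup M]
    [Module R M] [Module.Finite R M], IsWeaklyRegular M rs → (∀ r ∈ rs, r ∈ 𝔪) →
    ∀ P : PrimeSpectrum R, P.asIdeal ∈ associatedPrimes R M → P.asIdeal ≤ 𝔪 →
      ∃ s : LTSeries (PrimeSpectrum R), s.length = rs.length ∧ s.head = P := by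
  intro rs
  induction rs with
  | nil =>
    intro M _ _ _ _ _ P _ _
    exact ⟨RelSeries.singleton _ P, rfl, rfl⟩
  | cons r rs ih =>
    intro M _ _ _ hreg hmem P hP hPm
    rw [isWeaklyRegular_cons_iff] at hreg
    obtain ⟨P', hP', hlt, hle⟩ := ass_step 𝔪 (hmem r (by simp)) hreg.1 hP hPm
    have hprime : P'.IsPrime := (isAssociatedPrime_iff.1 hP').1
    obtain ⟨s, hs1, hs2⟩ := ih (QuotSMulTop r M) hreg.2 (fun x hx => hmem x (by simp [hx]))
      ⟨P', hprime⟩ hP' hle
    refine ⟨s.cons P ?_, ?_, ?_⟩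
    · rw [hs2]; exact hlt
    · rw [RelSeries.cons_length, hs1]; rfl
    · exact RelSeries.head_cons _ _ _

end Pool.Agent.H408R3
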