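import Mathlib
import Pool.Agent.H408R3.AbsLine

/-!
The combinatorial data: exponents of the monomials in `x, y` (weights `1, 2`).
-/

set_option autoImplicit false

namespace Pool.Agent.H408R3

universe u

/-- weight of an exponent -/
def wt (q : Fin 2 →₀ ℕ) : ℕ := q 0 + 2 * q 1

theorem wt_add (q q' : Fin 2 →₀ ℕ) : wt (q + q') = wt q + wt q' := by
  simp only [wt, Finsupp.add_apply]; ring

theorem wt_eq_zero {v : Fin 2 →₀ ℕ} (h : wt v = 0) : v = 0 := by
  ext i
  unfold wt at h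
  fin_cases i <;> simp <;> omega

theorem wt_pos {v : Fin 2 →₀ ℕ} (h : v ≠ 0) : 1 ≤ wt v := by
  by_contra hcon
  exact h (wt_eq_zero (by omega))

theorem ext_wt {q q' : Fin 2 →₀ ℕ} (h : wt q = wt q') (h0 : q 0 = q' 0) : q = q' := by
  unfold wt at h
  ext i
  fin_cases i
  · exact h0
  · show q 1 = q' 1
    omega

/-- an exponent with prescribed entries -/
noncomputable def ex (a b : ℕ) : Fin 2 →₀ ℕ := Finsupp.single 0 a + Finsupp.single 1 b

@[simp] theorem ex_zero (a b : ℕ) : ex a b 0 = a := by simp [ex]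
@[simp] theorem ex_one (a b : ℕ) : ex a b 1 = b := by simp [ex]

theorem wt_ex (a b : ℕ) : wt (ex a b) = a + 2 * b := by simp [wt]

/-- digits -/
def Dset (T n : ℕ) : Set ℕ := {d | ∃ k l, k ≤ n ∧ l ≤ n ∧ d = k * (2 * T) + l}

theorem Dset_add {T n n' d d' : ℕ} (h : d ∈ Dset T n) (h' : d' ∈ Dset T n') :
    d + d' ∈ Dset T (n + n') := by
  obtain ⟨k, l, hk, hl, rfl⟩ := h
  obtain ⟨k', l', hk', hl', rfl⟩ := h'
  exact ⟨k + k', l + l', by omega, by omega, by ring⟩

theorem Dset_succ {T n d : ℕ} (h : d ∈ Dset T (n + 1)) :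
    ∃ d1 ∈ Dset T n, ∃ d2 ∈ Dset T 1, d = d1 + d2 := by
  obtain ⟨k, l, hk, hl, rfl⟩ := h
  refine ⟨min k n * (2 * T) + min l n, ⟨_, _, min_le_right _ _, min_le_right _ _, rfl⟩,
    (k - min k n) * (2 * T) + (l - min l n), ⟨_, _, by omega, by omega, rfl⟩, ?_⟩
  have h1 : k = min k n + (k - min k n) := by omega
  have h2 : l = min l n + (l - min l n) := by omega
  calc k * (2 * T) + l = (min k n + (k - min k n)) * (2 * T) + (min l n + (l - min l n)) := by
        rw [← h1, ← h2]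
    _ = _ := by ring

theorem Dset_zero {T d : ℕ} : d ∈ Dset T 0 ↔ d = 0 := by
  constructor
  · rintro ⟨k, l, hk, hl, rfl⟩
    have : k = 0 := by omega
    have : l = 0 := by omega
    subst_vars; simp
  · rintro rfl; exact ⟨0, 0, le_rfl, le_rfl, by simp⟩

theorem zero_mem_Dset (T n : ℕ) : 0 ∈ Dset T n := ⟨0, 0, by omega, by omega, by simp⟩

theorem Dset_mono {T n n' d : ℕ} (hn : n ≤ n') (h : d ∈ Dset T n) : d ∈ Dset T n' := by
  obtain ⟨k, l, hk, hl, rfl⟩ := h
  exact ⟨k, l, by omega, by omega, rfl⟩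

theorem Dset_le {T n d : ℕ} (h : d ∈ Dset T n) : d ≤ n * (2 * T + 1) := by
  obtain ⟨k, l, hk, hl, rfl⟩ := h
  have : k * (2 * T) ≤ n * (2 * T) := Nat.mul_le_mul_right _ hk
  calc k * (2 * T) + l ≤ n * (2 * T) + n := by omega
    _ = _ := by ring

/-- the modulus -/
def ee (T m : ℕ) : ℕ := 1 + T * (m + 1)

/-- the channels -/
def ch (m s i : ℕ) : ℕ := 1 + s * (m + 1) + i

theorem ch_lt {T m s i : ℕ} (hs : s < T) (hi : i ≤ m) : ch m s i < ee T m := by
  unfold ch ee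
  have h1 : (s + 1) * (m + 1) ≤ T * (m + 1) := Nat.mul_le_mul_right _ hs
  have h2 : (s + 1) * (m + 1) = s * (m + 1) + (m + 1) := by ring
  omega

theorem ch_pos (m s i : ℕ) : 0 < ch m s i := by unfold ch; omega

theorem ch_inj {m s i s' i' : ℕ} (hi : i ≤ m) (hi' : i' ≤ m) (h : ch m s i = ch m s' i') :
    s = s' ∧ i = i' := by
  unfold ch at h
  have h1 : i + (m + 1) * s = i' + (m + 1) * s' := by
    have e1 : s * (m + 1) = (m + 1) * s := by ring
    have e2 : s' * (m + 1) = (m + 1) * s' := by ring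
    omega
  have h2 := congrArg (· % (m + 1)) h1
  simp only [Nat.add_mul_mod_self_left] at h2
  rw [Nat.mod_eq_of_lt (by omega), Nat.mod_eq_of_lt (by omega)] at h2
  subst h2
  have h3 : (m + 1) * s = (m + 1) * s' := by omega
  exact ⟨Nat.eq_of_mul_eq_mul_left (by omega) h3, rfl⟩

theorem mod_unique {E a c a' c' : ℕ} (hc : c < E) (hc' : c' < E) (h : E * a + c = E * a' + c') :
    a = a' ∧ c = c' := by
  have h2 := congrArg (· % E) h
  simp only [Nat.mul_add_mod] at h2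
  rw [Nat.mod_eq_of_lt hc, Nat.mod_eq_of_lt hc'] at h2
  subst h2
  have h3 : E * a = E * a' := by omega
  exact ⟨Nat.eq_of_mul_eq_mul_left (by omega) h3, rfl⟩

/-- degree parameter -/
def DD (T m : ℕ) : ℕ := ee T m * (2 * T + 1)

/-- pure positions on the second line at level `0` -/
def PP (T m : ℕ) : Set ℕ :=
  {p | (∃ a ∈ Dset T 1, p = ee T m * a) ∨
    (∃ s r, s + 1 + r = T ∧ 1 ≤ r ∧ (p = ee T m * r + ch m s 0 ∨ p = ee T m * (T + 1) + ch m s 0)) ∨
    ∃ s i, s < T ∧ 1 ≤ i ∧ i ≤ m ∧ p = ee T m * (T + 1) + ch m s i}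

/-- covered positions on the second line at level `n` -/
def Cov (T m n : ℕ) : Set ℕ := {α | ∃ d ∈ Dset T n, ∃ p ∈ PP T m, α = ee T m * d + p}

theorem PP_le {T m p : ℕ} (hT : 1 ≤ T) (h : p ∈ PP T m) : p ≤ DD T m := by
  unfold DD
  have hE : 1 ≤ ee T m := by unfold ee; omega
  rcases h with ⟨a, ha, rfl⟩ | ⟨s, r, hs, hr, rfl | rfl⟩ | ⟨s, i, hs, hi, hi', rfl⟩
  · have := Dset_le ha
    exact Nat.mul_le_mul_left _ (by omega)
  · have := ch_lt (m := m) (i := 0) (show s < T by omega) (by omega)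
    calc ee T m * r + ch m s 0 ≤ ee T m * r + ee T m := by omega
      _ = ee T m * (r + 1) := by ring
      _ ≤ _ := Nat.mul_le_mul_left _ (by omega)
  · have := ch_lt (m := m) (i := 0) (show s < T by omega) (by omega)
    calc ee T m * (T + 1) + ch m s 0 ≤ ee T m * (T + 1) + ee T m := by omega
      _ = ee T m * (T + 2) := by ring
      _ ≤ _ := Nat.mul_le_mul_left _ (by omega)
  · have := ch_lt (m := m) (i := i) hs hi'
    calc ee T m * (T + 1) + ch m s i ≤ ee T m * (T + 1) + ee T m := by omega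
      _ = ee T m * (T + 2) := by ring
      _ ≤ _ := Nat.mul_le_mul_left _ (by omega)

/-- pure positions on channel `ρ(s,0)` -/
theorem Cov_ch_zero {T m n a s : ℕ} (hs : s < T) (h : ee T m * a + ch m s 0 ∈ Cov T m n) :
    ∃ r, s + 1 + r = T ∧ 1 ≤ r ∧ ∃ d ∈ Dset T n, a = d + r ∨ a = d + (T + 1) := by
  obtain ⟨d, hd, p, hp, h⟩ := h
  have hc := ch_lt (T := T) (m := m) (i := 0) hs (by omega)
  rcases hp with ⟨a', ha', rfl⟩ | ⟨s', r, hs', hr, rfl | rfl⟩ | ⟨s', i, hs', hi, hi', rfl⟩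
  · rw [← mul_add] at h
    have := mod_unique (a := a) (a' := d + a') (c' := 0) hc (by omega) h
    have := ch_pos m s 0
    omega
  · rw [← add_assoc, ← mul_add] at h
    obtain ⟨h1, h2⟩ := mod_unique hc (ch_lt (by omega) (by omega)) h
    obtain ⟨rfl, -⟩ := ch_inj (by omega) (by omega) h2
    exact ⟨r, hs', hr, d, hd, Or.inl h1⟩
  · rw [← add_assoc, ← mul_add] at h
    obtain ⟨h1, h2⟩ := mod_unique hc (ch_lt (by omega) (by omega)) h
    obtain ⟨rfl, -⟩ := ch_inj (by omega) (by omega) h2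
    exact ⟨r, hs', hr, d, hd, Or.inr h1⟩
  · rw [← add_assoc, ← mul_add] at h
    obtain ⟨h1, h2⟩ := mod_unique hc (ch_lt (by omega) (by omega)) h
    obtain ⟨rfl, h3⟩ := ch_inj (by omega) (by omega) h2
    omega

/-- pure positions on channel `ρ(s,i)`, `i ≥ 1` -/
theorem Cov_ch_pos {T m n a s i : ℕ} (hs : s < T) (hi : 1 ≤ i) (him : i ≤ m)
    (h : ee T m * a + ch m s i ∈ Cov T m n) : ∃ d ∈ Dset T n, a = d + (T + 1) := by
  obtain ⟨d, hd, p, hp, h⟩ := h
  have hc := ch_lt (T := T) (m := m) (i := i) hs him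
  rcases hp with ⟨a', ha', rfl⟩ | ⟨s', r, hs', hr, rfl | rfl⟩ | ⟨s', i', hs', hi', hi'', rfl⟩
  · rw [← mul_add] at h
    have := mod_unique (a := a) (a' := d + a') (c' := 0) hc (by omega) h
    have := ch_pos m s i
    omega
  · rw [← add_assoc, ← mul_add] at h
    obtain ⟨h1, h2⟩ := mod_unique hc (ch_lt (by omega) (by omega)) h
    obtain ⟨rfl, h3⟩ := ch_inj (by omega) (by omega) h2
    omega
  · rw [← add_assoc, ← mul_add] at h
    obtain ⟨h1, h2⟩ := mod_unique hc (ch_lt (by omega) (by omega)) h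
    obtain ⟨rfl, h3⟩ := ch_inj (by omega) (by omega) h2
    omega
  · rw [← add_assoc, ← mul_add] at h
    obtain ⟨h1, h2⟩ := mod_unique hc (ch_lt (by omega) (by omega)) h
    exact ⟨d, hd, h1⟩

/-- (C1) early: the position `b` is uncovered -/
theorem b_uncov {T m n s i d : ℕ} (hs : s < T) (hi : 1 ≤ i) (him : i ≤ m) (hn : n < s)
    (hd : d ∈ Dset T n) : ee T m * (T + 1 + s + d) + ch m s i ∉ Cov T m n := by
  intro h
  obtain ⟨d', hd', h1⟩ := Cov_ch_pos hs hi him h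
  obtain ⟨k, l, hk, hl, rfl⟩ := hd
  obtain ⟨k', l', hk', hl', rfl⟩ := hd'
  have h2 : (2 * T) * k + (s + l) = (2 * T) * k' + l' := by
    have e1 : k * (2 * T) = (2 * T) * k := by ring
    have e2 : k' * (2 * T) = (2 * T) * k' := by ring
    omega
  have := mod_unique (by omega) (by omega) h2
  omega

/-- (C2) late: the position `j` is covered, if the gadget is not the tail gadget -/
theorem j_cov {T m n s d : ℕ} (hs : s + 1 < T) (hn : s + 1 ≤ n) (hd : d ∈ Dset T n) :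
    ee T m * (T + d) + ch m s 0 ∈ Cov T m n := by
  obtain ⟨k, l, hk, hl, rfl⟩ := hd
  obtain ⟨r, hr⟩ : ∃ r, s + 1 + r = T := ⟨T - (s + 1), by omega⟩
  rcases Nat.eq_zero_or_pos l with hl0 | hl0
  · subst hl0
    refine ⟨k * (2 * T) + (s + 1), ⟨k, s + 1, hk, hn, rfl⟩, ee T m * r + ch m s 0,
      Or.inr (Or.inl ⟨s, r, hr, by omega, Or.inl rfl⟩), ?_⟩
    have h1 : T + (k * (2 * T) + 0) = (k * (2 * T) + (s + 1)) + r := by omega
    rw [h1]; ring
  · refine ⟨k * (2 * T) + (l - 1), ⟨k, l - 1, hk, by omega, rfl⟩, ee T m * (T + 1) + ch m s 0,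
      Or.inr (Or.inl ⟨s, r, hr, by omega, Or.inr rfl⟩), ?_⟩
    have h1 : T + (k * (2 * T) + l) = (k * (2 * T) + (l - 1)) + (T + 1) := by omega
    rw [h1]; ring

/-- (C3) the position `b` at `a = 0` is covered from time `s + 1` on -/
theorem b_cov {T m n s i : ℕ} (hs : s < T) (hi : 1 ≤ i) (him : i ≤ m) (hn : s ≤ n) :
    ee T m * (T + 1 + s) + ch m s i ∈ Cov T m n := by
  refine ⟨s, ⟨0, s, by omega, hn, by simp⟩, ee T m * (T + 1) + ch m s i,
    Or.inr (Or.inr ⟨s, i, hs, hi, him, rfl⟩), ?_⟩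
  rw [← add_assoc, ← mul_add]
  congr 2
  omega

/-- the position `j` at `a = 0` is uncovered up to time `s + 1` -/
theorem j_uncov {T m n s : ℕ} (hs : s < T) (hn : n ≤ s) :
    ee T m * T + ch m s 0 ∉ Cov T m n := by
  intro h
  obtain ⟨r, hr, hr1, d, hd, h1 | h1⟩ := Cov_ch_zero hs h
  · obtain ⟨k, l, hk, hl, rfl⟩ := hd
    rcases Nat.eq_zero_or_pos k with hk0 | hk0
    · subst hk0; omega
    · have : 1 * (2 * T) ≤ k * (2 * T) := Nat.mul_le_mul_right _ hk0
      omega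
  · omega

/-- the position `j` of the tail gadget is never covered -/
theorem tail_uncov {T m n a : ℕ} (hT : 1 ≤ T) :
    ee T m * a + ch m (T - 1) 0 ∉ Cov T m n := by
  intro h
  obtain ⟨r, hr, hr1, -⟩ := Cov_ch_zero (by omega) h
  omega

end Pool.Agent.H408R3
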