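import Mathlib
import Pool.Agent.H408R3.Digits

/-!
The powers of the ideal.
-/

set_option autoImplicit false

namespace Pool.Agent.H408R3

open MvPolynomial

universe u

/-- the pure exponents of the `(n+1)`-st power -/
def Pure (T m n : ℕ) : Set (Fin 2 →₀ ℕ) :=
  {q | 2 * DD T m * (n + 1) + 2 ≤ wt q ∨
    (wt q = 2 * DD T m * (n + 1) ∧ ∃ d ∈ Dset T (n + 1), q 0 = 2 * (ee T m * d)) ∨
    (wt q = 2 * DD T m * (n + 1) + 1 ∧ ∃ α ∈ Cov T m n, q 0 = 2 * α + 1)}

/-- the binomials of the `(n+1)`-st power -/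
def Bin (T m : ℕ) (g : ℕ → ℕ) {R : Type u} [CommRing R] (z : ℕ → R) (n : ℕ) :
    Set ((Fin 2 →₀ ℕ) × (Fin 2 →₀ ℕ) × R) :=
  {x | ∃ s i d, s < T ∧ 1 ≤ i ∧ i ≤ g s ∧ d ∈ Dset T n ∧
    wt x.1 = 2 * DD T m * (n + 1) + 1 ∧ x.1 0 = 2 * (ee T m * (T + 1 + s + d) + ch m s i) + 1 ∧
    wt x.2.1 = 2 * DD T m * (n + 1) + 1 ∧ x.2.1 0 = 2 * (ee T m * (T + d) + ch m s 0) + 1 ∧
    x.2.2 = z i ^ (ee T m * (1 + s) + i)}

variable {R : Type u} [CommRing R] {T m : ℕ} {g : ℕ → ℕ} {z : ℕ → R}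

theorem pure_wt_ge {n : ℕ} {q : Fin 2 →₀ ℕ} (h : q ∈ Pure T m n) : 2 * DD T m * (n + 1) ≤ wt q := by
  rcases h with h | h | h <;> omega

theorem pure_upper (n : ℕ) (q v : Fin 2 →₀ ℕ) (hq : q ∈ Pure T m n) : q + v ∈ Pure T m n := by
  by_cases hv : v = 0
  · rw [hv, add_zero]; exact hq
  have hv1 := wt_pos hv
  rcases hq with h | ⟨h, d, hd, h0⟩ | ⟨h, α, hα, h0⟩
  · left; rw [wt_add]; omega
  · rcases Nat.lt_or_ge 1 (wt v) with h1 | h1
    · left; rw [wt_add]; omega
    · right; right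
      have h2 : wt v = 1 := by omega
      have h3 : v 0 = 1 := by
        unfold wt at h2; omega
      refine ⟨by rw [wt_add]; omega, ee T m * d, ?_, ?_⟩
      · obtain ⟨d1, hd1, d2, hd2, rfl⟩ := Dset_succ hd
        exact ⟨d1, hd1, ee T m * d2, Or.inl ⟨d2, hd2, rfl⟩, by ring⟩
      · rw [Finsupp.add_apply, h0, h3]
  · left; rw [wt_add]; omega

theorem good_n (hgm : ∀ s, g s ≤ m) (n : ℕ) : Good (Pure T m n) (Bin T m g z n) where
  upper := pure_upper n
  bv := by
    rintro b j ζ ⟨s, i, d, hs, hi, hig, hd, h1, h2, h3, h4, h5⟩ v hv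
    left
    have := wt_pos hv
    rw [wt_add]
    dsimp only at h1
    omega
  jv := by
    rintro b j ζ ⟨s, i, d, hs, hi, hig, hd, h1, h2, h3, h4, h5⟩ v hv
    left
    have := wt_pos hv
    rw [wt_add]
    dsimp only at h3
    omega
  inj := by
    rintro b j ζ j' ζ' ⟨s, i, d, hs, hi, hig, hd, h1, h2, h3, h4, h5⟩
      ⟨s', i', d', hs', hi', hig', hd', h1', h2', h3', h4', h5'⟩
    dsimp only at h1 h2 h3 h4 h5 h1' h2' h3' h4' h5'
    have hgs := hgm s
    have hgs' := hgm s'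
    have e1 : ee T m * (T + 1 + s + d) + ch m s i = ee T m * (T + 1 + s' + d') + ch m s' i' := by
      omega
    obtain ⟨e2, e3⟩ := mod_unique (ch_lt hs (by omega)) (ch_lt hs' (by omega)) e1
    obtain ⟨rfl, rfl⟩ := ch_inj (by omega) (by omega) e3
    have e4 : d = d' := by omega
    subst e4
    exact ⟨ext_wt (by omega) (by omega), by rw [h5, h5']⟩
  disj := by
    rintro b j ζ b' j' ζ' ⟨s, i, d, hs, hi, hig, hd, h1, h2, h3, h4, h5⟩
      ⟨s', i', d', hs', hi', hig', hd', h1', h2', h3', h4', h5'⟩ hbj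
    dsimp only at h1 h2 h3 h4 h5 h1' h2' h3' h4' h5'
    rw [hbj] at h2
    have hgs := hgm s
    have e1 : ee T m * (T + 1 + s + d) + ch m s i = ee T m * (T + d') + ch m s' 0 := by
      omega
    obtain ⟨e2, e3⟩ := mod_unique (ch_lt hs (by omega)) (ch_lt hs' (by omega)) e1
    obtain ⟨rfl, e4⟩ := ch_inj (by omega) (by omega) e3
    omega

/-- the ideal of the `(n+1)`-st power -/
noncomputable def PI (T m : ℕ) (g : ℕ → ℕ) {R : Type u} [CommRing R] (z : ℕ → R) (n : ℕ) :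
    Ideal (MvPolynomial (Fin 2) R) := lineI (Pure T m n) (Bin T m g z n)

theorem pure_add_pure {n : ℕ} {q q' : Fin 2 →₀ ℕ} (hq : q ∈ Pure T m n) (hq' : q' ∈ Pure T m 0) :
    q + q' ∈ Pure T m (n + 1) := by
  have e0 : 2 * DD T m * (n + 1 + 1) = 2 * DD T m * (n + 1) + 2 * DD T m * (0 + 1) := by ring
  have hw := pure_wt_ge hq
  have hw' := pure_wt_ge hq'
  rcases hq with h | ⟨h, d, hd, h0⟩ | ⟨h, α, hα, h0⟩
  · left; rw [wt_add]; omega
  · rcases hq' with h' | ⟨h', d', hd', h0'⟩ | ⟨h', α', hα', h0'⟩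
    · left; rw [wt_add]; omega
    · right; left
      refine ⟨by rw [wt_add]; omega, d + d', Dset_add hd hd', ?_⟩
      rw [Finsupp.add_apply, h0, h0']; ring
    · right; right
      obtain ⟨d1, hd1, p, hp, rfl⟩ := hα'
      rw [Dset_zero.1 hd1] at h0'
      refine ⟨by rw [wt_add]; omega, ee T m * d + p, ⟨d, hd, p, hp, rfl⟩, ?_⟩
      rw [Finsupp.add_apply, h0, h0']; ring
  · rcases hq' with h' | ⟨h', d', hd', h0'⟩ | ⟨h', α', hα', h0'⟩
    · left; rw [wt_add]; omega
    · right; right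
      obtain ⟨d1, hd1, p, hp, rfl⟩ := hα
      refine ⟨by rw [wt_add]; omega, ee T m * (d1 + d') + p, ⟨d1 + d', Dset_add hd1 hd', p, hp, rfl⟩, ?_⟩
      rw [Finsupp.add_apply, h0, h0']; ring
    · left; rw [wt_add]; omega

theorem bin_wt {n : ℕ} {b j : Fin 2 →₀ ℕ} {ζ : R} (h : (b, j, ζ) ∈ Bin T m g z n) :
    wt b = 2 * DD T m * (n + 1) + 1 ∧ wt j = 2 * DD T m * (n + 1) + 1 := by
  obtain ⟨s, i, d, hs, hi, hig, hd, h1, h2, h3, h4, h5⟩ := h
  exact ⟨h1, h3⟩

/-- product of a pure monomial and a binomial, general levels `n`, `n'` with `n = 0` or `n' = 0` -/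
theorem pure_mul_bin {n n' : ℕ} {q b j : Fin 2 →₀ ℕ} {ζ : R} (hq : q ∈ Pure T m n)
    (hb : (b, j, ζ) ∈ Bin T m g z n') (N : ℕ) (hN : N = n + n' + 1) :
    monomial q (1 : R) * (monomial b 1 + monomial j ζ) ∈ PI T m g z N := by
  have e0 : 2 * DD T m * (N + 1) = 2 * DD T m * (n + 1) + 2 * DD T m * (n' + 1) := by
    rw [hN]; ring
  have hw := pure_wt_ge hq
  obtain ⟨hbw, hjw⟩ := bin_wt hb
  rw [mul_add, monomial_mul, monomial_mul, one_mul, one_mul]
  by_cases h1 : wt q = 2 * DD T m * (n + 1)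
  · obtain ⟨d, hd, h0⟩ : ∃ d ∈ Dset T (n + 1), q 0 = 2 * (ee T m * d) := by
      rcases hq with h | ⟨h, hh⟩ | ⟨h, hh⟩
      · omega
      · exact hh
      · omega
    apply binom_mem_lineI
    obtain ⟨s, i, d', hs, hi, hig, hd', h1, h2, h3, h4, h5⟩ := hb
    dsimp only at h1 h2 h3 h4 h5
    refine ⟨s, i, d' + d, hs, hi, hig, ?_, ?_, ?_, ?_, ?_, h5⟩
    · rw [hN]
      have := Dset_add hd' hd
      rwa [show n' + (n + 1) = n + n' + 1 by ring] at this
    · rw [wt_add]; omega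
    · rw [Finsupp.add_apply, h2, h0]; ring
    · rw [wt_add]; omega
    · rw [Finsupp.add_apply, h4, h0]; ring
  · refine Ideal.add_mem _ (mono_mem_lineI (Or.inl ?_) _) (mono_mem_lineI (Or.inl ?_) _)
    · rw [wt_add]; omega
    · rw [wt_add]; omega

theorem PI_succ_le (n : ℕ) : PI T m g z n * PI T m g z 0 ≤ PI T m g z (n + 1) := by
  unfold PI lineI
  rw [Ideal.span_mul_span', Ideal.span_le]
  rintro _ ⟨f, hf, f', hf', rfl⟩
  show f * f' ∈ PI T m g z (n + 1)
  rcases hf with ⟨q, hq, rfl⟩ | ⟨b, j, ζ, hB, rfl⟩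
  · rcases hf' with ⟨q', hq', rfl⟩ | ⟨b', j', ζ', hB', rfl⟩
    · rw [monomial_mul]
      exact mono_mem_lineI (pure_add_pure hq hq') _
    · exact pure_mul_bin hq hB' _ (by ring)
  · rcases hf' with ⟨q', hq', rfl⟩ | ⟨b', j', ζ', hB', rfl⟩
    · rw [mul_comm]
      exact pure_mul_bin hq' hB _ (by ring)
    · obtain ⟨h1, h2⟩ := bin_wt hB
      obtain ⟨h1', h2'⟩ := bin_wt hB'
      have e0 : 2 * DD T m * (n + 1 + 1) = 2 * DD T m * (n + 1) + 2 * DD T m * (0 + 1) := by ring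
      rw [add_mul, mul_add, mul_add, monomial_mul, monomial_mul, monomial_mul, monomial_mul]
      refine Ideal.add_mem _ (Ideal.add_mem _ ?_ ?_) (Ideal.add_mem _ ?_ ?_) <;>
      · refine mono_mem_lineI (Or.inl ?_) _
        rw [wt_add]; omega

theorem DD_pos : 1 ≤ DD T m := by
  unfold DD ee
  exact Nat.one_le_iff_ne_zero.2 (by positivity)

theorem le_PI_succ (hT : 1 ≤ T) (hgm : ∀ s, g s ≤ m) (n : ℕ) :
    PI T m g z (n + 1) ≤ PI T m g z n * PI T m g z 0 := by
  have e0 : 2 * DD T m * (n + 1 + 1) = 2 * DD T m * (n + 1) + 2 * DD T m * (0 + 1) := by ring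
  have eD : ∀ k, ee T m * (k * (2 * T + 1)) = DD T m * k := by
    intro k; unfold DD; ring
  -- splitting a pure monomial
  have hsplit : ∀ q : Fin 2 →₀ ℕ, (∃ q1 ∈ Pure T m n, ∃ q2 ∈ Pure T m 0, q = q1 + q2) →
      (monomial q (1 : R)) ∈ PI T m g z n * PI T m g z 0 := by
    rintro _ ⟨q1, h1, q2, h2, rfl⟩
    have : (monomial (q1 + q2) (1 : R)) = monomial q1 1 * monomial q2 1 := by
      rw [monomial_mul, one_mul]
    rw [this]
    exact Ideal.mul_mem_mul (mono_mem_lineI h1 1) (mono_mem_lineI h2 1)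
  -- first line elements
  have hline : ∀ k d, d ∈ Dset T (k + 1) → ex (2 * (ee T m * d)) (DD T m * (k + 1) - ee T m * d) ∈
      Pure T m k := by
    intro k d hd
    right; left
    have h1 : ee T m * d ≤ DD T m * (k + 1) := by
      rw [← eD]; exact Nat.mul_le_mul_left _ (Dset_le hd)
    refine ⟨?_, d, hd, ex_zero _ _⟩
    rw [wt_ex]
    have : 2 * DD T m * (k + 1) = 2 * (DD T m * (k + 1)) := by ring
    omega
  have hD0 := DD_pos (T := T) (m := m)
  unfold PI lineI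
  rw [Ideal.span_le]
  rintro f hf
  show f ∈ PI T m g z n * PI T m g z 0
  rcases hf with ⟨q, hq, rfl⟩ | ⟨b, j, ζ, hB, rfl⟩
  · apply hsplit
    rcases hq with h | ⟨h, d, hd, h0⟩ | ⟨h, α, hα, h0⟩
    · by_cases h1 : DD T m ≤ q 1
      · refine ⟨ex (q 0) (q 1 - DD T m), Or.inl ?_, ex 0 (DD T m), ?_, ?_⟩
        · rw [wt_ex]; unfold wt at h; omega
        · have := hline 0 0 (zero_mem_Dset _ _)
          simpa using this
        · apply ext_wt
          · rw [wt_add, wt_ex, wt_ex]; unfold wt; omega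
          · simp
      · have hb : 2 * DD T m ≤ q 0 := by
          unfold wt at h
          have : 2 * DD T m * (n + 1) = 2 * DD T m * n + 2 * DD T m := by ring
          omega
        refine ⟨ex (q 0 - 2 * DD T m) (q 1), Or.inl ?_, ex (2 * DD T m) 0, ?_, ?_⟩
        · rw [wt_ex]; unfold wt at h; omega
        · have := hline 0 (2 * T + 1) ⟨1, 1, le_rfl, le_rfl, by ring⟩
          have e1 : ee T m * (2 * T + 1) = DD T m := rfl
          rw [e1] at this
          simpa using this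
        · apply ext_wt
          · rw [wt_add, wt_ex, wt_ex]; unfold wt; omega
          · simp; omega
    · obtain ⟨d1, hd1, d2, hd2, rfl⟩ := Dset_succ hd
      refine ⟨_, hline n d1 hd1, _, hline 0 d2 hd2, ?_⟩
      have h1 : ee T m * d1 ≤ DD T m * (n + 1) := by
        rw [← eD]; exact Nat.mul_le_mul_left _ (Dset_le hd1)
      have h2 : ee T m * d2 ≤ DD T m * (0 + 1) := by
        rw [← eD]; exact Nat.mul_le_mul_left _ (Dset_le hd2)
      apply ext_wt
      · rw [wt_add, wt_ex, wt_ex, h, e0]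
        have : 2 * DD T m * (n + 1) = 2 * (DD T m * (n + 1)) := by ring
        have : 2 * DD T m * (0 + 1) = 2 * (DD T m * (0 + 1)) := by ring
        omega
      · rw [Finsupp.add_apply, ex_zero, ex_zero, h0]; ring
    · obtain ⟨d, hd, p, hp, rfl⟩ := hα
      have hp1 := PP_le hT hp
      refine ⟨_, hline n d hd, ex (2 * p + 1) (DD T m - p), Or.inr (Or.inr ⟨?_, p,
        ⟨0, zero_mem_Dset _ _, p, hp, by ring⟩, ex_zero _ _⟩), ?_⟩
      · rw [wt_ex]; omega
      · have h1 : ee T m * d ≤ DD T m * (n + 1) := by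
          rw [← eD]; exact Nat.mul_le_mul_left _ (Dset_le hd)
        apply ext_wt
        · rw [wt_add, wt_ex, wt_ex, h, e0]
          have : 2 * DD T m * (n + 1) = 2 * (DD T m * (n + 1)) := by ring
          omega
        · rw [Finsupp.add_apply, ex_zero, ex_zero, h0]; ring
  · obtain ⟨s, i, d, hs, hi, hig, hd, h1, h2, h3, h4, h5⟩ := hB
    dsimp only at h1 h2 h3 h4 h5
    have hgs := hgm s
    obtain ⟨d1, hd1, d2, hd2, rfl⟩ := Dset_succ hd
    have hd1' := Dset_le hd1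
    have hch := ch_lt (m := m) hs (show i ≤ m by omega)
    have hch0 := ch_lt (m := m) (i := 0) hs (by omega)
    have hb1 : ee T m * (T + 1 + s + d1) + ch m s i ≤ DD T m * (n + 1) := by
      calc ee T m * (T + 1 + s + d1) + ch m s i ≤ ee T m * (T + 1 + s + d1) + ee T m := by omega
        _ = ee T m * (T + 2 + s + d1) := by ring
        _ ≤ ee T m * ((n + 1) * (2 * T + 1)) := Nat.mul_le_mul_left _ (by
            have : (n + 1) * (2 * T + 1) = n * (2 * T + 1) + (2 * T + 1) := by ring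
            omega)
        _ = _ := eD _
    have hj1 : ee T m * (T + d1) + ch m s 0 ≤ DD T m * (n + 1) := by
      calc ee T m * (T + d1) + ch m s 0 ≤ ee T m * (T + d1) + ee T m := by omega
        _ = ee T m * (T + 1 + d1) := by ring
        _ ≤ ee T m * ((n + 1) * (2 * T + 1)) := Nat.mul_le_mul_left _ (by
            have : (n + 1) * (2 * T + 1) = n * (2 * T + 1) + (2 * T + 1) := by ring
            omega)
        _ = _ := eD _
    have h2' : ee T m * d2 ≤ DD T m * (0 + 1) := by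
      rw [← eD]; exact Nat.mul_le_mul_left _ (Dset_le hd2)
    have e2 : 2 * DD T m * (n + 1) = 2 * (DD T m * (n + 1)) := by ring
    have e3 : 2 * DD T m * (0 + 1) = 2 * (DD T m * (0 + 1)) := by ring
    have hq2 := hline 0 d2 hd2
    set q2 := ex (2 * (ee T m * d2)) (DD T m * (0 + 1) - ee T m * d2) with hq2d
    set b1 := ex (2 * (ee T m * (T + 1 + s + d1) + ch m s i) + 1)
      (DD T m * (n + 1) - (ee T m * (T + 1 + s + d1) + ch m s i)) with hb1d
    set j1 := ex (2 * (ee T m * (T + d1) + ch m s 0) + 1)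
      (DD T m * (n + 1) - (ee T m * (T + d1) + ch m s 0)) with hj1d
    have hB1 : (b1, j1, ζ) ∈ Bin T m g z n := by
      refine ⟨s, i, d1, hs, hi, hig, hd1, ?_, ex_zero _ _, ?_, ex_zero _ _, h5⟩
      · show wt b1 = _
        rw [hb1d, wt_ex]; omega
      · show wt j1 = _
        rw [hj1d, wt_ex]; omega
    have hb : b = b1 + q2 := by
      apply ext_wt
      · rw [wt_add, hb1d, hq2d, wt_ex, wt_ex, h1, e0]; omega
      · rw [Finsupp.add_apply, hb1d, hq2d, ex_zero, ex_zero, h2]; ring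
    have hj : j = j1 + q2 := by
      apply ext_wt
      · rw [wt_add, hj1d, hq2d, wt_ex, wt_ex, h3, e0]; omega
      · rw [Finsupp.add_apply, hj1d, hq2d, ex_zero, ex_zero, h4]; ring
    have hfin : (monomial b (1 : R)) + monomial j ζ = (monomial b1 1 + monomial j1 ζ) * monomial q2 1 := by
      rw [add_mul, monomial_mul, monomial_mul, one_mul, mul_one, hb, hj]
    rw [hfin]
    exact Ideal.mul_mem_mul (binom_mem_lineI hB1) (mono_mem_lineI hq2 1)

/-- the powers of the ideal -/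
theorem PI_pow (hT : 1 ≤ T) (hgm : ∀ s, g s ≤ m) (n : ℕ) :
    (PI T m g z 0) ^ (n + 1) = PI T m g z n := by
  induction n with
  | zero => rw [zero_add, pow_one]
  | succ n ih =>
    rw [pow_succ, ih]
    exact le_antisymm (PI_succ_le n) (le_PI_succ hT hgm n)

end Pool.Agent.H408R3
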