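import Mathlib
import Pool.Agent.H408R3.Powers

/-!
Variables not occurring in the generators of a monomial ideal form a regular chain.
-/

set_option autoImplicit false

namespace Pool.Agent.H408R3

open MvPolynomial
open Pool.Agent.Helper698.Dstab

universe u

section general

variable {σ : Type} {K : Type u} [Field K]

theorem regChain_vars (L : List σ) : ∀ (A : Set (σ →₀ ℕ)), L.Nodup →
    (∀ a ∈ A, ∀ i ∈ L, a i = 0) →
    RegChain (Ideal.span ((fun s => monomial s (1 : K)) '' A)) (L.map X) := by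
  classical
  induction L with
  | nil => intro A _ _; trivial
  | cons i L ih =>
    intro A hnd hA
    rw [List.nodup_cons] at hnd
    refine ⟨?_, ?_⟩
    · intro a ha
      rw [mem_ideal_span_monomial_image] at ha ⊢
      intro xi hxi
      have h1 : xi + Finsupp.single i 1 ∈ (X i * a).support := by
        rw [mem_support_iff, add_comm, coeff_X_mul]
        exact mem_support_iff.1 hxi
      obtain ⟨si, hsi, hle⟩ := ha _ h1
      refine ⟨si, hsi, fun k => ?_⟩
      have h2 := hle k
      rw [Finsupp.add_apply] at h2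
      by_cases hk : k = i
      · subst hk
        rw [hA si hsi k (by simp)]
        exact Nat.zero_le _
      · rwa [Finsupp.single_eq_of_ne hk, add_zero] at h2
    · have h1 := ih (A ∪ {Finsupp.single i 1}) hnd.2 (by
        rintro a (ha | ha) k hk
        · exact hA a ha k (by simp [hk])
        · rw [Set.mem_singleton_iff.1 ha]
          have : k ≠ i := by
            rintro rfl
            exact hnd.1 hk
          rw [Finsupp.single_eq_of_ne this])
      rw [Set.image_union, Set.image_singleton, Ideal.span_union] at h1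
      exact h1

theorem regChain_top {A : Type u} [CommRing A] : ∀ (ys : List A) (I : Ideal A), I = ⊤ →
    RegChain I ys := by
  intro ys
  induction ys with
  | nil => intro I _; trivial
  | cons y ys ih =>
    intro I hI
    refine ⟨fun a _ => by rw [hI]; trivial, ih _ ?_⟩
    rw [hI, top_sup_eq]

theorem regChain_map {A B : Type u} [CommRing A] [CommRing B] (e : A ≃+* B) : ∀ (ys : List A)
    (I : Ideal A), RegChain I ys → RegChain (I.map (e : A →+* B)) (ys.map e) := by
  intro ys
  induction ys with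
  | nil => intro I _; trivial
  | cons y ys ih =>
    intro I hI
    have hmem : ∀ (J : Ideal A) (a : B), a ∈ J.map (e : A →+* B) ↔ e.symm a ∈ J := by
      intro J a
      have h := Ideal.mem_map_of_equiv (e : A ≃+* B) (I := J) a
      constructor
      · intro ha
        obtain ⟨x, hx, rfl⟩ := h.1 ha
        simpa using hx
      · intro ha
        exact h.2 ⟨_, ha, by simp⟩
    refine ⟨?_, ?_⟩
    · intro a ha
      rw [hmem] at ha ⊢
      apply hI.1
      simpa using ha
    · have h1 := ih _ hI.2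
      rw [Ideal.map_sup, Ideal.map_span, Set.image_singleton] at h1
      exact h1

end general

section coef

variable {K : Type u} [Field K] {T m : ℕ} {g : ℕ → ℕ}

/-- the variables `z_i`, `1 ≤ i ≤ m` -/
noncomputable def zz (K : Type u) [Field K] (m i : ℕ) : MvPolynomial (Fin m) K :=
  if h : 1 ≤ i ∧ i ≤ m then X ⟨i - 1, by omega⟩ else 0

/-- the active gadget at level `n` -/
def act (T n : ℕ) : ℕ := min n (T - 1)

/-- only the active gadget matters -/
theorem active (hT : 1 ≤ T) (hgm : ∀ s, g s ≤ m) {R : Type u} [CommRing R] {z : ℕ → R} {n : ℕ}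
    {b q : Fin 2 →₀ ℕ} {r : R} (hb : b ∈ Pure T m n) (hq : q ∉ Pure T m n)
    (h : (b, q, r) ∈ Bin T m g z n) :
    ∃ i, 1 ≤ i ∧ i ≤ g (act T n) ∧ r = z i ^ (ee T m * (1 + act T n) + i) := by
  obtain ⟨s, i, d, hs, hi, hig, hd, h1, h2, h3, h4, h5⟩ := h
  dsimp only at h1 h2 h3 h4 h5
  have hgs := hgm s
  have hbc : ee T m * (T + 1 + s + d) + ch m s i ∈ Cov T m n := by
    rcases hb with h | ⟨h, -⟩ | ⟨h, α, hα, h0⟩
    · omega
    · omega
    · have : α = ee T m * (T + 1 + s + d) + ch m s i := by omega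
      rwa [← this]
  have hs1 : s ≤ n := by
    by_contra hcon
    exact b_uncov hs hi (by omega) (by omega) hd hbc
  have hqc : ee T m * (T + d) + ch m s 0 ∉ Cov T m n := by
    intro hc
    exact hq (Or.inr (Or.inr ⟨h3, _, hc, h4⟩))
  have hs2 : ¬ (s + 1 < T ∧ s + 1 ≤ n) := by
    rintro ⟨ha, hb'⟩
    exact hqc (j_cov ha hb' hd)
  have hact : s = act T n := by
    unfold act
    omega
  subst hact
  exact ⟨i, hi, hig, h5⟩

theorem zz_pow (m i κ : ℕ) (hi : 1 ≤ i ∧ i ≤ m) :
    zz K m i ^ κ = monomial (Finsupp.single ⟨i - 1, by omega⟩ κ) 1 := by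
  rw [zz, dif_pos hi, X_pow_eq_monomial]

theorem coefI_eq_span (hT : 1 ≤ T) (hgm : ∀ s, g s ≤ m) {n : ℕ} {q : Fin 2 →₀ ℕ}
    (hq : q ∉ Pure T m n) :
    coefI (Pure T m n) (Bin T m g (zz K m) n) q =
      Ideal.span ((fun s => monomial s (1 : K)) '' {a | ∃ b ∈ Pure T m n,
        (b, q, monomial a (1 : K)) ∈ Bin T m g (zz K m) n}) := by
  unfold coefI
  congr 1
  ext r
  constructor
  · rintro (h | ⟨b, hb, hB⟩)
    · exact absurd h hq
    · obtain ⟨i, hi, hig, hr⟩ := active hT hgm hb hq hB
      have := hgm (act T n)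
      rw [zz_pow m i _ ⟨hi, by omega⟩] at hr
      exact ⟨_, ⟨b, hb, by rw [← hr]; exact hB⟩, hr.symm⟩
  · rintro ⟨a, ⟨b, hb, hB⟩, rfl⟩
    exact Or.inr ⟨b, hb, hB⟩

theorem coefI_support (hT : 1 ≤ T) (hgm : ∀ s, g s ≤ m) {n : ℕ} {q : Fin 2 →₀ ℕ}
    (hq : q ∉ Pure T m n) {a : Fin m →₀ ℕ} {b : Fin 2 →₀ ℕ} (hb : b ∈ Pure T m n)
    (h : (b, q, monomial a (1 : K)) ∈ Bin T m g (zz K m) n) :
    ∃ i : Fin m, i.val + 1 ≤ g (act T n) ∧
      a = Finsupp.single i (ee T m * (1 + act T n) + (i.val + 1)) := by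
  obtain ⟨i, hi, hig, hr⟩ := active hT hgm hb hq h
  have hgs := hgm (act T n)
  rw [zz_pow m i _ ⟨hi, by omega⟩] at hr
  have h1 := monomial_left_injective (one_ne_zero : (1 : K) ≠ 0) hr
  refine ⟨⟨i - 1, by omega⟩, by simp; omega, ?_⟩
  rw [h1]
  congr 1
  simp only
  omega

/-- the list of free variables -/
def freeVars (m G : ℕ) (hG : G ≤ m) : List (Fin m) :=
  List.ofFn (fun k : Fin (m - G) => (⟨G + k.val, by omega⟩ : Fin m))

theorem freeVars_length (m G : ℕ) (hG : G ≤ m) : (freeVars m G hG).length = m - G := by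
  simp [freeVars]

theorem freeVars_nodup (m G : ℕ) (hG : G ≤ m) : (freeVars m G hG).Nodup := by
  rw [freeVars, List.nodup_ofFn]
  intro a b hab
  simp only [Fin.mk.injEq] at hab
  exact Fin.ext (by omega)

theorem mem_freeVars {m G : ℕ} {hG : G ≤ m} {i : Fin m} (h : i ∈ freeVars m G hG) : G ≤ i.val := by
  rw [freeVars, List.mem_ofFn] at h
  obtain ⟨k, rfl⟩ := h
  simp

theorem regChain_PI (hT : 1 ≤ T) (hgm : ∀ s, g s ≤ m) (n : ℕ) :
    RegChain (PI T m g (zz K m) n) (((freeVars m (g (act T n)) (hgm _)).map X).map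
      (C : MvPolynomial (Fin m) K →+* MvPolynomial (Fin 2) (MvPolynomial (Fin m) K))) := by
  have h := regChain_lineI (good_n (z := zz K m) hgm n)
    ((freeVars m (g (act T n)) (hgm _)).map X) ⊥ (by
      intro q hq
      rw [sup_bot_eq, coefI_eq_span hT hgm hq]
      apply regChain_vars _ _ (freeVars_nodup _ _ _)
      rintro a ⟨b, hb, hB⟩ i hi
      obtain ⟨i', hi', rfl⟩ := coefI_support hT hgm hq hb hB
      have := mem_freeVars hi
      have hne : i ≠ i' := by
        rintro rfl
        omega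
      rw [Finsupp.single_eq_of_ne hne])
  rw [Ideal.map_bot, sup_bot_eq] at h
  exact h

end coef

end Pool.Agent.H408R3
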