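import Mathlib
import Pool.Agent.H408R3.Digits

/-!
Combinatorial data for the projective dimension functions.
-/

set_option autoImplicit false

namespace Pool.Agent.H408R3.PDF

open Finset

/-- digit sums -/
def low (M p : ℕ) (κ : ℕ → ℕ) : ℕ := ∑ u ∈ range p, κ u * M ^ u

theorem low_add (M p : ℕ) (κ κ' : ℕ → ℕ) : low M p (fun u => κ u + κ' u) = low M p κ + low M p κ' := by
  simp only [low, add_mul, Finset.sum_add_distrib]

theorem low_mono {M p : ℕ} {κ κ' : ℕ → ℕ} (h : ∀ u, κ u ≤ κ' u) : low M p κ ≤ low M p κ' :=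
  Finset.sum_le_sum fun u _ => Nat.mul_le_mul_right _ (h u)

theorem low_succ (M p : ℕ) (κ : ℕ → ℕ) :
    low M (p + 1) κ = κ 0 + M * low M p (fun u => κ (u + 1)) := by
  unfold low
  rw [Finset.sum_range_succ', Finset.mul_sum, pow_zero, mul_one, add_comm]
  congr 1
  apply Finset.sum_congr rfl
  intro u _
  rw [pow_succ]; ring

theorem low_inj {M : ℕ} : ∀ {p : ℕ} {κ κ' : ℕ → ℕ}, (∀ u < p, κ u < M) → (∀ u < p, κ' u < M) →
    low M p κ = low M p κ' → ∀ u < p, κ u = κ' u := by
  intro p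
  induction p with
  | zero => intro κ κ' _ _ _ u hu; omega
  | succ p ih =>
    intro κ κ' h h' heq u hu
    rw [low_succ, low_succ] at heq
    have h1 : M * low M p (fun u => κ (u + 1)) + κ 0 = M * low M p (fun u => κ' (u + 1)) + κ' 0 := by
      omega
    obtain ⟨h2, h3⟩ := mod_unique (h 0 (by omega)) (h' 0 (by omega)) h1
    cases u with
    | zero => exact h3
    | succ u =>
      exact ih (fun u hu => h (u + 1) (by omega)) (fun u hu => h' (u + 1) (by omega)) h2 u (by omega)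

theorem low_lt {M : ℕ} (hM : 1 ≤ M) : ∀ {p : ℕ} {κ : ℕ → ℕ}, (∀ u < p, κ u < M) →
    low M p κ < M ^ p := by
  intro p
  induction p with
  | zero => intro κ _; simp [low]
  | succ p ih =>
    intro κ h
    rw [low_succ, pow_succ]
    have h1 := ih (κ := fun u => κ (u + 1)) (fun u hu => h (u + 1) (by omega))
    have h2 := h 0 (by omega)
    calc κ 0 + M * low M p (fun u => κ (u + 1)) < M + M * low M p (fun u => κ (u + 1)) := by omega
      _ = M * (low M p (fun u => κ (u + 1)) + 1) := by ring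
      _ ≤ M * M ^ p := Nat.mul_le_mul_left _ h1
      _ = M ^ p * M := by ring

theorem low_single {M p i s : ℕ} (hi : i < p) :
    low M p (fun u => if u = i then s else 0) = s * M ^ i := by
  unfold low
  rw [Finset.sum_eq_single i]
  · dsimp only; rw [if_pos rfl]
  · intro b _ hb; dsimp only; rw [if_neg hb, zero_mul]
  · intro h; exact absurd (Finset.mem_range.2 hi) h

/-- the path lemma -/
theorem path {M p j c : ℕ} (hM : 1 ≤ M) (hc : c ≤ j) : ∀ (N : ℕ) (κ : ℕ → ℕ),
    ∑ u ∈ range p, κ u ≤ N → j < c + low M p κ →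
    ∃ κ' : ℕ → ℕ, (∀ u, κ' u ≤ κ u) ∧ j < c + low M p κ' ∧ c + low M p κ' ≤ j + M ^ p := by
  intro N
  induction N with
  | zero =>
    intro κ hN hj
    exfalso
    have h0 : ∀ u ∈ range p, κ u = 0 := by
      intro u hu
      have := Finset.single_le_sum (f := κ) (fun i _ => Nat.zero_le _) hu
      omega
    have h1 : low M p κ = 0 := Finset.sum_eq_zero fun u hu => by rw [h0 u hu, zero_mul]
    omega
  | succ N ih =>
    intro κ hN hj
    by_cases h : c + low M p κ ≤ j + M ^ p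
    · exact ⟨κ, fun u => le_rfl, hj, h⟩
    · obtain ⟨i, hi, hi0⟩ : ∃ i ∈ range p, κ i ≠ 0 := by
        by_contra hcon
        push Not at hcon
        have h1 : low M p κ = 0 := Finset.sum_eq_zero fun u hu => by rw [hcon u hu, zero_mul]
        omega
      let κ1 : ℕ → ℕ := fun u => if u = i then κ u - 1 else κ u
      have hκ : ∀ u, κ u = κ1 u + (if u = i then 1 else 0) := by
        intro u
        simp only [κ1]
        by_cases hu : u = i
        · rw [if_pos hu, if_pos hu]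
          subst hu
          omega
        · rw [if_neg hu, if_neg hu]; rfl
      have hlow : low M p κ = low M p κ1 + M ^ i := by
        have h1 : low M p κ = low M p (fun u => κ1 u + (if u = i then 1 else 0)) := by
          congr 1
          funext u; exact hκ u
        rw [h1, low_add, low_single (Finset.mem_range.1 hi), one_mul]
      have hsum : ∑ u ∈ range p, κ u = ∑ u ∈ range p, κ1 u + 1 := by
        have h1 : ∑ u ∈ range p, κ u = ∑ u ∈ range p, (κ1 u + (if u = i then 1 else 0)) :=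
          Finset.sum_congr rfl fun u _ => hκ u
        rw [h1, Finset.sum_add_distrib, Finset.sum_ite_eq', if_pos hi]
      have hpow : M ^ i ≤ M ^ p := Nat.pow_le_pow_right hM (by
        have := Finset.mem_range.1 hi; omega)
      obtain ⟨κ', h1, h2, h3⟩ := ih κ1 (by omega) (by omega)
      exact ⟨κ', fun u => (h1 u).trans (by rw [hκ u]; omega), h2, h3⟩

section params

variable (T p : ℕ)

/-- base -/
def MM : ℕ := 2 * T + 2

/-- center -/
def jj : ℕ := T * (MM T) ^ p

/-- top step -/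
def BB : ℕ := (T + 1) * (MM T) ^ p

/-- sumset -/
def DS (n : ℕ) : Set ℕ :=
  {d | ∃ (κ : ℕ → ℕ) (k : ℕ), (∀ u, κ u ≤ n) ∧ k ≤ n ∧ d = low (MM T) p κ + k * BB T p}

/-- the largest digit -/
def AA : ℕ := low (MM T) p (fun _ => 1) + BB T p

/-- `c(s,i) + s M^i = j` -/
def cc (s i : ℕ) : ℕ := jj T p - s * (MM T) ^ i

end params

variable {T p : ℕ}

theorem MM_pos : 1 ≤ MM T := by unfold MM; omega

theorem DS_add {n n' d d' : ℕ} (h : d ∈ DS T p n) (h' : d' ∈ DS T p n') :
    d + d' ∈ DS T p (n + n') := by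
  obtain ⟨κ, k, hκ, hk, rfl⟩ := h
  obtain ⟨κ', k', hκ', hk', rfl⟩ := h'
  refine ⟨fun u => κ u + κ' u, k + k', fun u => Nat.add_le_add (hκ u) (hκ' u), by omega, ?_⟩
  rw [low_add]; ring

theorem DS_succ {n d : ℕ} (h : d ∈ DS T p (n + 1)) :
    ∃ d1 ∈ DS T p n, ∃ d2 ∈ DS T p 1, d = d1 + d2 := by
  obtain ⟨κ, k, hκ, hk, rfl⟩ := h
  refine ⟨_, ⟨fun u => min (κ u) n, min k n, fun u => min_le_right _ _, min_le_right _ _, rfl⟩, _,
    ⟨fun u => κ u - min (κ u) n, k - min k n, fun u => ?_, by omega, rfl⟩, ?_⟩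
  · have := hκ u
    dsimp only
    omega
  · have h1 : low (MM T) p κ = low (MM T) p (fun u => min (κ u) n + (κ u - min (κ u) n)) := by
      congr 1
      funext u; omega
    have h2 : k = min k n + (k - min k n) := by omega
    rw [low_add] at h1
    rw [h1]
    conv_lhs => rw [h2]
    ring

theorem zero_mem_DS (n : ℕ) : 0 ∈ DS T p n :=
  ⟨fun _ => 0, 0, fun _ => Nat.zero_le _, by omega, by simp [low]⟩

theorem DS_zero {d : ℕ} : d ∈ DS T p 0 ↔ d = 0 := by
  constructor
  · rintro ⟨κ, k, hκ, hk, rfl⟩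
    have h1 : low (MM T) p κ = 0 := Finset.sum_eq_zero fun u _ => by
      have := hκ u
      rw [show κ u = 0 by omega, zero_mul]
    rw [h1, show k = 0 by omega]; simp
  · rintro rfl; exact zero_mem_DS 0

theorem DS_le {n d : ℕ} (h : d ∈ DS T p n) : d ≤ n * AA T p := by
  obtain ⟨κ, k, hκ, hk, rfl⟩ := h
  have h1 : low (MM T) p κ ≤ n * low (MM T) p (fun _ => 1) := by
    unfold low
    rw [Finset.mul_sum]
    apply Finset.sum_le_sum
    intro u _
    rw [one_mul]
    exact Nat.mul_le_mul_right _ (hκ u)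
  have h2 : k * BB T p ≤ n * BB T p := Nat.mul_le_mul_right _ hk
  unfold AA
  calc _ ≤ n * low (MM T) p (fun _ => 1) + n * BB T p := Nat.add_le_add h1 h2
    _ = _ := by ring

theorem AA_mem : AA T p ∈ DS T p 1 :=
  ⟨fun _ => 1, 1, fun _ => le_rfl, le_rfl, by unfold AA; ring⟩

theorem pow_mem_DS {n i s : ℕ} (hi : i < p) (hs : s ≤ n) : s * (MM T) ^ i ∈ DS T p n := by
  refine ⟨fun u => if u = i then s else 0, 0, fun u => ?_, by omega, ?_⟩
  · dsimp only; split_ifs <;> omega
  · rw [low_single hi, zero_mul, add_zero]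

theorem BB_mem {n k : ℕ} (hk : k ≤ n) : k * BB T p ∈ DS T p n :=
  ⟨fun _ => 0, k, fun _ => Nat.zero_le _, hk, by simp [low]⟩

theorem cc_add {s i : ℕ} (hs : s < T) (hi : i < p) : cc T p s i + s * (MM T) ^ i = jj T p := by
  unfold cc jj
  apply Nat.sub_add_cancel
  exact Nat.mul_le_mul (by omega) (Nat.pow_le_pow_right MM_pos (by omega))

/-- `c(s,i)` is large -/
theorem cc_ge {s i : ℕ} (hs : s < T) (hi : i < p) : s + 1 ≤ cc T p s i := by
  have h1 := cc_add (T := T) (p := p) hs hi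
  have h2 : s * (MM T) ^ i ≤ s * (MM T) ^ p :=
    Nat.mul_le_mul_left _ (Nat.pow_le_pow_right MM_pos (by omega))
  have h3 : jj T p = (T - s) * (MM T) ^ p + s * (MM T) ^ p := by
    unfold jj
    rw [← add_mul, Nat.sub_add_cancel (by omega)]
  have h4 : 1 * (MM T) ^ p ≤ (T - s) * (MM T) ^ p := Nat.mul_le_mul_right _ (by omega)
  have h5 : (MM T) ^ 1 ≤ (MM T) ^ p := Nat.pow_le_pow_right MM_pos (by omega)
  rw [pow_one] at h5
  have h6 : MM T = 2 * T + 2 := rfl
  omega

theorem AA_gt (hp : 1 ≤ p) : jj T p + (MM T) ^ p < AA T p := by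
  have h1 : 1 ≤ low (MM T) p (fun _ => 1) := by
    obtain ⟨q, rfl⟩ : ∃ q, p = q + 1 := ⟨p - 1, by omega⟩
    rw [low_succ]; omega
  have h2 : BB T p = jj T p + (MM T) ^ p := by unfold BB jj; ring
  unfold AA
  omega

/-- (F1) no collisions early -/
theorem F1 {n s i i' d d' : ℕ} (hs : s < T) (hn : n < s) (hi : i < p) (hi' : i' < p)
    (hd : d ∈ DS T p n) (hd' : d' ∈ DS T p n) (h : cc T p s i + d = cc T p s i' + d') : i = i' := by
  by_contra hne
  have h1 := cc_add (T := T) (p := p) hs hi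
  have h2 := cc_add (T := T) (p := p) hs hi'
  obtain ⟨κ, k, hκ, hk, rfl⟩ := hd
  obtain ⟨κ', k', hκ', hk', rfl⟩ := hd'
  have h3 : (low (MM T) p κ + k * BB T p) + s * (MM T) ^ i' =
      (low (MM T) p κ' + k' * BB T p) + s * (MM T) ^ i := by omega
  rw [← low_single (M := MM T) (s := s) hi, ← low_single (M := MM T) (s := s) hi'] at h3
  have hM : MM T = 2 * T + 2 := rfl
  have h4 : (MM T) ^ p * (k * (T + 1)) + low (MM T) p (fun u => κ u + if u = i' then s else 0) =
      (MM T) ^ p * (k' * (T + 1)) + low (MM T) p (fun u => κ' u + if u = i then s else 0) := by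
    rw [low_add, low_add]
    have e1 : (MM T) ^ p * (k * (T + 1)) = k * BB T p := by unfold BB; ring
    have e2 : (MM T) ^ p * (k' * (T + 1)) = k' * BB T p := by unfold BB; ring
    omega
  have hb : ∀ u < p, (κ u + if u = i' then s else 0) < MM T := by
    intro u _
    have := hκ u
    split_ifs <;> omega
  have hb' : ∀ u < p, (κ' u + if u = i then s else 0) < MM T := by
    intro u _
    have := hκ' u
    split_ifs <;> omega
  obtain ⟨-, h5⟩ := mod_unique (low_lt MM_pos hb) (low_lt MM_pos hb') h4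
  have h6 := low_inj hb hb' h5 i' hi'
  simp only [if_true] at h6
  rw [if_neg (fun h => hne h.symm)] at h6
  have := hκ' i'
  omega

/-- digit zero -/
theorem DS_mod (hp : 1 ≤ p) {n d : ℕ} (h : d ∈ DS T p n) : ∃ r q, r ≤ n ∧ d = MM T * q + r := by
  obtain ⟨κ, k, hκ, hk, rfl⟩ := h
  obtain ⟨q, rfl⟩ : ∃ q, p = q + 1 := ⟨p - 1, by omega⟩
  refine ⟨κ 0, low (MM T) q (fun u => κ (u + 1)) + k * ((T + 1) * (MM T) ^ q), hκ 0, ?_⟩
  rw [low_succ]
  unfold BB
  rw [pow_succ]; ring

/-- (F2) everything in the channel is covered late -/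
theorem F2 {n s i d : ℕ} (hs : s < T) (hn : s + 1 ≤ n) (hi : i < p) (hd : d ∈ DS T p n) :
    ∃ w, w < AA T p ∧ (¬ ∃ δ' ∈ DS T p s, w + δ' = jj T p) ∧ ∃ δ ∈ DS T p n,
      cc T p s i + d = w + δ := by
  have hp : 1 ≤ p := by omega
  have hA := AA_gt (T := T) hp
  have hc := cc_add (T := T) (p := p) hs hi
  have hcs := cc_ge (T := T) (p := p) hs hi
  obtain ⟨κ, k, hκ, hk, rfl⟩ := hd
  by_cases h1 : jj T p < cc T p s i + low (MM T) p κ
  · obtain ⟨κ', h2, h3, h4⟩ := path (M := MM T) (p := p) MM_pos (by omega) _ κ le_rfl h1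
    refine ⟨cc T p s i + low (MM T) p κ', by omega, ?_, low (MM T) p (fun u => κ u - κ' u) +
      k * BB T p, ⟨fun u => κ u - κ' u, k, fun u => ?_, hk, rfl⟩, ?_⟩
    · rintro ⟨δ', -, h5⟩; omega
    · have := hκ u; dsimp only; omega
    · have h5 : low (MM T) p κ = low (MM T) p κ' + low (MM T) p (fun u => κ u - κ' u) := by
        rw [← low_add]
        congr 1
        funext u
        have := h2 u
        omega
      rw [h5]; ring
  · by_cases h2 : ∃ δ' ∈ DS T p s, cc T p s i + low (MM T) p κ + δ' = jj T p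
    · obtain ⟨δ', hδ', h3⟩ := h2
      refine ⟨cc T p s i + low (MM T) p κ - (s + 1), by omega, ?_, (s + 1) * (MM T) ^ 0 + k * BB T p,
        ?_, ?_⟩
      · rintro ⟨δ'', hδ'', h4⟩
        have h5 : δ'' = δ' + (s + 1) := by omega
        obtain ⟨r', q', hr', e'⟩ := DS_mod hp hδ'
        obtain ⟨r'', q'', hr'', e''⟩ := DS_mod hp hδ''
        have hM : MM T = 2 * T + 2 := rfl
        have h6 : MM T * q'' + r'' = MM T * q' + (r' + (s + 1)) := by omega
        have := mod_unique (by omega) (by omega) h6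
        omega
      · refine ⟨fun u => if u = 0 then s + 1 else 0, k, fun u => ?_, hk, ?_⟩
        · dsimp only; split_ifs <;> omega
        · rw [low_single (by omega)]
      · rw [pow_zero, mul_one]; omega
    · refine ⟨cc T p s i + low (MM T) p κ, by omega, h2, k * BB T p, BB_mem hk, by ring⟩

/-- positions on the channel `s + 1` -/
def PP (T p : ℕ) : Set ℕ :=
  {x | (∃ a ∈ DS T p 1, x = (T + 1) * a) ∨
    ∃ s w, s + 1 < T ∧ w < AA T p ∧ (¬ ∃ δ' ∈ DS T p s, w + δ' = jj T p) ∧ x = (T + 1) * w + (s + 1)}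

/-- covered positions -/
def Cov (T p n : ℕ) : Set ℕ := {α | ∃ d ∈ DS T p n, ∃ x ∈ PP T p, α = (T + 1) * d + x}

theorem PP_le {x : ℕ} (h : x ∈ PP T p) : x ≤ (T + 1) * AA T p := by
  rcases h with ⟨a, ha, rfl⟩ | ⟨s, w, hs, hw, -, rfl⟩
  · have := DS_le ha
    exact Nat.mul_le_mul_left _ (by omega)
  · calc (T + 1) * w + (s + 1) ≤ (T + 1) * w + (T + 1) := by omega
      _ = (T + 1) * (w + 1) := by ring
      _ ≤ _ := Nat.mul_le_mul_left _ hw

/-- covered positions in the channel `s + 1` -/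
theorem Cov_channel {n a s : ℕ} (hs : s < T) :
    (T + 1) * a + (s + 1) ∈ Cov T p n ↔ s + 1 < T ∧ ∃ w, w < AA T p ∧
      (¬ ∃ δ' ∈ DS T p s, w + δ' = jj T p) ∧ ∃ δ ∈ DS T p n, a = w + δ := by
  constructor
  · rintro ⟨d, hd, x, hx, h⟩
    rcases hx with ⟨a', ha', rfl⟩ | ⟨s', w, hs', hw, hw', rfl⟩
    · rw [← mul_add] at h
      have := mod_unique (a := a) (a' := d + a') (c' := 0) (by omega) (by omega) h
      omega
    · rw [← add_assoc ((T + 1) * d), ← mul_add] at h
      obtain ⟨h1, h2⟩ := mod_unique (by omega) (by omega) h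
      obtain rfl : s = s' := by omega
      exact ⟨hs', w, hw, hw', d, hd, by omega⟩
  · rintro ⟨hs', w, hw, hw', δ, hδ, rfl⟩
    exact ⟨δ, hδ, _, Or.inr ⟨s, w, hs', hw, hw', rfl⟩, by ring⟩

end Pool.Agent.H408R3.PDF
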