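import Mathlib
import Pool.Agent.H408R3.AssDepth

set_option autoImplicit false

namespace Pool.Agent.H408R3

open RingTheory.Sequence Submodule MvPolynomial
open Pool.Agent.Helper698.Dstab

universe u

variable {n : ℕ} {K : Type u} [Field K]

/-- kill the variables in `U` -/
noncomputable def killU (U : Finset (Fin n)) : MvPolynomial (Fin n) K →ₐ[K] MvPolynomial (Fin n) K :=
  by classical exact aeval (fun i => if i ∈ U then 0 else X i)

theorem killU_X_mem {U : Finset (Fin n)} {i : Fin n} (h : i ∈ U) :
    killU (K := K) U (X i) = 0 := by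
  classical
  simp [killU, h]

theorem killU_X_notMem {U : Finset (Fin n)} {i : Fin n} (h : i ∉ U) :
    killU (K := K) U (X i) = X i := by
  classical
  simp [killU, h]

/-- the prime ideal generated by the variables in `U` -/
noncomputable def pu (K : Type u) [Field K] (U : Finset (Fin n)) : Ideal (MvPolynomial (Fin n) K) :=
  RingHom.ker (killU (K := K) U).toRingHom

instance pu_prime (U : Finset (Fin n)) : (pu K U).IsPrime := RingHom.ker_isPrime _

theorem mem_pu {U : Finset (Fin n)} {f : MvPolynomial (Fin n) K} :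
    f ∈ pu K U ↔ killU U f = 0 := Iff.rfl

theorem sub_killU_mem {U : Finset (Fin n)} {J : Ideal (MvPolynomial (Fin n) K)}
    (h : ∀ i ∈ U, X i ∈ J) (f : MvPolynomial (Fin n) K) : f - killU U f ∈ J := by
  induction f using MvPolynomial.induction_on with
  | C r =>
    have : killU U (C r : MvPolynomial (Fin n) K) = C r := by
      rw [← algebraMap_eq, AlgHom.commutes]
    rw [this, sub_self]; exact J.zero_mem
  | add p q hp hq =>
    have : p + q - killU U (p + q) = (p - killU U p) + (q - killU U q) := by rw [map_add]; ring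
    rw [this]; exact J.add_mem hp hq
  | mul_X p i hp =>
    by_cases hi : i ∈ U
    · rw [map_mul, killU_X_mem hi, mul_zero, sub_zero]
      exact J.mul_mem_left _ (h i hi)
    · have : p * X i - killU U (p * X i) = (p - killU U p) * X i := by
        rw [map_mul, killU_X_notMem hi]; ring
      rw [this]; exact J.mul_mem_right _ hp

theorem pu_le {U : Finset (Fin n)} {J : Ideal (MvPolynomial (Fin n) K)}
    (h : ∀ i ∈ U, X i ∈ J) : pu K U ≤ J := by
  intro f hf
  have := sub_killU_mem h f
  rwa [mem_pu.1 hf, sub_zero] at this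

theorem X_mem_pu {U : Finset (Fin n)} {i : Fin n} : (X i : MvPolynomial (Fin n) K) ∈ pu K U ↔ i ∈ U := by
  rw [mem_pu]
  constructor
  · intro h
    by_contra hi
    rw [killU_X_notMem hi] at h
    exact X_ne_zero i h
  · exact killU_X_mem

theorem mm_eq_pu : mm K n = pu K (Finset.univ : Finset (Fin n)) := by
  apply le_antisymm
  · rw [mm, Ideal.span_le]
    rintro _ ⟨i, rfl⟩
    exact X_mem_pu.2 (Finset.mem_univ i)
  · apply pu_le
    intro i _
    exact Ideal.subset_span ⟨i, rfl⟩

instance mm_prime : (mm K n).IsPrime := by rw [mm_eq_pu]; infer_instance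

theorem mem_mm_iff {f : MvPolynomial (Fin n) K} : f ∈ mm K n ↔ constantCoeff f = 0 := by
  constructor
  · intro h
    have h1 : mm K n ≤ RingHom.ker (constantCoeff : MvPolynomial (Fin n) K →+* K) := by
      rw [mm, Ideal.span_le]
      rintro _ ⟨i, rfl⟩
      simp [RingHom.mem_ker]
    exact h1 h
  · intro h
    have h1 : ∀ g : MvPolynomial (Fin n) K, g - C (constantCoeff g) ∈ mm K n := by
      intro g
      induction g using MvPolynomial.induction_on with
      | C r => simp
      | add p q hp hq =>
        have : p + q - C (constantCoeff (p + q)) =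
          (p - C (constantCoeff p)) + (q - C (constantCoeff q)) := by
          rw [map_add, C_add]; ring
        rw [this]; exact Ideal.add_mem _ hp hq
      | mul_X p i hp =>
        rw [map_mul, constantCoeff_X, mul_zero, C_0, sub_zero]
        exact Ideal.mul_mem_left _ _ (Ideal.subset_span ⟨i, rfl⟩)
    have := h1 f
    rwa [h, C_0, sub_zero] at this

theorem pu_chain (U : Finset (Fin n)) : ∃ s : LTSeries (PrimeSpectrum (MvPolynomial (Fin n) K)),
    s.length = U.card ∧ s.last = ⟨pu K U, inferInstance⟩ := by
  classical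
  induction U using Finset.induction_on with
  | empty => exact ⟨RelSeries.singleton _ _, rfl, rfl⟩
  | insert i U hi ih =>
    obtain ⟨s, hs1, hs2⟩ := ih
    refine ⟨s.snoc ⟨pu K (insert i U), inferInstance⟩ ?_, ?_, ?_⟩
    · rw [hs2]
      have h0 : pu K U < pu K (insert i U) := by
        refine lt_of_le_of_ne ?_ ?_
        · apply pu_le
          intro j hj
          exact X_mem_pu.2 (Finset.mem_insert_of_mem hj)
        · intro h1
          have h2 : (X i : MvPolynomial (Fin n) K) ∈ pu K U := by
            rw [h1]; exact X_mem_pu.2 (Finset.mem_insert_self _ _)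
          exact hi (X_mem_pu.1 h2)
      exact h0
    · rw [RelSeries.snoc_length, hs1, Finset.card_insert_of_notMem hi]
    · exact RelSeries.last_snoc _ _ _

theorem series_length_le (s : LTSeries (PrimeSpectrum (MvPolynomial (Fin n) K))) : s.length ≤ n := by
  have h1 := Order.LTSeries.length_le_krullDim s
  have h2 : ringKrullDim (MvPolynomial (Fin n) K) = n := by
    rw [MvPolynomial.ringKrullDim_of_isNoetherianRing, ringKrullDim_eq_zero_of_field, zero_add,
      Nat.card_eq_fintype_card, Fintype.card_fin]
  rw [ringKrullDim] at h2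
  rw [h2] at h1
  exact_mod_cast h1

/-- combine a chain below an associated prime with the chain given by a regular sequence -/
theorem len_add_le (J : Ideal (MvPolynomial (Fin n) K)) (rs : List (MvPolynomial (Fin n) K))
    (hreg : IsWeaklyRegular (MvPolynomial (Fin n) K ⧸ J) rs) (hmem : ∀ r ∈ rs, r ∈ mm K n)
    (P : PrimeSpectrum (MvPolynomial (Fin n) K))
    (hP : P.asIdeal ∈ associatedPrimes (MvPolynomial (Fin n) K) (MvPolynomial (Fin n) K ⧸ J))
    (hPm : P.asIdeal ≤ mm K n) (s0 : LTSeries (PrimeSpectrum (MvPolynomial (Fin n) K)))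
    (hs0 : s0.last ≤ P) : s0.length + rs.length ≤ n := by
  obtain ⟨s, hs1, hs2⟩ := ass_chain (mm K n) rs _ hreg hmem P hP hPm
  rcases lt_or_eq_of_le hs0 with h | h
  · have h1 := series_length_le (s0.append s (by rw [hs2]; exact h))
    rw [RelSeries.append_length] at h1
    omega
  · have h1 := series_length_le (s0.smash s (by rw [hs2]; exact h))
    have h2 : (s0.smash s (by rw [hs2]; exact h)).length = s0.length + s.length := rfl
    omega

/-- an element `f ∉ J`, killed modulo `J` by the variables in `U` and with `(J : f) ⊆ 𝔪`, bounds the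
length of the regular sequences in `𝔪` by `n - |U|`. -/
theorem len_le_of_killed (J : Ideal (MvPolynomial (Fin n) K)) (f : MvPolynomial (Fin n) K)
    (hcol : ∀ h, h * f ∈ J → h ∈ mm K n) (U : Finset (Fin n)) (hU : ∀ i ∈ U, X i * f ∈ J)
    (rs : List (MvPolynomial (Fin n) K))
    (hreg : IsWeaklyRegular (MvPolynomial (Fin n) K ⧸ J) rs) (hmem : ∀ r ∈ rs, r ∈ mm K n) :
    U.card + rs.length ≤ n := by
  let S := MvPolynomial (Fin n) K
  let fb : S ⧸ J := Submodule.Quotient.mk f
  have hc : ∀ h : S, h ∈ (⊥ : Submodule S (S ⧸ J)).colon {fb} ↔ h * f ∈ J := by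
    intro h
    rw [mem_colon_singleton, Submodule.mem_bot]
    show h • (Submodule.Quotient.mk f : S ⧸ J) = 0 ↔ _
    rw [← Submodule.Quotient.mk_smul, Submodule.Quotient.mk_eq_zero]
    rfl
  have hle : (⊥ : Submodule S (S ⧸ J)).colon {fb} ≤ mm K n := by
    intro h hh
    exact hcol h ((hc h).1 hh)
  obtain ⟨P', hP'min, hP'le⟩ := Ideal.exists_minimalPrimes_le hle
  have hass : P' ∈ associatedPrimes S (S ⧸ J) :=
    isAssociatedPrime_iff.2 ⟨hP'min.1.1, exists_eq_colon_of_mem_minimalPrimes hP'min⟩
  obtain ⟨s0, hs1, hs2⟩ := pu_chain (K := K) U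
  have h1 := len_add_le J rs hreg hmem ⟨P', hP'min.1.1⟩ hass hP'le s0 (by
    rw [hs2]
    show pu K U ≤ P'
    apply pu_le
    intro i hi
    exact hP'min.1.2 ((hc _).2 (hU i hi)))
  omega

end Pool.Agent.H408R3
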