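import Mathlib
import Pool.Agent.H408R3.VarPrimes

/-!
Lower bounds for the number of variables.
-/

set_option autoImplicit false

namespace Pool.Agent.H408R3

open RingTheory.Sequence Submodule MvPolynomial
open Pool.Agent.Helper698.Dstab
open Pool.Agent.Helper698.Symb

universe u

variable {n : ℕ} {K : Type u} [Field K]

/-- a module killed by an element outside `𝔪` has no `Ext` from the residue field -/
theorem EV_of_killed {A : Type u} [AddCommGroup A] [Module (MvPolynomial (Fin n) K) A]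
    (h : MvPolynomial (Fin n) K) (hh : h ∉ mm K n) (hA : ∀ a : A, h • a = 0) (t : ℕ) :
    EV (kk K n) A t := by
  have hc : constantCoeff h ≠ 0 := fun h0 => hh (mem_mm_iff.2 h0)
  let y : MvPolynomial (Fin n) K := 1 - C (constantCoeff h)⁻¹ * h
  have hy : y ∈ mm K n := by
    rw [mem_mm_iff]
    simp [y, hc]
  have hya : ∀ a : A, y • a = a := by
    intro a
    show (1 - C (constantCoeff h)⁻¹ * h) • a = a
    rw [sub_smul, one_smul, mul_smul, hA, smul_zero, sub_zero]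
  have hbij : ∀ a : A, LinearMap.lsmul (MvPolynomial (Fin n) K) A y a = a := hya
  refine EV.mono ?_ (Nat.le_succ t)
  refine EV_regular (C := PUnit.{u + 1}) y ((mem_ann_kk y).2 hy) 0 ?_ ?_ ?_
    (EV_of_subsingleton t)
  · intro a b hab
    rw [hbij, hbij] at hab; exact hab
  · intro x; exact ⟨0, Subsingleton.elim _ _⟩
  · intro x
    exact ⟨fun _ => ⟨x, hbij x⟩, fun _ => rfl⟩

theorem EV_bot : EV (kk K n) (MvPolynomial (Fin n) K ⧸ (⊥ : Ideal (MvPolynomial (Fin n) K))) n := by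
  have h := EV_US (K := K) (r := n) n ∅ (by simp)
  have h1 : MI K (US (∅ : Finset (Fin n))) = ⊥ := by
    rw [MI, Ideal.span_eq_bot]
    rintro _ ⟨α, ⟨j, hj, _⟩, rfl⟩
    simp at hj
  rwa [h1] at h

theorem EV_principal (d : MvPolynomial (Fin n) K) (hd : d ≠ 0) :
    EV (kk K n) (MvPolynomial (Fin n) K ⧸ Ideal.span {d}) (n - 1) := by
  rcases Nat.eq_zero_or_pos n with h0 | h0
  · intro i hi
    omega
  have hreg : ∀ a, d * a ∈ (⊥ : Ideal (MvPolynomial (Fin n) K)) → a ∈ (⊥ : Ideal _) := by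
    intro a ha
    rw [Ideal.mem_bot] at ha ⊢
    exact (mul_eq_zero.1 ha).resolve_left hd
  obtain ⟨h1, h2, h3⟩ := quot_exact (⊥ : Ideal (MvPolynomial (Fin n) K)) d hreg
  have hEV := EV_bot (K := K) (n := n)
  have h4 := EV_right (t := n - 1) _ _ h1 h2 h3 (hEV.mono (by omega)) (hEV.mono (by omega))
  rwa [bot_sup_eq] at h4

/-- if `Q = (d) Q'` with `Q' ⊄ 𝔪`, then the depth of `S / Q^t` is at least `n - 1` -/
theorem EV_of_not_le (Q' : Ideal (MvPolynomial (Fin n) K)) (d : MvPolynomial (Fin n) K)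
    (hd : d ≠ 0) (hQ' : ¬ Q' ≤ mm K n) (t : ℕ) :
    EV (kk K n) (MvPolynomial (Fin n) K ⧸ (Ideal.span {d} * Q') ^ t) (n - 1) := by
  obtain ⟨h, hh, hhm⟩ : ∃ h ∈ Q', h ∉ mm K n := by
    by_contra hcon
    push Not at hcon
    exact hQ' hcon
  have hle : (Ideal.span {d} * Q') ^ t ≤ Ideal.span {d ^ t} := by
    rw [mul_pow, Ideal.span_singleton_pow]
    exact Ideal.mul_le_left
  refine EV_quot _ (Ideal.span {d ^ t}) hle ?_ (EV_principal _ (pow_ne_zero _ hd))
  refine EV_of_killed (h ^ t) (fun h' => hhm ((mm_prime (K := K) (n := n)).mem_of_pow_mem _ h')) ?_ _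
  rintro ⟨_, a, ha, rfl⟩
  apply Subtype.ext
  show (Submodule.mkQ _ (h ^ t • a)) = 0
  rw [Submodule.mkQ_apply, Submodule.Quotient.mk_eq_zero, smul_eq_mul, mul_pow,
    Ideal.span_singleton_pow, mul_comm (Ideal.span {d ^ t})]
  exact Ideal.mul_mem_mul (Ideal.pow_mem_pow hh t) ha

/-- factoring out the common divisor -/
theorem exists_factor (Q : Ideal (MvPolynomial (Fin n) K)) (hQ : Q ≠ ⊥) :
    ∃ (d : MvPolynomial (Fin n) K) (Q' : Ideal (MvPolynomial (Fin n) K)), d ≠ 0 ∧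
      Q = Ideal.span {d} * Q' ∧ ∀ p, Prime p → ¬ Q' ≤ Ideal.span {p} := by
  let A : Set (Ideal (MvPolynomial (Fin n) K)) := {Q' | ∃ d, d ≠ 0 ∧ Q = Ideal.span {d} * Q'}
  have hA : A.Nonempty := ⟨Q, 1, one_ne_zero, by rw [Ideal.span_singleton_one, Ideal.top_mul]⟩
  obtain ⟨Q', ⟨d, hd, hQ'⟩, hmax⟩ := WellFounded.has_min
    (isNoetherian_iff.1 (inferInstance : IsNoetherian (MvPolynomial (Fin n) K)
      (MvPolynomial (Fin n) K))) A hA
  refine ⟨d, Q', hd, hQ', fun p hp hle => ?_⟩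
  have hQ'0 : Q' ≠ ⊥ := by
    rintro rfl
    rw [Ideal.mul_bot] at hQ'
    exact hQ hQ'
  obtain ⟨Q'', hQ''⟩ : ∃ Q'' : Ideal (MvPolynomial (Fin n) K), Q' = Ideal.span {p} * Q'' := by
    refine ⟨Submodule.comap (LinearMap.lsmul _ _ p) Q', ?_⟩
    apply le_antisymm
    · intro x hx
      obtain ⟨y, rfl⟩ := Ideal.mem_span_singleton.1 (hle hx)
      exact Ideal.mul_mem_mul (Ideal.mem_span_singleton_self p) hx
    · rw [Ideal.mul_le]
      intro r hr y hy
      obtain ⟨c, rfl⟩ := Ideal.mem_span_singleton.1 hr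
      have : p * c * y = c * (p * y) := by ring
      rw [this]
      exact Ideal.mul_mem_left _ _ hy
  refine hmax Q'' ⟨d * p, mul_ne_zero hd hp.ne_zero, ?_⟩ ?_
  · rw [hQ', hQ'', ← mul_assoc, Ideal.span_singleton_mul_span_singleton]
  · show Q' < Q''
    refine lt_of_le_of_ne (by rw [hQ'']; exact Ideal.mul_le_right) ?_
    intro h
    rw [← h] at hQ''
    obtain ⟨r, hr1, hr2⟩ := Submodule.exists_sub_one_mem_and_smul_eq_zero_of_fg_of_le_smul
      (Ideal.span {p}) Q' (IsNoetherian.noetherian Q') (by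
        rw [smul_eq_mul]; exact hQ''.le)
    obtain ⟨x, hx, hx0⟩ := Submodule.exists_mem_ne_zero_of_ne_bot hQ'0
    have hr0 : r = 0 := (mul_eq_zero.1 (hr2 x hx)).resolve_right hx0
    rw [hr0, zero_sub, Ideal.neg_mem_iff, Ideal.mem_span_singleton] at hr1
    exact hp.not_isUnit (isUnit_of_dvd_one hr1)

theorem minimal_assoc (J : Ideal (MvPolynomial (Fin n) K)) {P : Ideal (MvPolynomial (Fin n) K)}
    (hP : P ∈ J.minimalPrimes) :
    P ∈ associatedPrimes (MvPolynomial (Fin n) K) (MvPolynomial (Fin n) K ⧸ J) := by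
  let S := MvPolynomial (Fin n) K
  have h1 : (⊥ : Submodule S (S ⧸ J)).colon {(Submodule.Quotient.mk (1 : S) : S ⧸ J)} = J := by
    ext a
    rw [mem_colon_singleton, Submodule.mem_bot, ← Submodule.Quotient.mk_smul,
      Submodule.Quotient.mk_eq_zero, smul_eq_mul, mul_one]
  refine isAssociatedPrime_iff.2 ⟨hP.1.1, ?_⟩
  refine exists_eq_colon_of_mem_minimalPrimes (x := (Submodule.Quotient.mk (1 : S) : S ⧸ J))
    (N := (⊥ : Submodule S (S ⧸ J))) ?_
  rw [h1]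
  exact hP

/-- the depth is at most `n - 1` -/
theorem len_add_one_le (J : Ideal (MvPolynomial (Fin n) K)) (hJ0 : J ≠ ⊥) (hJ : J ≤ mm K n)
    (rs : List (MvPolynomial (Fin n) K))
    (hreg : IsWeaklyRegular (MvPolynomial (Fin n) K ⧸ J) rs) (hmem : ∀ r ∈ rs, r ∈ mm K n) :
    1 + rs.length ≤ n := by
  obtain ⟨P, hP, hPm⟩ := Ideal.exists_minimalPrimes_le hJ
  have hPp : P.IsPrime := hP.1.1
  have hlt : (⊥ : Ideal (MvPolynomial (Fin n) K)) < P := by
    rw [bot_lt_iff_ne_bot]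
    rintro rfl
    exact hJ0 (le_bot_iff.1 hP.1.2)
  let P0 : PrimeSpectrum (MvPolynomial (Fin n) K) := ⟨⊥, Ideal.isPrime_bot⟩
  let s0 : LTSeries (PrimeSpectrum (MvPolynomial (Fin n) K)) :=
    (RelSeries.singleton _ P0).snoc ⟨P, hPp⟩ hlt
  have h1 := len_add_le J rs hreg hmem ⟨P, hPp⟩ (minimal_assoc J hP) hPm s0
    (le_of_eq (RelSeries.last_snoc _ _ _))
  have h2 : s0.length = 1 := rfl
  omega

/-- If `Q = (d) Q'` with `Q' ⊆ 𝔪` not contained in a principal prime, the depth of `S / Q^t` is at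
most `n - 2`. -/
theorem len_add_two_le (Q' : Ideal (MvPolynomial (Fin n) K)) (d : MvPolynomial (Fin n) K)
    (hd : d ≠ 0) (hQ0 : Q' ≠ ⊥) (hQ' : Q' ≤ mm K n) (hp : ∀ p, Prime p → ¬ Q' ≤ Ideal.span {p})
    {t : ℕ} (ht : 1 ≤ t) (rs : List (MvPolynomial (Fin n) K))
    (hreg : IsWeaklyRegular (MvPolynomial (Fin n) K ⧸ (Ideal.span {d} * Q') ^ t) rs)
    (hmem : ∀ r ∈ rs, r ∈ mm K n) : 2 + rs.length ≤ n := by
  let S := MvPolynomial (Fin n) K
  obtain ⟨P, hP, hPm⟩ := Ideal.exists_minimalPrimes_le ((Ideal.pow_le_self (by omega : t ≠ 0)).trans hQ')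
  have hPp : P.IsPrime := hP.1.1
  have hQP : Q' ≤ P := hPp.le_of_pow_le hP.1.2
  have hP0 : P ≠ ⊥ := by
    rintro rfl
    exact hQ0 (le_bot_iff.1 hQP)
  obtain ⟨p, hpP, hpr⟩ := hPp.exists_mem_prime_of_ne_bot hP0
  have hspan : (Ideal.span {p} : Ideal S).IsPrime := (Ideal.span_singleton_prime hpr.ne_zero).2 hpr
  have hlt1 : (⊥ : Ideal S) < Ideal.span {p} := by
    rw [bot_lt_iff_ne_bot, Ne, Ideal.span_singleton_eq_bot]
    exact hpr.ne_zero
  have hlt2 : Ideal.span {p} < P := by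
    refine lt_of_le_of_ne ((Ideal.span_singleton_le_iff_mem _).2 hpP) ?_
    intro h
    exact hp p hpr (h ▸ hQP)
  let P0 : PrimeSpectrum S := ⟨⊥, Ideal.isPrime_bot⟩
  let s1 : LTSeries (PrimeSpectrum S) :=
    (RelSeries.singleton _ P0).snoc ⟨Ideal.span {p}, hspan⟩ hlt1
  have hs1 : s1.last = ⟨Ideal.span {p}, hspan⟩ := RelSeries.last_snoc _ _ _
  let s0 : LTSeries (PrimeSpectrum S) := s1.snoc ⟨P, hPp⟩ (by rw [hs1]; exact hlt2)
  -- `P` is associated to `S / Q^t`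
  have hass : P ∈ associatedPrimes S (S ⧸ (Ideal.span {d} * Q') ^ t) := by
    obtain ⟨-, x, hx⟩ := isAssociatedPrime_iff.1 (minimal_assoc (Q' ^ t) hP)
    obtain ⟨a, rfl⟩ := Submodule.Quotient.mk_surjective _ x
    refine isAssociatedPrime_iff.2 ⟨hPp, Submodule.Quotient.mk (d ^ t * a), ?_⟩
    rw [hx]
    ext c
    rw [mem_colon_singleton, mem_colon_singleton, Submodule.mem_bot, Submodule.mem_bot,
      ← Submodule.Quotient.mk_smul, ← Submodule.Quotient.mk_smul, Submodule.Quotient.mk_eq_zero,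
      Submodule.Quotient.mk_eq_zero, mul_pow, Ideal.span_singleton_pow, smul_eq_mul, smul_eq_mul]
    have e1 : c * (d ^ t * a) = d ^ t * (c * a) := by ring
    rw [e1, Ideal.mem_span_singleton_mul]
    constructor
    · intro h; exact ⟨_, h, rfl⟩
    · rintro ⟨z, hz, hz'⟩
      rwa [mul_left_cancel₀ (pow_ne_zero t hd) hz'] at hz
  have h1 := len_add_le _ rs hreg hmem ⟨P, hPp⟩ hass hPm s0
    (le_of_eq (RelSeries.last_snoc _ _ _))
  have h2 : s0.length = 2 := rfl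
  omega

/-- the depth is at most `n - 1` -/
theorem depthQuot_add_one_le (J : Ideal (MvPolynomial (Fin n) K)) (hJ0 : J ≠ ⊥) (hJ : J ≤ mm K n) :
    depthQuot J + 1 ≤ n := by
  have hn : 1 ≤ n := by
    have := len_add_one_le J hJ0 hJ [] (IsWeaklyRegular.nil _ _) (by simp)
    omega
  have h1 : depthQuot J ≤ ((n - 1 : ℕ) : ℕ∞) := by
    unfold depthQuot
    refine iSup_le fun rs => iSup_le fun hrs => ?_
    have h2 := len_add_one_le J hJ0 hJ rs hrs.2.toIsWeaklyRegular hrs.1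
    exact_mod_cast (by omega : rs.length ≤ n - 1)
  calc depthQuot J + 1 ≤ ((n - 1 : ℕ) : ℕ∞) + 1 := by gcongr
    _ = ((n - 1 + 1 : ℕ) : ℕ∞) := by push_cast; rfl
    _ = n := by rw [Nat.sub_add_cancel hn]

/-- If the depth function of `Q` attains `n - 1` then it is constant. -/
theorem const_of_depth (Q : Ideal (MvPolynomial (Fin n) K)) (hQ0 : Q ≠ ⊥) (hQ : Q ≤ mm K n)
    {t0 : ℕ} (ht0 : 1 ≤ t0) (h0 : depthQuot (Q ^ t0) + 1 = n) {t : ℕ} (ht : 1 ≤ t) :
    depthQuot (Q ^ t) + 1 = n := by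
  obtain ⟨d, Q', hd, rfl, hp⟩ := exists_factor Q hQ0
  have hQ'0 : Q' ≠ ⊥ := by
    rintro rfl
    rw [Ideal.mul_bot] at hQ0
    exact hQ0 rfl
  have hpow : ∀ s, 1 ≤ s → (Ideal.span {d} * Q') ^ s ≤ mm K n := fun s hs =>
    (Ideal.pow_le_self (by omega)).trans hQ
  have hpow0 : ∀ s, (Ideal.span {d} * Q') ^ s ≠ ⊥ := fun s => pow_ne_zero s hQ0
  have hn := depthQuot_add_one_le _ (hpow0 t) (hpow t ht)
  by_cases hQ' : Q' ≤ mm K n
  · exfalso
    have hle : depthQuot ((Ideal.span {d} * Q') ^ t0) + 2 ≤ n := by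
      have hn2 : 2 ≤ n := by
        have := len_add_two_le Q' d hd hQ'0 hQ' hp ht0 [] (IsWeaklyRegular.nil _ _) (by simp)
        omega
      have h1 : depthQuot ((Ideal.span {d} * Q') ^ t0) ≤ ((n - 2 : ℕ) : ℕ∞) := by
        unfold depthQuot
        refine iSup_le fun rs => iSup_le fun hrs => ?_
        have h2 := len_add_two_le Q' d hd hQ'0 hQ' hp ht0 rs hrs.2.toIsWeaklyRegular hrs.1
        exact_mod_cast (by omega : rs.length ≤ n - 2)
      calc depthQuot ((Ideal.span {d} * Q') ^ t0) + 2 ≤ ((n - 2 : ℕ) : ℕ∞) + 2 := by gcongr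
        _ = ((n - 2 + 2 : ℕ) : ℕ∞) := by push_cast; rfl
        _ = n := by rw [Nat.sub_add_cancel hn2]
    rw [← h0] at hle
    generalize depthQuot ((Ideal.span {d} * Q') ^ t0) = x at hle h0
    induction x using ENat.recTopCoe with
    | top => rw [top_add] at h0; exact ENat.top_ne_coe _ h0
    | coe a =>
      have : a + 2 ≤ a + 1 := by exact_mod_cast hle
      omega
  · apply le_antisymm hn
    have h1 := EV_of_not_le Q' d hd hQ' t
    obtain ⟨rs, hlen, hmem, hreg⟩ := exists_regular_of_EV _ (hpow t ht) _ h1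
    have h2 : ((n - 1 : ℕ) : ℕ∞) ≤ depthQuot ((Ideal.span {d} * Q') ^ t) := by
      unfold depthQuot
      refine le_iSup_of_le rs (le_iSup_of_le ⟨hmem, hreg⟩ ?_)
      rw [hlen]
    calc (n : ℕ∞) ≤ ((n - 1 + 1 : ℕ) : ℕ∞) := by exact_mod_cast (by omega : n ≤ n - 1 + 1)
      _ = ((n - 1 : ℕ) : ℕ∞) + 1 := by push_cast; rfl
      _ ≤ _ := by gcongr

end Pool.Agent.H408R3
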