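import Mathlib
import Pool.Agent.H408R3.VarPrimes

/-!
Projective dimension of monomial quotients by filtrations.
-/

set_option autoImplicit false

namespace Pool.Agent.H408R3.PDF

open CategoryTheory Abelian Limits MvPolynomial RingTheory.Sequence
open Pool.Agent.Helper698.Dstab
open Pool.Agent.Helper698.Symb

universe u

section general

variable {R : Type u} [CommRing R]

/-- projective dimension `< t` -/
def PD (M : Type u) [AddCommGroup M] [Module R M] (t : ℕ) : Prop :=
  HasProjectiveDimensionLT (ModuleCat.of R M) t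

variable {A B C : Type u} [AddCommGroup A] [Module R A]
  [AddCommGroup B] [Module R B] [AddCommGroup C] [Module R C]

theorem PD.mono {t t' : ℕ} (h : PD (R := R) A t) (ht : t ≤ t') : PD (R := R) A t' :=
  @hasProjectiveDimensionLT_of_ge _ _ _ _ t t' ht h

theorem PD_mid (f : A →ₗ[R] B) (g : B →ₗ[R] C) (hf : Function.Injective f)
    (hg : Function.Surjective g) (h : Function.Exact f g) {t : ℕ} (hA : PD (R := R) A t)
    (hC : PD (R := R) C t) : PD (R := R) B t :=
  (shortExact_of f g hf hg h).hasProjectiveDimensionLT_X₂ t hA hC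

theorem PD_right (f : A →ₗ[R] B) (g : B →ₗ[R] C) (hf : Function.Injective f)
    (hg : Function.Surjective g) (h : Function.Exact f g) {t : ℕ} (hA : PD (R := R) A t)
    (hB : PD (R := R) B (t + 1)) : PD (R := R) C (t + 1) :=
  (shortExact_of f g hf hg h).hasProjectiveDimensionLT_X₃ t hA hB

theorem PD_left (f : A →ₗ[R] B) (g : B →ₗ[R] C) (hf : Function.Injective f)
    (hg : Function.Surjective g) (h : Function.Exact f g) {t : ℕ} (hB : PD (R := R) B t)
    (hC : PD (R := R) C (t + 1)) : PD (R := R) A t :=
  (shortExact_of f g hf hg h).hasProjectiveDimensionLT_X₁ t hB hC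

theorem PD.equiv (e : A ≃ₗ[R] B) {t : ℕ} (h : PD (R := R) A t) : PD (R := R) B t :=
  @hasProjectiveDimensionLT_of_iso _ _ _ _ _ e.toModuleIso t h

theorem PD_projective [Module.Projective R A] : PD (R := R) A 1 := by
  have h : Projective (ModuleCat.of R A) := (IsProjective.iff_projective A).1 inferInstance
  exact projective_iff_hasProjectiveDimensionLT_one.1 h

theorem projective_of_PD (h : PD (R := R) A 1) : Module.Projective R A :=
  (IsProjective.iff_projective A).2 (projective_iff_hasProjectiveDimensionLT_one.2 h)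

theorem PD_of_subsingleton [Subsingleton A] (t : ℕ) : PD (R := R) A t := by
  have h0 : PD (R := R) A 0 := (ModuleCat.isZero_of_subsingleton _).hasProjectiveDimensionLT_zero
  exact h0.mono (Nat.zero_le t)

/-- the exact sequence for a colon ideal -/
theorem colon_exact (I J : Ideal R) (y : R) (hJ : ∀ a, a ∈ J ↔ y * a ∈ I) :
    Function.Injective (Submodule.mapQ J I (LinearMap.lsmul R R y) (fun a ha => (hJ a).1 ha)) ∧
    Function.Surjective (Submodule.mapQ I (I ⊔ Ideal.span {y}) LinearMap.id le_sup_left) ∧
    Function.Exact (Submodule.mapQ J I (LinearMap.lsmul R R y) (fun a ha => (hJ a).1 ha))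
      (Submodule.mapQ I (I ⊔ Ideal.span {y}) LinearMap.id le_sup_left) := by
  refine ⟨?_, ?_, ?_⟩
  · rw [← LinearMap.ker_eq_bot, LinearMap.ker_eq_bot']
    intro m
    obtain ⟨f, rfl⟩ := Submodule.Quotient.mk_surjective _ m
    intro h0
    have h1 : (Submodule.Quotient.mk (y * f) : R ⧸ I) = 0 := h0
    rw [Submodule.Quotient.mk_eq_zero] at h1
    exact (Submodule.Quotient.mk_eq_zero _).2 ((hJ f).2 h1)
  · intro m
    obtain ⟨f, rfl⟩ := Submodule.Quotient.mk_surjective _ m
    exact ⟨Submodule.Quotient.mk f, rfl⟩
  · intro m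
    obtain ⟨f, rfl⟩ := Submodule.Quotient.mk_surjective _ m
    constructor
    · intro h0
      have h1 : (Submodule.Quotient.mk f : R ⧸ (I ⊔ Ideal.span {y})) = 0 := h0
      rw [Submodule.Quotient.mk_eq_zero] at h1
      obtain ⟨a, ha, b, hb, hab⟩ := Submodule.mem_sup.1 h1
      obtain ⟨c, rfl⟩ := Ideal.mem_span_singleton.1 hb
      refine ⟨Submodule.Quotient.mk c, ?_⟩
      show (Submodule.Quotient.mk (y * c) : R ⧸ I) = Submodule.Quotient.mk f
      rw [eq_comm, Submodule.Quotient.eq, ← hab]
      simpa using ha
    · rintro ⟨m', hm'⟩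
      obtain ⟨f', rfl⟩ := Submodule.Quotient.mk_surjective _ m'
      have h1 : (Submodule.Quotient.mk (y * f') : R ⧸ I) = Submodule.Quotient.mk f := hm'
      rw [← h1]
      show (Submodule.Quotient.mk (y * f') : R ⧸ (I ⊔ Ideal.span {y})) = 0
      rw [Submodule.Quotient.mk_eq_zero]
      apply Ideal.mul_mem_right
      exact Ideal.mem_sup_right (Ideal.mem_span_singleton_self y)

theorem PD_colon (I J : Ideal R) (y : R) (hJ : ∀ a, a ∈ J ↔ y * a ∈ I) {t : ℕ}
    (h1 : PD (R := R) (R ⧸ J) t) (h2 : PD (R := R) (R ⧸ (I ⊔ Ideal.span {y})) t) :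
    PD (R := R) (R ⧸ I) t := by
  obtain ⟨e1, e2, e3⟩ := colon_exact I J y hJ
  exact PD_mid _ _ e1 e2 e3 h1 h2

/-- from `R ⧸ I` to `I` -/
theorem PD_ideal (I : Ideal R) {t : ℕ} (ht : 1 ≤ t) (h : PD (R := R) (R ⧸ I) (t + 1)) :
    PD (R := R) I t :=
  PD_left I.subtype I.mkQ I.injective_subtype I.mkQ_surjective (LinearMap.exact_subtype_mkQ I)
    ((PD_projective (A := R)).mono ht) h

end general

variable {r : ℕ} {K : Type u} [Field K]

theorem MI_empty : MI K (US (∅ : Finset (Fin r))) = ⊥ := by
  rw [MI, Ideal.span_eq_bot]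
  rintro _ ⟨α, ⟨j, hj, _⟩, rfl⟩
  simp at hj

theorem PD_US (U : Finset (Fin r)) :
    PD (R := MvPolynomial (Fin r) K) (MvPolynomial (Fin r) K ⧸ MI K (US U)) (U.card + 1) := by
  classical
  induction U using Finset.induction_on with
  | empty =>
    rw [MI_empty, Finset.card_empty]
    have e := (Submodule.quotEquivOfEqBot (⊥ : Ideal (MvPolynomial (Fin r) K)) rfl).symm
    exact PD.equiv e (PD_projective (A := MvPolynomial (Fin r) K))
  | insert i U hi ih =>
    obtain ⟨h1, h2, h3⟩ := quot_exact (MI K (US U)) (X i) (US_regular U i hi)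
    rw [US_insert, Finset.card_insert_of_notMem hi]
    exact PD_right _ _ h1 h2 h3 ih (ih.mono (Nat.le_succ _))

/-- weight of an exponent (first two variables) -/
def w2 (γ : Fin (r + 2) →₀ ℕ) : ℕ := γ 0 + 2 * γ 1

theorem w2_add (a b : Fin (r + 2) →₀ ℕ) : w2 (a + b) = w2 a + w2 b := by
  simp only [w2, Finsupp.add_apply]; ring

theorem MI_sup_monomial (E E' : Set (Fin (r + 2) →₀ ℕ)) (a : Fin (r + 2) →₀ ℕ)
    (h1 : E ⊆ E') (h2 : a ∈ E') (h3 : ∀ γ ∈ E', γ ∈ E ∨ a ≤ γ) :
    MI K E ⊔ Ideal.span {monomial a (1 : K)} = MI K E' := by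
  apply le_antisymm
  · apply sup_le (MI_mono h1)
    rw [Ideal.span_singleton_le_iff_mem]
    exact monomial_mem_MI h2 1
  · rw [MI, Ideal.span_le]
    rintro _ ⟨γ, hγ, rfl⟩
    rcases h3 γ hγ with h | h
    · exact Ideal.mem_sup_left (monomial_mem_MI h 1)
    · apply Ideal.mem_sup_right
      have : (monomial γ (1 : K)) = monomial (γ - a) 1 * monomial a 1 := by
        rw [monomial_mul, one_mul, tsub_add_cancel_of_le h]
      show monomial γ (1 : K) ∈ _
      rw [this]
      exact Ideal.mul_mem_left _ _ (Ideal.mem_span_singleton_self _)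

/-- The filtration of a monomial ideal containing all monomials of large weight. -/
theorem PD_filtration (E : Set (Fin (r + 2) →₀ ℕ)) (hE : IsUpperSet E) (W : ℕ)
    (hW : ∀ γ, W ≤ w2 γ → γ ∈ E) (c : ℕ)
    (hcol : ∀ a ∉ E, (∀ i : Fin r, a i.succ.succ = 0) → ∃ U : Finset (Fin r), U.card ≤ c ∧
      ∀ β : Fin (r + 2) →₀ ℕ, β 0 = 0 → β 1 = 0 → (a + β ∈ E ↔ ∃ i ∈ U, β i.succ.succ ≠ 0)) :
    PD (R := MvPolynomial (Fin (r + 2)) K) (MvPolynomial (Fin (r + 2)) K ⧸ MI K E) (c + 3) := by
  classical
  -- the intermediate sets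
  let F : ℕ → ℕ → Set (Fin (r + 2) →₀ ℕ) := fun w k => E ∪ {γ | w < w2 γ ∨ (w2 γ = w ∧ γ 0 < k)}
  let G : ℕ → Set (Fin (r + 2) →₀ ℕ) := fun w => E ∪ {γ | w ≤ w2 γ}
  have hF : ∀ w k, IsUpperSet (F w k) := by
    intro w k
    apply isUpperSet_of_step
    rintro α (hα | hα) i
    · exact Or.inl (hE (le_add_of_nonneg_right (by simp)) hα)
    · right
      have h1 : w2 (α + Finsupp.single i 1) = w2 α + w2 (Finsupp.single i 1) := w2_add _ _
      rcases hα with hα | ⟨hα, hk⟩
      · left; omega
      · by_cases h2 : w2 (Finsupp.single i 1 : Fin (r + 2) →₀ ℕ) = 0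
        · right
          refine ⟨by omega, ?_⟩
          rw [Finsupp.add_apply]
          have : (Finsupp.single i 1 : Fin (r + 2) →₀ ℕ) 0 = 0 := by
            unfold w2 at h2; omega
          omega
        · left; omega
  have step : ∀ w k, PD (R := MvPolynomial (Fin (r + 2)) K)
      (MvPolynomial (Fin (r + 2)) K ⧸ MI K (F w (k + 1))) (c + 3) →
      PD (R := MvPolynomial (Fin (r + 2)) K)
      (MvPolynomial (Fin (r + 2)) K ⧸ MI K (F w k)) (c + 3) := by
    intro w k h
    by_cases hex : ∃ b, k + 2 * b = w
    · obtain ⟨b, hb⟩ := hex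
      let a : Fin (r + 2) →₀ ℕ := Finsupp.single 0 k + Finsupp.single 1 b
      have ha0 : a 0 = k := by simp [a]
      have ha1 : a 1 = b := by simp [a]
      have haz : ∀ i : Fin r, a i.succ.succ = 0 := by
        intro i
        have h1 : i.succ.succ ≠ (0 : Fin (r + 2)) := Fin.succ_ne_zero _
        have h2 : i.succ.succ ≠ (1 : Fin (r + 2)) := by
          rw [← Fin.succ_zero_eq_one]
          intro h
          exact Fin.succ_ne_zero _ (Fin.succ_injective _ h)
        simp [a, Finsupp.single_eq_of_ne h1, Finsupp.single_eq_of_ne h2]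
      have hw : w2 a = w := by unfold w2; rw [ha0, ha1]; exact hb
      have hge : ∀ γ : Fin (r + 2) →₀ ℕ, w2 γ = w → γ 0 = k → a ≤ γ := by
        intro γ h1 h2 i
        have h3 : γ 1 = b := by unfold w2 at h1; omega
        refine Fin.cases ?_ (fun i => Fin.cases ?_ (fun i => ?_) i) i
        · rw [ha0, h2]
        · rw [Fin.succ_zero_eq_one, ha1, h3]
        · rw [haz]; exact Nat.zero_le _
      have hdiff : ∀ γ ∈ F w (k + 1), γ ∈ F w k ∨ a ≤ γ := by
        rintro γ (hγ | hγ | ⟨h1, h2⟩)
        · exact Or.inl (Or.inl hγ)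
        · exact Or.inl (Or.inr (Or.inl hγ))
        · rcases Nat.lt_or_ge (γ 0) k with h3 | h3
          · exact Or.inl (Or.inr (Or.inr ⟨h1, h3⟩))
          · exact Or.inr (hge γ h1 (by omega))
      have hsub : F w k ⊆ F w (k + 1) := by
        rintro γ (hγ | hγ | ⟨h1, h2⟩)
        · exact Or.inl hγ
        · exact Or.inr (Or.inl hγ)
        · exact Or.inr (Or.inr ⟨h1, by omega⟩)
      have hmem : a ∈ F w (k + 1) := Or.inr (Or.inr ⟨hw, by omega⟩)
      by_cases haE : a ∈ E
      · have : F w (k + 1) = F w k := by
          apply Set.Subset.antisymm _ hsub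
          intro γ hγ
          rcases hdiff γ hγ with h1 | h1
          · exact h1
          · exact Or.inl (hE h1 haE)
        rw [this] at h
        exact h
      · obtain ⟨U, hU, hUE⟩ := hcol a haE haz
        let U' : Finset (Fin (r + 2)) := insert 0 (insert 1 (U.map ⟨fun i => i.succ.succ,
          fun i j h => Fin.succ_injective _ (Fin.succ_injective _ h)⟩))
        have hU' : U'.card ≤ c + 2 := by
          refine (Finset.card_insert_le _ _).trans ?_
          have := Finset.card_insert_le (1 : Fin (r + 2)) (U.map ⟨fun i => i.succ.succ,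
            fun i j h => Fin.succ_injective _ (Fin.succ_injective _ h)⟩)
          rw [Finset.card_map] at this
          omega
        have hcolon : ∀ β, β ∈ US U' ↔ a + β ∈ F w k := by
          intro β
          constructor
          · rintro ⟨j, hj, hne⟩
            rcases Finset.mem_insert.1 hj with rfl | hj
            · right; left
              rw [w2_add, hw]
              unfold w2; omega
            · rcases Finset.mem_insert.1 hj with rfl | hj
              · right; left
                rw [w2_add, hw]
                unfold w2; omega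
              · obtain ⟨i, hi, rfl⟩ := Finset.mem_map.1 hj
                by_cases h0 : β 0 = 0 ∧ β 1 = 0
                · left
                  exact (hUE β h0.1 h0.2).2 ⟨i, hi, hne⟩
                · right; left
                  rw [w2_add, hw]
                  unfold w2; omega
          · intro h
            by_cases h0 : β 0 = 0
            · by_cases h1 : β 1 = 0
              · rcases h with h | h | ⟨h2, h3⟩
                · obtain ⟨i, hi, hne⟩ := (hUE β h0 h1).1 h
                  exact ⟨i.succ.succ, Finset.mem_insert_of_mem (Finset.mem_insert_of_mem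
                    (Finset.mem_map.2 ⟨i, hi, rfl⟩)), hne⟩
                · exfalso
                  rw [w2_add, hw] at h
                  unfold w2 at h; omega
                · exfalso
                  rw [Finsupp.add_apply, ha0] at h3
                  omega
              · exact ⟨1, Finset.mem_insert_of_mem (Finset.mem_insert_self _ _), h1⟩
            · exact ⟨0, Finset.mem_insert_self _ _, h0⟩
        refine PD_colon (MI K (F w k)) (MI K (US U')) (monomial a 1) ?_
          ((PD_US U').mono (by omega)) ?_
        · intro f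
          rw [mem_MI (isUpperSet_US U'), mem_MI (hF w k)]
          constructor
          · intro hf α hα
            rw [mem_support_iff, coeff_monomial_mul'] at hα
            split_ifs at hα with hle
            · have h1 := hf (α - a) (mem_support_iff.2 (by rwa [one_mul] at hα))
              have h2 := (hcolon _).1 h1
              rwa [add_tsub_cancel_of_le hle] at h2
            · exact absurd rfl hα
          · intro hf α hα
            rw [hcolon]
            apply hf
            rw [mem_support_iff, coeff_monomial_mul, one_mul]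
            exact mem_support_iff.1 hα
        · rw [MI_sup_monomial (F w k) (F w (k + 1)) a hsub hmem hdiff]
          exact h
    · have : F w (k + 1) = F w k := by
        ext γ
        constructor
        · rintro (hγ | hγ | ⟨h1, h2⟩)
          · exact Or.inl hγ
          · exact Or.inr (Or.inl hγ)
          · rcases Nat.lt_or_ge (γ 0) k with h3 | h3
            · exact Or.inr (Or.inr ⟨h1, h3⟩)
            · exfalso
              apply hex
              refine ⟨γ 1, ?_⟩
              unfold w2 at h1; omega
        · rintro (hγ | hγ | ⟨h1, h2⟩)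
          · exact Or.inl hγ
          · exact Or.inr (Or.inl hγ)
          · exact Or.inr (Or.inr ⟨h1, by omega⟩)
      rw [this] at h
      exact h
  have step2 : ∀ w k, PD (R := MvPolynomial (Fin (r + 2)) K)
      (MvPolynomial (Fin (r + 2)) K ⧸ MI K (F w k)) (c + 3) →
      PD (R := MvPolynomial (Fin (r + 2)) K)
      (MvPolynomial (Fin (r + 2)) K ⧸ MI K (F w 0)) (c + 3) := by
    intro w k
    induction k with
    | zero => exact id
    | succ k ih => exact fun h => ih (step w k h)
  have hFG : ∀ w, F w (w + 1) = G w := by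
    intro w
    ext γ
    constructor
    · rintro (hγ | hγ | ⟨h1, h2⟩)
      · exact Or.inl hγ
      · exact Or.inr (show w ≤ w2 γ by omega)
      · exact Or.inr (show w ≤ w2 γ by omega)
    · rintro (hγ | hγ)
      · exact Or.inl hγ
      · have hγ' : w ≤ w2 γ := hγ
        rcases Nat.lt_or_ge w (w2 γ) with h1 | h1
        · exact Or.inr (Or.inl h1)
        · refine Or.inr (Or.inr ⟨by omega, ?_⟩)
          unfold w2 at h1; omega
  have hFG' : ∀ w, F w 0 = G (w + 1) := by
    intro w
    ext γ
    constructor
    · rintro (hγ | hγ | ⟨h1, h2⟩)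
      · exact Or.inl hγ
      · exact Or.inr (show w + 1 ≤ w2 γ by omega)
      · omega
    · rintro (hγ | hγ)
      · exact Or.inl hγ
      · have hγ' : w + 1 ≤ w2 γ := hγ
        exact Or.inr (Or.inl (by omega))
  have all : ∀ w, PD (R := MvPolynomial (Fin (r + 2)) K)
      (MvPolynomial (Fin (r + 2)) K ⧸ MI K (G w)) (c + 3) := by
    intro w
    induction w with
    | zero =>
      have h1 : G 0 = Set.univ := by
        ext γ; simp [G]
      rw [h1, MI_univ]
      have : Subsingleton (MvPolynomial (Fin (r + 2)) K ⧸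
          (⊤ : Ideal (MvPolynomial (Fin (r + 2)) K))) :=
        Submodule.Quotient.subsingleton_iff.2 rfl
      exact PD_of_subsingleton _
    | succ w ih =>
      rw [← hFG']
      apply step2 w (w + 1)
      rw [hFG]
      exact ih
  have hfin : G W = E := by
    ext γ
    constructor
    · rintro (hγ | hγ)
      · exact hγ
      · exact hW γ hγ
    · exact Or.inl
  rw [← hfin]
  exact all W

end Pool.Agent.H408R3.PDF
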