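import Mathlib
import Pool.Agent.H408R3.PdTools
import Pool.Agent.H408R3.LB

/-!
Finite projective dimension gives vanishing of `Ext` from the residue field.
-/

set_option autoImplicit false

namespace Pool.Agent.H408R3.PDF

open CategoryTheory Abelian Limits MvPolynomial RingTheory.Sequence
open Pool.Agent.Helper698.Dstab
open Pool.Agent.Helper698.Symb

universe u

variable {n : ℕ} {K : Type u} [Field K]

theorem EV_ring : EV (kk K n) (MvPolynomial (Fin n) K) n :=
  EV.equiv (Submodule.quotEquivOfEqBot (⊥ : Ideal (MvPolynomial (Fin n) K)) rfl) EV_bot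

theorem EV_free : ∀ N : ℕ, EV (kk K n) (Fin N → MvPolynomial (Fin n) K) n := by
  intro N
  induction N with
  | zero => exact EV_of_subsingleton n
  | succ N ih =>
    let S := MvPolynomial (Fin n) K
    let f : S →ₗ[S] (Fin (N + 1) → S) := LinearMap.single S (fun _ => S) 0
    let g : (Fin (N + 1) → S) →ₗ[S] (Fin N → S) := LinearMap.funLeft S S Fin.succ
    refine EV_mid f g ?_ ?_ ?_ EV_ring ih
    · intro a b h
      have := congrFun h 0
      simpa [f] using this
    · intro v
      refine ⟨Fin.cons 0 v, ?_⟩
      funext i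
      simp [g, LinearMap.funLeft_apply]
    · intro v
      constructor
      · intro h
        refine ⟨v 0, ?_⟩
        funext i
        refine Fin.cases ?_ (fun i => ?_) i
        · simp [f]
        · have := congrFun h i
          simp only [g, LinearMap.funLeft_apply, Pi.zero_apply] at this
          rw [this]
          simp [f]
      · rintro ⟨a, rfl⟩
        funext i
        simp [f, g, LinearMap.funLeft_apply]

theorem EV_retract {A B : Type u} [AddCommGroup A] [Module (MvPolynomial (Fin n) K) A]
    [AddCommGroup B] [Module (MvPolynomial (Fin n) K) B]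
    (s : A →ₗ[MvPolynomial (Fin n) K] B) (p : B →ₗ[MvPolynomial (Fin n) K] A)
    (h : p.comp s = LinearMap.id) {t : ℕ} (hB : EV (kk K n) B t) : EV (kk K n) A t := by
  intro i hi
  have hBi := hB i hi
  refine ⟨fun x y => ?_⟩
  have key : ∀ x : Ext (kk K n) (ModuleCat.of (MvPolynomial (Fin n) K) A) i, x = 0 := by
    intro x
    have h0 : x.comp (Ext.mk₀ (ModuleCat.ofHom s)) (add_zero i) = 0 := @Subsingleton.elim _ hBi _ _
    have h1 : (x.comp (Ext.mk₀ (ModuleCat.ofHom s)) (add_zero i)).comp
        (Ext.mk₀ (ModuleCat.ofHom p)) (add_zero i) = x := by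
      rw [Ext.comp_assoc_of_third_deg_zero, Ext.mk₀_comp_mk₀, ← ModuleCat.ofHom_comp, h]
      exact Ext.comp_mk₀_id x
    rw [← h1, h0, Ext.zero_comp]
  rw [key x, key y]

theorem EV_of_PD : ∀ (m : ℕ) (M : Type u) [AddCommGroup M] [Module (MvPolynomial (Fin n) K) M]
    [Module.Finite (MvPolynomial (Fin n) K) M],
    PD (R := MvPolynomial (Fin n) K) M (m + 1) → EV (kk K n) M (n - m) := by
  intro m
  induction m with
  | zero =>
    intro M _ _ _ h
    have hproj : Module.Projective (MvPolynomial (Fin n) K) M := projective_of_PD h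
    obtain ⟨N, π, hπ⟩ := Module.Finite.exists_fin' (MvPolynomial (Fin n) K) M
    obtain ⟨s, hs⟩ := Module.projective_lifting_property π LinearMap.id hπ
    exact EV_retract s π hs (EV_free N)
  | succ m ih =>
    intro M _ _ _ h
    obtain ⟨N, π, hπ⟩ := Module.Finite.exists_fin' (MvPolynomial (Fin n) K) M
    have hex : Function.Exact (LinearMap.ker π).subtype π := LinearMap.exact_subtype_ker_map π
    have h1 : PD (R := MvPolynomial (Fin n) K) (LinearMap.ker π) (m + 1) :=
      PD_left (LinearMap.ker π).subtype π (Submodule.injective_subtype _) hπ hex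
        ((PD_projective (A := Fin N → MvPolynomial (Fin n) K)).mono (by omega)) h
    have h2 := ih (LinearMap.ker π) h1
    rcases Nat.lt_or_ge m n with hm | hm
    · exact EV_right _ _ (Submodule.injective_subtype _) hπ hex ((EV_free N).mono (by omega))
        (h2.mono (by omega))
    · intro i hi
      omega

end Pool.Agent.H408R3.PDF
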