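import Mathlib

set_option autoImplicit false

namespace Pool.Agent.H408R3

open MvPolynomial

/-- Koszul exactness in the middle for three elements, on the module `M`. -/
def KosMid {R : Type} [CommRing R] (X Y Z : R) (M : Type) [AddCommGroup M] [Module R M] : Prop :=
  ∀ a b c : M, X • a + Y • b + Z • c = 0 →
    ∃ p q r : M, a = Y • p - Z • q ∧ b = Z • r - X • p ∧ c = X • q - Y • r

theorem KosMid.pi {R : Type} [CommRing R] {X Y Z : R} (h : KosMid X Y Z R) (n : ℕ) :
    KosMid X Y Z (Fin n → R) := by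
  intro a b c habc
  have h' : ∀ i, ∃ p q r : R, a i = Y • p - Z • q ∧ b i = Z • r - X • p ∧ c i = X • q - Y • r := by
    intro i
    apply h
    have := congrFun habc i
    simpa using this
  choose p q r hp hq hr using h'
  exact ⟨p, q, r, funext hp, funext hq, funext hr⟩

theorem KosMid.retract {R : Type} [CommRing R] {X Y Z : R} {F K : Type} [AddCommGroup F]
    [Module R F] [AddCommGroup K] [Module R K] (h : KosMid X Y Z F)
    (i : K →ₗ[R] F) (π : F →ₗ[R] K) (hπ : ∀ x, π (i x) = x) : KosMid X Y Z K := by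
  intro a b c habc
  obtain ⟨p, q, r, hp, hq, hr⟩ := h (i a) (i b) (i c) (by
    rw [← map_smul, ← map_smul, ← map_smul, ← map_add, ← map_add, habc, map_zero])
  refine ⟨π p, π q, π r, ?_, ?_, ?_⟩
  · rw [← map_smul, ← map_smul, ← map_sub, ← hp, hπ]
  · rw [← map_smul, ← map_smul, ← map_sub, ← hq, hπ]
  · rw [← map_smul, ← map_smul, ← map_sub, ← hr, hπ]

theorem KosMid.projective {R : Type} [CommRing R] {X Y Z : R} (h : KosMid X Y Z R)
    (K : Type) [AddCommGroup K] [Module R K] [Module.Finite R K] [Module.Projective R K] :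
    KosMid X Y Z K := by
  obtain ⟨n, f, hf⟩ := Module.Finite.exists_fin' R K
  obtain ⟨s, hs⟩ := Module.projective_lifting_property f LinearMap.id hf
  exact (h.pi n).retract s f (fun x => LinearMap.congr_fun hs x)

/-- If `u ∉ I` but `X u, Y u, Z u ∈ I`, for a Koszul regular sequence `X, Y, Z`, then no finite free
cover of `I` has projective kernel. -/
theorem no_cover {R : Type} [CommRing R] [IsDomain R] [IsNoetherianRing R] {X Y Z : R}
    (h : KosMid X Y Z R) (hZ : Z ≠ 0) (hYZ : ∀ c, Z ∣ Y * c → Z ∣ c) {I : Ideal R} {u : R}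
    (hu : u ∉ I) (hX : X * u ∈ I) (hY : Y * u ∈ I) (hZu : Z * u ∈ I) :
    ¬ ∃ (m : ℕ) (f : (Fin m → R) →ₗ[R] ↥I), Function.Surjective f ∧
      Module.Projective R ↥(LinearMap.ker f) := by
  rintro ⟨m, f, hf, hproj⟩
  obtain ⟨fx, hfx⟩ := hf ⟨X * u, hX⟩
  obtain ⟨fy, hfy⟩ := hf ⟨Y * u, hY⟩
  obtain ⟨fz, hfz⟩ := hf ⟨Z * u, hZu⟩
  have hK := h.projective ↥(LinearMap.ker f)
  -- the syzygies
  have ha : Y • fz - Z • fy ∈ LinearMap.ker f := by
    rw [LinearMap.mem_ker, map_sub, map_smul, map_smul, hfy, hfz]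
    apply Subtype.ext
    simp; ring
  have hb : Z • fx - X • fz ∈ LinearMap.ker f := by
    rw [LinearMap.mem_ker, map_sub, map_smul, map_smul, hfx, hfz]
    apply Subtype.ext
    simp; ring
  have hc : X • fy - Y • fx ∈ LinearMap.ker f := by
    rw [LinearMap.mem_ker, map_sub, map_smul, map_smul, hfx, hfy]
    apply Subtype.ext
    simp; ring
  obtain ⟨p, q, r, hp, hq, hr⟩ := hK ⟨_, ha⟩ ⟨_, hb⟩ ⟨_, hc⟩ (by
    apply Subtype.ext
    simp only [Submodule.coe_add, Submodule.coe_smul, Submodule.coe_zero]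
    funext i
    simp
    ring)
  have hp' := congrArg (Subtype.val) hp
  have hq' := congrArg (Subtype.val) hq
  have hr' := congrArg (Subtype.val) hr
  simp only [Submodule.coe_sub, Submodule.coe_smul] at hp' hq' hr'
  -- corrected lifts: α = fx - r, β = fy - q, γ = fz - p
  have e1 : ∀ i, Y * (fz i - p.1 i) = Z * (fy i - q.1 i) := by
    intro i
    have := congrFun hp' i
    simp at this
    linear_combination this
  have e2 : ∀ i, Z * (fx i - r.1 i) = X * (fz i - p.1 i) := by
    intro i
    have := congrFun hq' i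
    simp at this
    linear_combination this
  have e3 : ∀ i, ∃ w, fz i - p.1 i = Z * w := by
    intro i
    exact hYZ _ ⟨_, e1 i⟩
  choose w hw using e3
  have e4 : fx = r.1 + X • w := by
    funext i
    have h1 := e2 i
    rw [hw i] at h1
    have h2 : Z * (fx i - r.1 i) = Z * (X * w i) := by rw [h1]; ring
    have h3 := mul_left_cancel₀ hZ h2
    simp only [Pi.add_apply, Pi.smul_apply, smul_eq_mul]
    rw [← h3]; ring
  have e5 : f fx = X • f w := by
    rw [e4, map_add, map_smul, LinearMap.mem_ker.mp r.2, zero_add]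
  have e6 : fz = p.1 + Z • w := by
    funext i
    simp only [Pi.add_apply, Pi.smul_apply, smul_eq_mul]
    rw [← hw i]; ring
  have e7 : f fz = Z • f w := by
    rw [e6, map_add, map_smul, LinearMap.mem_ker.mp p.2, zero_add]
  rw [hfz] at e7
  have e8 := congrArg Subtype.val e7
  simp only [Submodule.coe_smul, smul_eq_mul] at e8
  have e9 := mul_left_cancel₀ hZ e8
  apply hu
  rw [e9]
  exact (f w).2

end Pool.Agent.H408R3
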