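import Mathlib

set_option autoImplicit false

namespace Pool.Agent.H408R3

open MvPolynomial

/-- `PdLe I`: the ideal `I` is the image of a finite free module with projective kernel. -/
def PdLe {R : Type} [CommRing R] (I : Ideal R) : Prop :=
  ∃ (m : ℕ) (f : (Fin m → R) →ₗ[R] R), LinearMap.range f = I ∧
    Module.Projective R ↥(LinearMap.ker f)

theorem PdLe.cover {R : Type} [CommRing R] {I : Ideal R} (h : PdLe I) :
    ∃ (m : ℕ) (f : (Fin m → R) →ₗ[R] ↥I), Function.Surjective f ∧
      Module.Projective R ↥(LinearMap.ker f) := by
  obtain ⟨m, f, hf, hp⟩ := h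
  subst hf
  refine ⟨m, f.rangeRestrict, LinearMap.surjective_rangeRestrict f, ?_⟩
  rw [LinearMap.ker_rangeRestrict]
  exact hp

theorem pdLe_span_singleton {R : Type} [CommRing R] [IsDomain R] {a : R} (ha : a ≠ 0) :
    PdLe (Ideal.span {a}) := by
  refine ⟨1, (LinearMap.toSpanSingleton R R a).comp (LinearMap.proj 0), ?_, ?_⟩
  · ext x
    simp only [LinearMap.mem_range, LinearMap.comp_apply, LinearMap.proj_apply,
      LinearMap.toSpanSingleton_apply, smul_eq_mul, Ideal.mem_span_singleton']
    constructor
    · rintro ⟨v, hv⟩; exact ⟨v 0, hv⟩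
    · rintro ⟨v, hv⟩; exact ⟨fun _ => v, hv⟩
  · have : LinearMap.ker ((LinearMap.toSpanSingleton R R a).comp
        (LinearMap.proj (0 : Fin 1) : (Fin 1 → R) →ₗ[R] R)) = ⊥ := by
      rw [LinearMap.ker_eq_bot']
      intro v hv
      simp only [LinearMap.comp_apply, LinearMap.proj_apply,
        LinearMap.toSpanSingleton_apply, smul_eq_mul] at hv
      have h0 : v 0 = 0 := by
        rcases mul_eq_zero.mp hv with h | h
        · exact h
        · exact absurd h ha
      funext i
      have : i = 0 := Subsingleton.elim _ _
      rw [this, h0]; rfl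
    rw [this]
    infer_instance

/-- Adding one generator `a` to `J` with `(J : a) = (p)` principal keeps `PdLe`. -/
theorem PdLe.sup_singleton {R : Type} [CommRing R] [IsDomain R] {J : Ideal R} (h : PdLe J)
    {a p : R} (hp : p ≠ 0) (hpa : p * a ∈ J) (hJ : ∀ c, c * a ∈ J → p ∣ c) :
    PdLe (Ideal.span {a} ⊔ J) := by
  obtain ⟨m, f, hf, hproj⟩ := h
  have hfm : ∀ v, f v ∈ J := by intro v; rw [← hf]; exact ⟨v, rfl⟩
  obtain ⟨w, hw⟩ : ∃ w, f w = p * a := by rw [← hf] at hpa; exact hpa
  -- the new cover
  let g : (Fin (m + 1) → R) →ₗ[R] R :=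
    { toFun := fun v => v 0 * a + f (fun i => v i.succ)
      map_add' := by
        intro v w
        have : (fun i : Fin m => (v + w) i.succ) = (fun i => v i.succ) + (fun i => w i.succ) := by
          funext i; rfl
        rw [this, map_add]
        simp only [Pi.add_apply]
        ring
      map_smul' := by
        intro c v
        have : (fun i : Fin m => (c • v) i.succ) = c • (fun i => v i.succ) := by
          funext i; rfl
        rw [this, map_smul]
        simp only [Pi.smul_apply, smul_eq_mul, RingHom.id_apply]
        ring }
  have hg : ∀ v, g v = v 0 * a + f (fun i => v i.succ) := fun v => rfl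
  refine ⟨m + 1, g, ?_, ?_⟩
  · apply le_antisymm
    · rintro x ⟨v, rfl⟩
      rw [hg]
      apply Ideal.add_mem
      · exact Ideal.mem_sup_left (Ideal.mul_mem_left _ _ (Ideal.mem_span_singleton_self a))
      · exact Ideal.mem_sup_right (hfm _)
    · rw [sup_le_iff]
      constructor
      · rw [Ideal.span_singleton_le_iff_mem]
        refine ⟨Fin.cons 1 0, ?_⟩
        rw [hg]
        simp only [Fin.cons_zero, Fin.cons_succ, one_mul]
        have : (fun i : Fin m => (0 : Fin m → R) i) = 0 := rfl
        rw [this, map_zero, add_zero]
      · intro x hx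
        rw [← hf] at hx
        obtain ⟨v, rfl⟩ := hx
        refine ⟨Fin.cons 0 v, ?_⟩
        rw [hg]
        simp only [Fin.cons_zero, Fin.cons_succ, zero_mul, zero_add]
  · -- the kernel is `ker f × R`
    let e : (↥(LinearMap.ker f) × R) →ₗ[R] ↥(LinearMap.ker g) :=
      { toFun := fun uc => ⟨Fin.cons (uc.2 * p) (uc.1.1 - uc.2 • w), by
          rw [LinearMap.mem_ker, hg]
          simp only [Fin.cons_zero, Fin.cons_succ]
          have : (fun i : Fin m => ((uc.1.1 : Fin m → R) - uc.2 • w) i)
              = (uc.1.1 : Fin m → R) - uc.2 • w := rfl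
          rw [this, map_sub, map_smul, hw, LinearMap.mem_ker.mp uc.1.2, smul_eq_mul]
          ring⟩
        map_add' := by
          rintro ⟨u, c⟩ ⟨u', c'⟩
          apply Subtype.ext
          funext i
          refine Fin.cases ?_ (fun j => ?_) i
          · simp [add_mul]
          · simp [add_mul]; ring
        map_smul' := by
          rintro r ⟨u, c⟩
          apply Subtype.ext
          funext i
          refine Fin.cases ?_ (fun j => ?_) i
          · simp [mul_assoc]
          · simp [mul_sub, mul_assoc] }
    have he : Function.Bijective e := by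
      constructor
      · rw [← LinearMap.ker_eq_bot, LinearMap.ker_eq_bot']
        rintro ⟨u, c⟩ huc
        have h1 := congrArg (fun z : ↥(LinearMap.ker g) => (z : Fin (m + 1) → R)) huc
        have h0 : c * p = 0 := by
          have := congrFun h1 0
          simpa [e] using this
        have hc : c = 0 := by
          rcases mul_eq_zero.mp h0 with h | h
          · exact h
          · exact absurd h hp
        subst hc
        have hu : u = 0 := by
          apply Subtype.ext
          funext j
          have := congrFun h1 j.succ
          simpa [e] using this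
        rw [hu]; rfl
      · rintro ⟨v, hv⟩
        have hv' : v 0 * a + f (fun i => v i.succ) = 0 := by rw [← hg]; exact hv
        have hmem : v 0 * a ∈ J := by
          have : v 0 * a = - f (fun i => v i.succ) := by linear_combination hv'
          rw [this]
          exact J.neg_mem (hfm _)
        obtain ⟨c, hc⟩ := hJ _ hmem
        refine ⟨(⟨(fun i => v i.succ) + c • w, ?_⟩, c), ?_⟩
        · rw [LinearMap.mem_ker, map_add, map_smul, hw, smul_eq_mul]
          have : v 0 * a + f (fun i => v i.succ) = 0 := hv'
          rw [hc] at this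
          linear_combination this
        · apply Subtype.ext
          funext i
          refine Fin.cases ?_ (fun j => ?_) i
          · simp [e, hc, mul_comm]
          · simp [e]
    exact Module.Projective.of_equiv (LinearEquiv.ofBijective e he)

/-- An ideal of a domain containing two coprime elements and different from the ring is not
projective. -/
theorem not_projective_of_coprime {R : Type} [CommRing R] [IsDomain R] {I : Ideal R} (hI : I ≠ ⊤)
    {a b : R} (ha : a ∈ I) (hb : b ∈ I) (hb0 : b ≠ 0)
    (hab : ∀ c, b ∣ a * c → b ∣ c) : ¬ Module.Projective R ↥I := by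
  intro hproj
  obtain ⟨s, hs⟩ := (Module.projective_def' (R := R) (P := ↥I)).mp hproj
  let A : ↥I := ⟨a, ha⟩
  let B : ↥I := ⟨b, hb⟩
  have hcomm : a • (s B) = b • (s A) := by
    rw [← map_smul, ← map_smul]
    congr 1
    apply Subtype.ext
    simp [A, B, mul_comm]
  have hdvd : ∀ i, b ∣ (s B) i := by
    intro i
    apply hab
    have := DFunLike.congr_fun hcomm i
    simp only [Finsupp.smul_apply, smul_eq_mul] at this
    exact ⟨_, this⟩
  choose c hc using hdvd
  have hB : Finsupp.linearCombination R (id : ↥I → ↥I) (s B) = B := by
    have := LinearMap.congr_fun hs B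
    simpa using this
  rw [Finsupp.linearCombination_apply, Finsupp.sum] at hB
  have hB' := congrArg (Subtype.val) hB
  have h1 : (∑ i ∈ (s B).support, c i * (i : R)) * b = 1 * b := by
    have h2 : ((∑ i ∈ (s B).support, (s B) i • (id i : ↥I) : ↥I) : R)
        = ∑ i ∈ (s B).support, (s B) i * (i : R) := by
      simp
    rw [h2] at hB'
    rw [one_mul, Finset.sum_mul]
    calc ∑ i ∈ (s B).support, c i * (i : R) * b
        = ∑ i ∈ (s B).support, (s B) i * (i : R) := by
          apply Finset.sum_congr rfl
          intro i _
          rw [hc i]; ring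
      _ = b := hB'
  have h3 : (∑ i ∈ (s B).support, c i * (i : R)) = 1 := mul_right_cancel₀ hb0 h1
  apply hI
  rw [Ideal.eq_top_iff_one, ← h3]
  exact Ideal.sum_mem _ (fun i _ => Ideal.mul_mem_left _ _ i.2)

end Pool.Agent.H408R3
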