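import Mathlib
import Pool.Agent.H408R3.PdOne
import Pool.Agent.H408R3.Koszul

set_option autoImplicit false

namespace Pool.Agent.H408R3

open MvPolynomial

noncomputable section

abbrev S3 : Type := MvPolynomial (Fin 3) ℚ

abbrev vx : S3 := X 0
abbrev vy : S3 := X 1
abbrev vz : S3 := X 2

theorem y_prime : Prime vy := X_prime

theorem x_ne : vx ≠ 0 := X_ne_zero _
theorem y_ne : vy ≠ 0 := X_ne_zero _
theorem z_ne : vz ≠ 0 := X_ne_zero _

theorem y_not_dvd_x : ¬ vy ∣ vx := by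
  rw [X_dvd_X]; decide

theorem y_not_dvd_xpow (n : ℕ) : ¬ vy ∣ vx ^ n := fun h => y_not_dvd_x (y_prime.dvd_of_dvd_pow h)

theorem y_dvd_of {c : S3} {n : ℕ} (h : vy ∣ c * vx ^ n) : vy ∣ c := by
  rcases y_prime.dvd_or_dvd h with h | h
  · exact h
  · exact absurd h (y_not_dvd_xpow n)

theorem ypow_dvd_of {c : S3} {k n : ℕ} (h : vy ^ k ∣ c * vx ^ n) : vy ^ k ∣ c := by
  exact y_prime.pow_dvd_of_dvd_mul_right k (y_not_dvd_xpow n) h

/-! ### Koszul exactness -/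

/-- substitution `z ↦ 0` -/
def sig : S3 →ₐ[ℚ] S3 := aeval ![vx, vy, 0]

theorem sig_x : sig vx = vx := by simp [sig]
theorem sig_y : sig vy = vy := by simp [sig]
theorem sig_z : sig vz = 0 := by simp [sig]

theorem z_dvd_sub_sig (a : S3) : vz ∣ a - sig a := by
  induction a using MvPolynomial.induction_on with
  | C r => simp [sig]
  | add p q hp hq =>
    have : p + q - sig (p + q) = (p - sig p) + (q - sig q) := by rw [map_add]; ring
    rw [this]; exact dvd_add hp hq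
  | mul_X p i hp =>
    have hi : vz ∣ (X i : S3) - sig (X i) := by
      fin_cases i
      · simp [sig]
      · simp [sig]
      · simp [sig]
    have : p * X i - sig (p * X i) = (p - sig p) * X i + sig p * (X i - sig (X i)) := by
      rw [map_mul]; ring
    rw [this]
    exact dvd_add (Dvd.dvd.mul_right hp _) (Dvd.dvd.mul_left hi _)

theorem kosMid : KosMid (vx ^ 2) vy vz S3 := by
  intro a b c h
  simp only [smul_eq_mul] at h ⊢
  obtain ⟨a1, ha1⟩ := z_dvd_sub_sig a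
  obtain ⟨b1, hb1⟩ := z_dvd_sub_sig b
  have h0 : vx ^ 2 * sig a + vy * sig b = 0 := by
    have := congrArg sig h
    simp only [map_add, map_mul, map_pow, sig_x, sig_y, sig_z, map_zero, zero_mul, add_zero] at this
    exact this
  have h1 : vy ∣ sig a := by
    apply y_dvd_of (n := 2)
    exact ⟨- sig b, by linear_combination h0⟩
  obtain ⟨p, hp⟩ := h1
  have h2 : sig b = - vx ^ 2 * p := by
    apply mul_left_cancel₀ y_ne
    rw [hp] at h0
    linear_combination h0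
  have ea : a = vy * p + vz * a1 := by rw [← hp, ← ha1]; ring
  have eb : b = - vx ^ 2 * p + vz * b1 := by rw [← h2, ← hb1]; ring
  have ec : c = - vx ^ 2 * a1 - vy * b1 := by
    apply mul_left_cancel₀ z_ne
    rw [ea, eb] at h
    linear_combination h
  refine ⟨p, - a1, b1, ?_, ?_, ?_⟩
  · rw [ea]; ring
  · rw [eb]; ring
  · rw [ec]; ring

/-! ### The ideal -/

def g3 : S3 := vx ^ 8 * vy + vz * vx ^ 6 * vy ^ 2

def Q3 : Ideal S3 := Ideal.span {vx ^ 10, g3, vx ^ 6 * vy ^ 3, vx ^ 2 * vy ^ 4, vy ^ 5}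

theorem m1 : vx ^ 10 ∈ Q3 := Ideal.subset_span (by simp)
theorem m2 : g3 ∈ Q3 := Ideal.subset_span (by simp)
theorem m3 : vx ^ 6 * vy ^ 3 ∈ Q3 := Ideal.subset_span (by simp)
theorem m4 : vx ^ 2 * vy ^ 4 ∈ Q3 := Ideal.subset_span (by simp)
theorem m5 : vy ^ 5 ∈ Q3 := Ideal.subset_span (by simp)

theorem le_of_dvd_gens {J : Ideal S3} {s : Set S3} (hJ : J = Ideal.span s) {a : S3}
    (h : ∀ x ∈ s, a ∣ x) {c : S3} (hc : c ∈ J) : a ∣ c := by
  rw [← Ideal.mem_span_singleton]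
  have : J ≤ Ideal.span {a} := by
    rw [hJ, Ideal.span_le]
    intro x hx
    exact Ideal.mem_span_singleton.mpr (h x hx)
  exact this hc

theorem y_not_dvd_h : ¬ vy ∣ (vx ^ 8 + vz * vx ^ 6 * vy) := by
  intro h
  apply y_not_dvd_xpow 8
  have : vx ^ 8 = (vx ^ 8 + vz * vx ^ 6 * vy) - (vz * vx ^ 6) * vy := by ring
  rw [this]
  exact dvd_sub h (Dvd.intro_left _ rfl)

theorem pdLe_Q3 : PdLe Q3 := by
  have h1 : PdLe (Ideal.span {vy ^ 5}) := pdLe_span_singleton (pow_ne_zero _ y_ne)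
  have h2 : PdLe (Ideal.span {vx ^ 2 * vy ^ 4, vy ^ 5}) := by
    rw [Ideal.span_insert]
    refine h1.sup_singleton (p := vy) y_ne ?_ ?_
    · rw [Ideal.mem_span_singleton]
      exact ⟨vx ^ 2, by ring⟩
    · intro c hc
      rw [Ideal.mem_span_singleton] at hc
      apply y_dvd_of (n := 2)
      have : vy ^ 4 * vy ∣ vy ^ 4 * (c * vx ^ 2) := by
        convert hc using 1 <;> ring
      exact (mul_dvd_mul_iff_left (pow_ne_zero _ y_ne)).mp this
  have h3 : PdLe (Ideal.span {vx ^ 6 * vy ^ 3, vx ^ 2 * vy ^ 4, vy ^ 5}) := by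
    rw [Ideal.span_insert]
    refine h2.sup_singleton (p := vy) y_ne ?_ ?_
    · have : vy * (vx ^ 6 * vy ^ 3) = vx ^ 4 * (vx ^ 2 * vy ^ 4) := by ring
      rw [this]
      exact Ideal.mul_mem_left _ _ (Ideal.subset_span (by simp))
    · intro c hc
      have hd : vy ^ 4 ∣ c * (vx ^ 6 * vy ^ 3) := by
        refine le_of_dvd_gens rfl ?_ hc
        intro x hx
        simp only [Set.mem_insert_iff, Set.mem_singleton_iff] at hx
        rcases hx with rfl | rfl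
        · exact Dvd.intro_left _ rfl
        · exact ⟨vy, by ring⟩
      apply y_dvd_of (n := 6)
      have : vy ^ 3 * vy ∣ vy ^ 3 * (c * vx ^ 6) := by
        convert hd using 1 <;> ring
      exact (mul_dvd_mul_iff_left (pow_ne_zero _ y_ne)).mp this
  have h4 : PdLe (Ideal.span {g3, vx ^ 6 * vy ^ 3, vx ^ 2 * vy ^ 4, vy ^ 5}) := by
    rw [Ideal.span_insert]
    refine h3.sup_singleton (p := vy ^ 2) (pow_ne_zero _ y_ne) ?_ ?_
    · have : vy ^ 2 * g3 = (vx ^ 2 + vz * vy) * (vx ^ 6 * vy ^ 3) := by rw [g3]; ring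
      rw [this]
      exact Ideal.mul_mem_left _ _ (Ideal.subset_span (by simp))
    · intro c hc
      have hd : vy ^ 3 ∣ c * g3 := by
        refine le_of_dvd_gens rfl ?_ hc
        intro x hx
        simp only [Set.mem_insert_iff, Set.mem_singleton_iff] at hx
        rcases hx with rfl | rfl | rfl
        · exact Dvd.intro_left _ rfl
        · exact ⟨vx ^ 2 * vy, by ring⟩
        · exact ⟨vy ^ 2, by ring⟩
      have h' : vy * vy ^ 2 ∣ vy * (c * (vx ^ 8 + vz * vx ^ 6 * vy)) := by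
        convert hd using 1
        · ring
        · rw [g3]; ring
      have h'' := (mul_dvd_mul_iff_left y_ne).mp h'
      exact y_prime.pow_dvd_of_dvd_mul_right 2 y_not_dvd_h h''
  rw [Q3, Ideal.span_insert]
  refine h4.sup_singleton (p := vy) y_ne ?_ ?_
  · have : vy * vx ^ 10 = (vx ^ 2 - vz * vy) * g3 + (vz ^ 2) * (vx ^ 6 * vy ^ 3) := by
      rw [g3]; ring
    rw [this]
    exact Ideal.add_mem _ (Ideal.mul_mem_left _ _ (Ideal.subset_span (by simp)))
      (Ideal.mul_mem_left _ _ (Ideal.subset_span (by simp)))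
  · intro c hc
    have hd : vy ∣ c * vx ^ 10 := by
      refine le_of_dvd_gens rfl ?_ hc
      intro x hx
      simp only [Set.mem_insert_iff, Set.mem_singleton_iff] at hx
      rcases hx with rfl | rfl | rfl | rfl
      · exact ⟨vx ^ 8 + vz * vx ^ 6 * vy, by rw [g3]; ring⟩
      · exact ⟨vx ^ 6 * vy ^ 2, by ring⟩
      · exact ⟨vx ^ 2 * vy ^ 3, by ring⟩
      · exact ⟨vy ^ 4, by ring⟩
    exact y_dvd_of hd

/-! ### The ideals `(x², y)^N` -/

def TT (N : ℕ) : Ideal S3 := Ideal.span {p | ∃ i ≤ N, p = vx ^ (2 * i) * vy ^ (N - i)}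

def CC (N j : ℕ) : Ideal S3 := Ideal.span {p | ∃ i ≤ j, p = vx ^ (2 * i) * vy ^ (N - i)}

theorem CC_zero (N : ℕ) : CC N 0 = Ideal.span {vy ^ N} := by
  unfold CC
  congr 1
  ext p
  simp

theorem CC_succ (N j : ℕ) :
    CC N (j + 1) = Ideal.span {vx ^ (2 * (j + 1)) * vy ^ (N - (j + 1))} ⊔ CC N j := by
  unfold CC
  rw [← Ideal.span_insert]
  congr 1
  ext p
  simp only [Set.mem_ofPred_eq, Set.mem_insert_iff]
  constructor
  · rintro ⟨i, hi, rfl⟩
    rcases Nat.lt_or_ge j i with h | h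
    · left
      have : i = j + 1 := by omega
      rw [this]
    · right; exact ⟨i, h, rfl⟩
  · rintro (rfl | ⟨i, hi, rfl⟩)
    · exact ⟨j + 1, le_refl _, rfl⟩
    · exact ⟨i, by omega, rfl⟩

theorem pdLe_CC (N j : ℕ) (hj : j ≤ N) : PdLe (CC N j) := by
  induction j with
  | zero => rw [CC_zero]; exact pdLe_span_singleton (pow_ne_zero _ y_ne)
  | succ j ih =>
    rw [CC_succ]
    refine (ih (by omega)).sup_singleton (p := vy) y_ne ?_ ?_
    · have e : vy * (vx ^ (2 * (j + 1)) * vy ^ (N - (j + 1)))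
          = vx ^ 2 * (vx ^ (2 * j) * vy ^ (N - j)) := by
        have : N - j = (N - (j + 1)) + 1 := by omega
        rw [this]; ring
      rw [e]
      exact Ideal.mul_mem_left _ _ (Ideal.subset_span ⟨j, le_refl _, rfl⟩)
    · intro c hc
      have hd : vy ^ (N - j) ∣ c * (vx ^ (2 * (j + 1)) * vy ^ (N - (j + 1))) := by
        refine le_of_dvd_gens (s := {p | ∃ i ≤ j, p = vx ^ (2 * i) * vy ^ (N - i)}) rfl ?_ hc
        rintro x ⟨i, hi, rfl⟩
        exact Dvd.dvd.mul_left (pow_dvd_pow _ (by omega)) _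
      apply y_dvd_of (n := 2 * (j + 1))
      have e : N - j = (N - (j + 1)) + 1 := by omega
      rw [e, pow_succ] at hd
      have : vy ^ (N - (j + 1)) * vy ∣ vy ^ (N - (j + 1)) * (c * vx ^ (2 * (j + 1))) := by
        convert hd using 1
        ring
      exact (mul_dvd_mul_iff_left (pow_ne_zero _ y_ne)).mp this

theorem pdLe_TT (N : ℕ) : PdLe (TT N) := pdLe_CC N N (le_refl _)

theorem TT_mul_le (N M : ℕ) : TT N * TT M ≤ TT (N + M) := by
  unfold TT
  rw [Ideal.span_mul_span', Ideal.span_le]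
  rintro x ⟨a, ⟨i, hi, rfl⟩, b, ⟨j, hj, rfl⟩, rfl⟩
  apply Ideal.subset_span
  refine ⟨i + j, by omega, ?_⟩
  have : N + M - (i + j) = (N - i) + (M - j) := by omega
  rw [this]
  simp only
  ring

theorem tt_mem (N i : ℕ) (hi : i ≤ N) : vx ^ (2 * i) * vy ^ (N - i) ∈ TT N :=
  Ideal.subset_span ⟨i, hi, rfl⟩

theorem Q3_le : Q3 ≤ TT 5 := by
  unfold Q3
  rw [Ideal.span_le]
  intro x hx
  simp only [Set.mem_insert_iff, Set.mem_singleton_iff] at hx
  have t0 := tt_mem 5 0 (by norm_num)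
  have t1 := tt_mem 5 1 (by norm_num)
  have t3 := tt_mem 5 3 (by norm_num)
  have t4 := tt_mem 5 4 (by norm_num)
  have t5 := tt_mem 5 5 (by norm_num)
  rcases hx with rfl | rfl | rfl | rfl | rfl
  · have : vx ^ 10 = vx ^ (2 * 5) * vy ^ (5 - 5) := by norm_num
    rw [SetLike.mem_coe, this]; exact t5
  · have : g3 = (vx ^ (2 * 4) * vy ^ (5 - 4)) + vz * (vx ^ (2 * 3) * vy ^ (5 - 3)) := by
      rw [g3]; ring
    rw [SetLike.mem_coe, this]
    exact Ideal.add_mem _ t4 (Ideal.mul_mem_left _ _ t3)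
  · have : vx ^ 6 * vy ^ 3 = vy * (vx ^ (2 * 3) * vy ^ (5 - 3)) := by ring
    rw [SetLike.mem_coe, this]
    exact Ideal.mul_mem_left _ _ t3
  · have : vx ^ 2 * vy ^ 4 = vx ^ (2 * 1) * vy ^ (5 - 1) := by norm_num
    rw [SetLike.mem_coe, this]; exact t1
  · have : vy ^ 5 = vx ^ (2 * 0) * vy ^ (5 - 0) := by norm_num
    rw [SetLike.mem_coe, this]; exact t0

theorem Q3_pow_le (t : ℕ) : Q3 ^ t ≤ TT (5 * t) := by
  induction t with
  | zero =>
    have : (1 : S3) ∈ TT (5 * 0) := by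
      have := tt_mem 0 0 (le_refl _)
      simpa using this
    rw [pow_zero, (Ideal.eq_top_iff_one _).mpr this]
    exact le_top
  | succ t ih =>
    rw [pow_succ]
    calc Q3 ^ t * Q3 ≤ TT (5 * t) * TT 5 := Ideal.mul_mono ih Q3_le
      _ ≤ TT (5 * t + 5) := TT_mul_le _ _
      _ = TT (5 * (t + 1)) := by ring_nf

theorem mem3 {a b c : S3} (ha : a ∈ Q3) (hb : b ∈ Q3) (hc : c ∈ Q3) : a * b * c ∈ Q3 ^ 3 := by
  have : Q3 ^ 3 = Q3 * Q3 * Q3 := by ring
  rw [this]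
  exact Ideal.mul_mem_mul (Ideal.mul_mem_mul ha hb) hc

theorem TT15_le : TT 15 ≤ Q3 ^ 3 := by
  have h0 : vy ^ 15 ∈ Q3 ^ 3 := by convert mem3 m5 m5 m5 using 1; ring
  have h1 : vx ^ 2 * vy ^ 14 ∈ Q3 ^ 3 := by convert mem3 m4 m5 m5 using 1; ring
  have h2 : vx ^ 4 * vy ^ 13 ∈ Q3 ^ 3 := by convert mem3 m4 m4 m5 using 1; ring
  have h3 : vx ^ 6 * vy ^ 12 ∈ Q3 ^ 3 := by convert mem3 m4 m4 m4 using 1; ring
  have h4 : vx ^ 8 * vy ^ 11 ∈ Q3 ^ 3 := by
    convert Ideal.sub_mem _ (mem3 m2 m5 m5) (Ideal.mul_mem_left _ vz h3) using 1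
    rw [g3]; ring
  have h5 : vx ^ 10 * vy ^ 10 ∈ Q3 ^ 3 := by convert mem3 m1 m5 m5 using 1; ring
  have h6 : vx ^ 12 * vy ^ 9 ∈ Q3 ^ 3 := by convert mem3 m1 m4 m5 using 1; ring
  have h7 : vx ^ 14 * vy ^ 8 ∈ Q3 ^ 3 := by convert mem3 m1 m4 m4 using 1; ring
  have h8 : vx ^ 16 * vy ^ 7 ∈ Q3 ^ 3 := by
    convert Ideal.sub_mem _ (Ideal.sub_mem _ (mem3 m2 m2 m5) (Ideal.mul_mem_left _ (2 * vz) h7))
      (Ideal.mul_mem_left _ (vz ^ 2) h6) using 1
    rw [g3]; ring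
  have h9 : vx ^ 18 * vy ^ 6 ∈ Q3 ^ 3 := by
    convert Ideal.sub_mem _ (mem3 m1 m2 m5) (Ideal.mul_mem_left _ vz h8) using 1
    rw [g3]; ring
  have h10 : vx ^ 20 * vy ^ 5 ∈ Q3 ^ 3 := by convert mem3 m1 m1 m5 using 1; ring
  have h11 : vx ^ 22 * vy ^ 4 ∈ Q3 ^ 3 := by convert mem3 m1 m1 m4 using 1; ring
  have h12 : vx ^ 24 * vy ^ 3 ∈ Q3 ^ 3 := by
    convert Ideal.sub_mem _ (Ideal.sub_mem _ (Ideal.sub_mem _ (mem3 m2 m2 m2)
      (Ideal.mul_mem_left _ (3 * vz) h11)) (Ideal.mul_mem_left _ (3 * vz ^ 2) h10))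
      (Ideal.mul_mem_left _ (vz ^ 3) h9) using 1
    rw [g3]; ring
  have h13 : vx ^ 26 * vy ^ 2 ∈ Q3 ^ 3 := by
    convert Ideal.sub_mem _ (Ideal.sub_mem _ (mem3 m1 m2 m2) (Ideal.mul_mem_left _ (2 * vz) h12))
      (Ideal.mul_mem_left _ (vz ^ 2) h11) using 1
    rw [g3]; ring
  have h14 : vx ^ 28 * vy ∈ Q3 ^ 3 := by
    convert Ideal.sub_mem _ (mem3 m1 m1 m2) (Ideal.mul_mem_left _ vz h13) using 1
    rw [g3]; ring
  have h15 : vx ^ 30 ∈ Q3 ^ 3 := by convert mem3 m1 m1 m1 using 1; ring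
  unfold TT
  rw [Ideal.span_le]
  rintro x ⟨i, hi, rfl⟩
  interval_cases i <;> simp only [SetLike.mem_coe] <;> norm_num
  · exact h0
  · exact h1
  · exact h2
  · exact h3
  · exact h4
  · exact h5
  · exact h6
  · exact h7
  · exact h8
  · exact h9
  · exact h10
  · exact h11
  · exact h12
  · exact h13
  · exact h14
  · exact h15

theorem TT_le_pow (s : ℕ) : TT (5 * (s + 3)) ≤ Q3 ^ (s + 3) := by
  induction s with
  | zero => exact TT15_le
  | succ s ih =>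
    have e : Q3 ^ (s + 1 + 3) = Q3 ^ (s + 3) * Q3 := by ring
    rw [e]
    unfold TT
    rw [Ideal.span_le]
    rintro x ⟨i, hi, rfl⟩
    rcases Nat.lt_or_ge i 5 with h | h
    · have e2 : vx ^ (2 * i) * vy ^ (5 * (s + 1 + 3) - i)
          = (vx ^ (2 * i) * vy ^ (5 * (s + 3) - i)) * vy ^ 5 := by
        have : 5 * (s + 1 + 3) - i = (5 * (s + 3) - i) + 5 := by omega
        rw [this]; ring
      rw [e2]
      exact Ideal.mul_mem_mul (ih (tt_mem _ i (by omega))) m5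
    · obtain ⟨j, rfl⟩ : ∃ j, i = j + 5 := ⟨i - 5, by omega⟩
      have e2 : vx ^ (2 * (j + 5)) * vy ^ (5 * (s + 1 + 3) - (j + 5))
          = (vx ^ (2 * j) * vy ^ (5 * (s + 3) - j)) * vx ^ 10 := by
        have : 5 * (s + 1 + 3) - (j + 5) = 5 * (s + 3) - j := by omega
        rw [this]; ring
      rw [e2]
      exact Ideal.mul_mem_mul (ih (tt_mem _ j (by omega))) m1

theorem Q3_pow (t : ℕ) (ht : 3 ≤ t) : Q3 ^ t = TT (5 * t) := by
  apply le_antisymm (Q3_pow_le t)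
  obtain ⟨s, rfl⟩ : ∃ s, t = s + 3 := ⟨t - 3, by omega⟩
  exact TT_le_pow s

end

end Pool.Agent.H408R3
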