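import Mathlib
import Pool.Agent.H408R3.Example1

set_option autoImplicit false

namespace Pool.Agent.H408R3

open MvPolynomial

noncomputable section

/-- exponent vector -/
def ex (a b c : ℕ) : Fin 3 →₀ ℕ :=
  Finsupp.single 0 a + Finsupp.single 1 b + Finsupp.single 2 c

theorem ex_le {a b c a' b' c' : ℕ} : ex a b c ≤ ex a' b' c' ↔ a ≤ a' ∧ b ≤ b' ∧ c ≤ c' := by
  constructor
  · intro h
    have h0 := h 0
    have h1 := h 1
    have h2 := h 2
    simp [ex] at h0 h1 h2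
    exact ⟨h0, h1, h2⟩
  · rintro ⟨h0, h1, h2⟩ i
    fin_cases i
    · simpa [ex] using h0
    · simpa [ex] using h1
    · simpa [ex] using h2

theorem ex_sub {a b c a' b' c' : ℕ} : ex a' b' c' - ex a b c = ex (a' - a) (b' - b) (c' - c) := by
  ext i
  fin_cases i <;> simp [ex]

theorem mon_eq (a b c : ℕ) : (vx ^ a * vy ^ b * vz ^ c : S3) = monomial (ex a b c) 1 := by
  rw [ex, vx, vy, vz, X_pow_eq_monomial, X_pow_eq_monomial, X_pow_eq_monomial, monomial_mul,
    monomial_mul]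
  simp

theorem coeff_mon (a b c a' b' c' : ℕ) (h : S3) :
    coeff (ex a b c) (h * (vx ^ a' * vy ^ b' * vz ^ c')) =
      if a' ≤ a ∧ b' ≤ b ∧ c' ≤ c then coeff (ex (a - a') (b - b') (c - c')) h else 0 := by
  rw [mon_eq, coeff_mul_monomial']
  simp only [ex_le, ex_sub, mul_one]

/-- the functional -/
def Lam (p : S3) : ℚ := coeff (ex 8 6 0) p - coeff (ex 6 7 1) p

theorem Lam_add (p q : S3) : Lam (p + q) = Lam p + Lam q := by
  simp only [Lam, coeff_add]; ring

/-- largest ideal killed by the functional -/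
def KK : Ideal S3 where
  carrier := {p | ∀ h : S3, Lam (h * p) = 0}
  add_mem' := by
    intro a b ha hb h
    rw [mul_add, Lam_add, ha h, hb h, add_zero]
  zero_mem' := by intro h; simp [Lam]
  smul_mem' := by
    intro c x hx h
    rw [smul_eq_mul, ← mul_assoc]
    exact hx _

theorem mem_KK {p : S3} : p ∈ KK ↔ ∀ h : S3, Lam (h * p) = 0 := Iff.rfl

theorem mon_mem_KK {a b c : ℕ} (h1 : ¬ (a ≤ 8 ∧ b ≤ 6 ∧ c ≤ 0)) (h2 : ¬ (a ≤ 6 ∧ b ≤ 7 ∧ c ≤ 1)) :
    (vx ^ a * vy ^ b * vz ^ c : S3) ∈ KK := by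
  rw [mem_KK]
  intro h
  rw [Lam, coeff_mon, coeff_mon, if_neg h1, if_neg h2, sub_zero]

theorem Q3sq_le : Q3 ^ 2 ≤ KK := by
  have key : ∀ a b c : ℕ, (¬ (a ≤ 8 ∧ b ≤ 6 ∧ c ≤ 0)) → (¬ (a ≤ 6 ∧ b ≤ 7 ∧ c ≤ 1)) →
      (vx ^ a * vy ^ b * vz ^ c : S3) ∈ KK := fun a b c h1 h2 => mon_mem_KK h1 h2
  rw [pow_two, Q3, Ideal.span_mul_span', Ideal.span_le]
  rintro x ⟨a, ha, b, hb, rfl⟩
  simp only [Set.mem_insert_iff, Set.mem_singleton_iff] at ha hb
  simp only [SetLike.mem_coe]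
  have big : ∀ (p : S3) (a : ℕ), 9 ≤ a → vx ^ a * p ∈ KK := by
    intro p a h
    rw [mul_comm]
    apply KK.mul_mem_left
    have := key a 0 0 (by omega) (by omega)
    simpa using this
  have bigy : ∀ (p : S3) (b : ℕ), 8 ≤ b → vy ^ b * p ∈ KK := by
    intro p b h
    rw [mul_comm]
    apply KK.mul_mem_left
    have := key 0 b 0 (by omega) (by omega)
    simpa using this
  have k25 : vx ^ 8 * vy ^ 6 + vz * vx ^ 6 * vy ^ 7 ∈ KK := by
    rw [mem_KK]
    intro h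
    have e : h * (vx ^ 8 * vy ^ 6 + vz * vx ^ 6 * vy ^ 7)
        = h * (vx ^ 8 * vy ^ 6 * vz ^ 0) + h * (vx ^ 6 * vy ^ 7 * vz ^ 1) := by ring
    rw [e, Lam_add, Lam, Lam, coeff_mon, coeff_mon, coeff_mon, coeff_mon]
    norm_num
  have k24 : vx ^ 10 * vy ^ 5 + vz * vx ^ 8 * vy ^ 6 ∈ KK := by
    apply KK.add_mem (big _ 10 (by norm_num))
    have := key 8 6 1 (by omega) (by omega)
    convert this using 1
    ring
  have k34 : vx ^ 8 * vy ^ 7 ∈ KK := by
    have := key 8 7 0 (by omega) (by omega)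
    convert this using 1
    ring
  rcases ha with rfl | rfl | rfl | rfl | rfl <;> rcases hb with rfl | rfl | rfl | rfl | rfl
  · convert big (vx ^ 10) 10 (by norm_num) using 1
  · exact big _ 10 (by norm_num)
  · exact big _ 10 (by norm_num)
  · exact big _ 10 (by norm_num)
  · exact big _ 10 (by norm_num)
  · rw [mul_comm]; exact big _ 10 (by norm_num)
  · convert big ((vx ^ 2 * vy + vz * vy ^ 2) ^ 2) 12 (by norm_num) using 1
    rw [g3]; ring
  · convert big ((vx ^ 2 * vy + vz * vy ^ 2) * vy ^ 3) 12 (by norm_num) using 1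
    rw [g3]; ring
  · convert k24 using 1
    rw [g3]; ring
  · convert k25 using 1
    rw [g3]; ring
  · rw [mul_comm]; exact big _ 10 (by norm_num)
  · convert big ((vx ^ 2 * vy + vz * vy ^ 2) * vy ^ 3) 12 (by norm_num) using 1
    rw [g3]; ring
  · convert big (vy ^ 6) 12 (by norm_num) using 1
    ring
  · convert k34 using 1
    ring
  · convert bigy (vx ^ 6) 8 (by norm_num) using 1
    ring
  · rw [mul_comm]; exact big _ 10 (by norm_num)
  · convert k24 using 1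
    rw [g3]; ring
  · convert k34 using 1
    ring
  · convert bigy (vx ^ 4) 8 (by norm_num) using 1
    ring
  · convert bigy (vx ^ 2) 9 (by norm_num) using 1
    ring
  · rw [mul_comm]; exact big _ 10 (by norm_num)
  · convert k25 using 1
    rw [g3]; ring
  · convert bigy (vx ^ 6) 8 (by norm_num) using 1
    ring
  · convert bigy (vx ^ 2) 9 (by norm_num) using 1
    ring
  · convert bigy 1 10 (by norm_num) using 1
    ring

theorem u_not_mem : vx ^ 8 * vy ^ 6 ∉ Q3 ^ 2 := by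
  intro h
  have := mem_KK.mp (Q3sq_le h) 1
  have e : (1 : S3) * (vx ^ 8 * vy ^ 6) = 1 * (vx ^ 8 * vy ^ 6 * vz ^ 0) := by ring
  rw [e, Lam, coeff_mon, coeff_mon] at this
  norm_num at this
  have e0 : ex 0 0 0 = 0 := by simp [ex]
  rw [e0] at this
  simp at this

theorem not_cover_sq : ¬ ∃ (m : ℕ) (f : (Fin m → S3) →ₗ[S3] ↥(Q3 ^ 2)), Function.Surjective f ∧
      Module.Projective S3 ↥(LinearMap.ker f) := by
  refine no_cover kosMid z_ne ?_ u_not_mem ?_ ?_ ?_
  · intro c hc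
    rcases (X_prime (R := ℚ) (σ := Fin 3) (i := 2)).dvd_or_dvd hc with h | h
    · exfalso
      rw [X_dvd_X] at h
      revert h; decide
    · exact h
  · have : vx ^ 2 * (vx ^ 8 * vy ^ 6) = vy * (vx ^ 10 * vy ^ 5) := by ring
    rw [this, pow_two]
    exact Ideal.mul_mem_left _ _ (Ideal.mul_mem_mul m1 m5)
  · have : vy * (vx ^ 8 * vy ^ 6) = (vx ^ 6 * vy ^ 3) * (vx ^ 2 * vy ^ 4) := by ring
    rw [this, pow_two]
    exact Ideal.mul_mem_mul m3 m4
  · have : vz * (vx ^ 8 * vy ^ 6) = g3 * (vx ^ 2 * vy ^ 4) - vx ^ 10 * vy ^ 5 := by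
      rw [g3]; ring
    rw [this, pow_two]
    exact Ideal.sub_mem _ (Ideal.mul_mem_mul m2 m4) (Ideal.mul_mem_mul m1 m5)

theorem Q3_le_ker : Q3 ≤ RingHom.ker (constantCoeff : S3 →+* ℚ) := by
  unfold Q3
  rw [Ideal.span_le]
  intro x hx
  simp only [Set.mem_insert_iff, Set.mem_singleton_iff] at hx
  rw [SetLike.mem_coe, RingHom.mem_ker]
  rcases hx with rfl | rfl | rfl | rfl | rfl <;> simp [g3]

theorem not_proj (t : ℕ) (ht : 1 ≤ t) : ¬ Module.Projective S3 ↥(Q3 ^ t) := by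
  have hne : Q3 ^ t ≠ ⊤ := by
    intro h
    have h1 : (1 : S3) ∈ Q3 ^ t := by rw [h]; trivial
    have h2 := Q3_le_ker (Ideal.pow_le_self (by omega) h1)
    rw [RingHom.mem_ker] at h2
    simp at h2
  refine not_projective_of_coprime (a := (vx ^ 10) ^ t) (b := (vy ^ 5) ^ t) hne
    (Ideal.pow_mem_pow m1 t) (Ideal.pow_mem_pow m5 t) (pow_ne_zero _ (pow_ne_zero _ y_ne)) ?_
  intro c hc
  rw [← pow_mul, ← pow_mul, mul_comm (vx ^ (10 * t)) c] at hc
  rw [← pow_mul]
  exact ypow_dvd_of hc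

theorem main_example :
    (∃ s : Set S3, (∀ p ∈ s, ∃ d : ℕ, IsHomogeneous p d) ∧ Q3 = Ideal.span s) ∧
    PdLe Q3 ∧ (∀ t, 3 ≤ t → PdLe (Q3 ^ t)) := by
  refine ⟨⟨_, ?_, rfl⟩, pdLe_Q3, ?_⟩
  · intro p hp
    simp only [Set.mem_insert_iff, Set.mem_singleton_iff] at hp
    have hx : ∀ n, IsHomogeneous (vx ^ n) n := by
      intro n
      have := (isHomogeneous_X ℚ (0 : Fin 3)).pow n
      simpa using this
    have hy : ∀ n, IsHomogeneous (vy ^ n) n := by
      intro n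
      have := (isHomogeneous_X ℚ (1 : Fin 3)).pow n
      simpa using this
    have hz : IsHomogeneous vz 1 := isHomogeneous_X ℚ (2 : Fin 3)
    rcases hp with rfl | rfl | rfl | rfl | rfl
    · exact ⟨10, hx 10⟩
    · refine ⟨9, ?_⟩
      rw [g3]
      apply IsHomogeneous.add
      · have := (hx 8).mul (hy 1)
        simpa using this
      · exact (hz.mul (hx 6)).mul (hy 2)
    · exact ⟨9, (hx 6).mul (hy 3)⟩
    · exact ⟨6, (hx 2).mul (hy 4)⟩
    · exact ⟨5, hy 5⟩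
  · intro t ht
    rw [Q3_pow t ht]
    exact pdLe_TT _

end

end Pool.Agent.H408R3
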