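import Mathlib
import Pool.Agent.H408R3.ChainVars

/-!
The element killed by `x, y, z_1, …, z_G`.
-/

set_option autoImplicit false

namespace Pool.Agent.H408R3

open MvPolynomial
open Pool.Agent.Helper698.Dstab

universe u

variable {K : Type u} [Field K] {T m : ℕ} {g : ℕ → ℕ}

/-- the position of the active gadget -/
noncomputable def jpos (T m n : ℕ) : Fin 2 →₀ ℕ :=
  ex (2 * (ee T m * T + ch m (act T n) 0) + 1)
    (DD T m * (n + 1) - (ee T m * T + ch m (act T n) 0))

theorem act_lt (hT : 1 ≤ T) (n : ℕ) : act T n < T := by unfold act; omega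

theorem act_le (n : ℕ) : act T n ≤ n := by unfold act; omega

theorem jbound (hT : 1 ≤ T) (n : ℕ) : ee T m * T + ch m (act T n) 0 ≤ DD T m * (n + 1) := by
  have h1 := ch_lt (m := m) (i := 0) (act_lt hT n) (by omega)
  calc ee T m * T + ch m (act T n) 0 ≤ ee T m * T + ee T m := by omega
    _ = ee T m * (T + 1) := by ring
    _ ≤ ee T m * ((2 * T + 1) * (n + 1)) := Nat.mul_le_mul_left _ (by
        have : (2 * T + 1) * (n + 1) = (2 * T + 1) * n + (2 * T + 1) := by ring
        omega)
    _ = _ := by unfold DD; ring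

theorem wt_jpos (hT : 1 ≤ T) (n : ℕ) : wt (jpos T m n) = 2 * DD T m * (n + 1) + 1 := by
  have h := jbound (m := m) hT n
  rw [jpos, wt_ex]
  have : 2 * DD T m * (n + 1) = 2 * (DD T m * (n + 1)) := by ring
  omega

theorem jpos_zero (n : ℕ) : (jpos T m n) 0 = 2 * (ee T m * T + ch m (act T n) 0) + 1 := ex_zero _ _

theorem jpos_uncov (hT : 1 ≤ T) (n : ℕ) : jpos T m n ∉ Pure T m n := by
  intro h
  have hw := wt_jpos (m := m) hT n
  have h0 := jpos_zero (T := T) (m := m) n
  rcases h with h | ⟨h, -⟩ | ⟨h, α, hα, h1⟩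
  · omega
  · omega
  · have e1 : α = ee T m * T + ch m (act T n) 0 := by omega
    subst e1
    rcases Nat.lt_or_ge n T with hn | hn
    · have e2 : act T n = n := by unfold act; omega
      rw [e2] at hα
      exact j_uncov hn le_rfl hα
    · have e2 : act T n = T - 1 := by unfold act; omega
      rw [e2] at hα
      exact tail_uncov hT hα

theorem jpos_not_b (hT : 1 ≤ T) (hgm : ∀ s, g s ≤ m) {R : Type u} [CommRing R] {z : ℕ → R} (n : ℕ)
    (j : Fin 2 →₀ ℕ) (ζ : R) : (jpos T m n, j, ζ) ∉ Bin T m g z n := by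
  rintro ⟨s, i, d, hs, hi, hig, hd, h1, h2, h3, h4, h5⟩
  dsimp only at h1 h2 h3 h4 h5
  rw [jpos_zero] at h2
  have hgs := hgm s
  have e1 : ee T m * T + ch m (act T n) 0 = ee T m * (T + 1 + s + d) + ch m s i := by omega
  obtain ⟨e2, e3⟩ := mod_unique (ch_lt (act_lt hT n) (by omega)) (ch_lt hs (by omega)) e1
  omega

/-- exponents -/
def kap (T m n i : ℕ) : ℕ := ee T m * (1 + act T n) + (i + 1)

/-- the coefficient ideal at the active position -/
theorem jpos_coef (hT : 1 ≤ T) (hgm : ∀ s, g s ≤ m) (n : ℕ) {a : Fin m →₀ ℕ} {b : Fin 2 →₀ ℕ}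
    (hb : b ∈ Pure T m n)
    (h : (b, jpos T m n, monomial a (1 : K)) ∈ Bin T m g (zz K m) n) :
    ∃ i : Fin m, i.val + 1 ≤ g (act T n) ∧ a = Finsupp.single i (kap T m n i) :=
  coefI_support hT hgm (jpos_uncov hT n) hb h

theorem zpow_mem (hT : 1 ≤ T) (hgm : ∀ s, g s ≤ m) (n : ℕ) (i : Fin m)
    (hi : i.val + 1 ≤ g (act T n)) :
    (monomial (Finsupp.single i (kap T m n i)) (1 : K)) ∈
      coefI (Pure T m n) (Bin T m g (zz K m) n) (jpos T m n) := by
  have hact := act_lt (T := T) hT n
  have hale := act_le (T := T) n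
  have him := i.isLt
  have hbd : ee T m * (T + 1 + act T n) + ch m (act T n) (i.val + 1) ≤ DD T m * (n + 1) := by
    have h1 := ch_lt (m := m) (i := i.val + 1) hact (by omega)
    calc ee T m * (T + 1 + act T n) + ch m (act T n) (i.val + 1) ≤
          ee T m * (T + 1 + act T n) + ee T m := by omega
      _ = ee T m * (T + 2 + act T n) := by ring
      _ ≤ ee T m * ((2 * T + 1) * (n + 1)) := Nat.mul_le_mul_left _ (by
          have : (2 * T + 1) * (n + 1) = (2 * T + 1) * n + (2 * T + 1) := by ring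
          omega)
      _ = _ := by unfold DD; ring
  have hw : wt (ex (2 * (ee T m * (T + 1 + act T n) + ch m (act T n) (i.val + 1)) + 1)
      (DD T m * (n + 1) - (ee T m * (T + 1 + act T n) + ch m (act T n) (i.val + 1)))) =
      2 * DD T m * (n + 1) + 1 := by
    rw [wt_ex]
    have : 2 * DD T m * (n + 1) = 2 * (DD T m * (n + 1)) := by ring
    omega
  refine mem_coefI_of (b := ex (2 * (ee T m * (T + 1 + act T n) + ch m (act T n) (i.val + 1)) + 1)
    (DD T m * (n + 1) - (ee T m * (T + 1 + act T n) + ch m (act T n) (i.val + 1)))) ?_ ?_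
  · refine ⟨act T n, i.val + 1, 0, hact, by omega, hi, zero_mem_Dset _ _, hw, ?_, wt_jpos hT n, ?_, ?_⟩
    · rw [add_zero]; exact ex_zero _ _
    · rw [add_zero]; exact jpos_zero n
    · rw [zz_pow _ _ _ ⟨by omega, by omega⟩]
      rfl
  · exact Or.inr (Or.inr ⟨hw, _, b_cov hact (by omega) (by omega) hale, ex_zero _ _⟩)

/-- the exponent of the coefficient -/
noncomputable def mu (T m n G : ℕ) : Fin m →₀ ℕ :=
  Finsupp.equivFunOnFinite.symm (fun i => if i.val + 1 ≤ G then kap T m n i - 1 else 0)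

theorem mu_apply (T m n G : ℕ) (i : Fin m) :
    mu T m n G i = if i.val + 1 ≤ G then kap T m n i - 1 else 0 := rfl

/-- the killed element -/
noncomputable def killed (K : Type u) [Field K] (T m n G : ℕ) :
    MvPolynomial (Fin 2) (MvPolynomial (Fin m) K) :=
  monomial (jpos T m n) (monomial (mu T m n G) 1)

theorem kap_pos (T m n i : ℕ) : 1 ≤ kap T m n i := by unfold kap; omega

theorem X_mul_killed (hT : 1 ≤ T) (n G : ℕ) (k : Fin 2) :
    X k * killed K T m n G ∈ PI T m g (zz K m) n := by
  have h1 : (X k : MvPolynomial (Fin 2) (MvPolynomial (Fin m) K)) * killed K T m n G =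
      monomial (Finsupp.single k 1 + jpos T m n) (monomial (mu T m n G) 1) := by
    rw [killed, X, monomial_mul, one_mul]
  rw [h1]
  apply mono_mem_lineI
  left
  rw [wt_add, wt_jpos hT]
  have : 1 ≤ wt (Finsupp.single k 1 : Fin 2 →₀ ℕ) := wt_pos (by simp)
  omega

theorem Z_mul_killed (hT : 1 ≤ T) (hgm : ∀ s, g s ≤ m) (n : ℕ) (i : Fin m)
    (hi : i.val + 1 ≤ g (act T n)) :
    C (X i) * killed K T m n (g (act T n)) ∈ PI T m g (zz K m) n := by
  have h1 : (X i : MvPolynomial (Fin m) K) * monomial (mu T m n (g (act T n))) 1 =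
      monomial (mu T m n (g (act T n)) - Finsupp.single i (kap T m n i - 1)) 1 *
        monomial (Finsupp.single i (kap T m n i)) 1 := by
    rw [X, monomial_mul, monomial_mul, one_mul]
    have he : Finsupp.single i 1 + mu T m n (g (act T n)) =
        (mu T m n (g (act T n)) - Finsupp.single i (kap T m n i - 1)) +
          Finsupp.single i (kap T m n i) := by
      ext k
      have hk := kap_pos T m n i
      by_cases hki : k = i
      · subst hki
        simp only [Finsupp.add_apply, Finsupp.tsub_apply, Finsupp.single_eq_same, mu_apply, if_pos hi]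
        omega
      · simp only [Finsupp.add_apply, Finsupp.tsub_apply, Finsupp.single_eq_of_ne hki]
        omega
    rw [he]
  rw [killed, C_mul_monomial, h1]
  have h2 := mono_mem_of_coefI (σ := Fin 2) (Cv := Pure T m n) (B := Bin T m g (zz K m) n)
    (⊥ : Ideal (MvPolynomial (Fin m) K)) (q := jpos T m n)
    (r := monomial (mu T m n (g (act T n)) - Finsupp.single i (kap T m n i - 1)) 1 *
        monomial (Finsupp.single i (kap T m n i)) 1) (by
      rw [sup_bot_eq]
      exact Ideal.mul_mem_left _ _ (zpow_mem hT hgm n i hi))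
  rw [Ideal.map_bot, sup_bot_eq] at h2
  exact h2

theorem coeff_rho (hT : 1 ≤ T) (hgm : ∀ s, g s ≤ m) {R : Type u} [CommRing R] {z : ℕ → R} (n : ℕ)
    (c : R) (h : MvPolynomial (Fin 2) R) :
    coeff (jpos T m n) (rho (Pure T m n) (Bin T m g z n) (h * monomial (jpos T m n) c)) =
      coeff 0 h * c := by
  classical
  induction h using MvPolynomial.induction_on' with
  | monomial v r =>
    rw [monomial_mul, rho_monomial, coeff_monomial]
    by_cases hv : v = 0
    · subst hv
      rw [if_pos rfl, zero_add, rhoFun_other (jpos_uncov hT n) (fun j ζ => jpos_not_b hT hgm n j ζ),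
        smul_monomial, smul_eq_mul, mul_one, coeff_monomial, if_pos rfl]
    · rw [if_neg hv, rhoFun_cov, smul_zero, coeff_zero, zero_mul]
      left
      rw [wt_add, wt_jpos hT]
      have := wt_pos hv
      omega
  | add p q hp hq =>
    rw [add_mul, map_add, coeff_add, hp, hq, coeff_add, add_mul]

theorem killed_colon (hT : 1 ≤ T) (hgm : ∀ s, g s ≤ m) (n : ℕ)
    (h : MvPolynomial (Fin 2) (MvPolynomial (Fin m) K))
    (hh : h * killed K T m n (g (act T n)) ∈ PI T m g (zz K m) n) :
    coeff 0 (coeff 0 h) = 0 := by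
  have h1 : h * killed K T m n (g (act T n)) ∈
      lineI (Pure T m n) (Bin T m g (zz K m) n) ⊔ (⊥ : Ideal (MvPolynomial (Fin m) K)).map C := by
    rw [Ideal.map_bot, sup_bot_eq]; exact hh
  rw [mem_lineI_sup_iff (good_n hgm n)] at h1
  have h2 := h1 (jpos T m n)
  rw [killed, coeff_rho hT hgm, sup_bot_eq, coefI_eq_span hT hgm (jpos_uncov hT n),
    mem_ideal_span_monomial_image] at h2
  by_contra hne
  have h3 : mu T m n (g (act T n)) ∈
      ((coeff 0 h) * monomial (mu T m n (g (act T n))) (1 : K)).support := by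
    rw [mem_support_iff]
    have := coeff_mul_monomial (0 : Fin m →₀ ℕ) (mu T m n (g (act T n))) (1 : K) (coeff 0 h)
    rw [zero_add, mul_one] at this
    rw [this]
    exact hne
  obtain ⟨a, ⟨b, hb, hB⟩, hle⟩ := h2 _ h3
  obtain ⟨i, hi, rfl⟩ := jpos_coef hT hgm n hb hB
  have h4 := hle i
  rw [Finsupp.single_eq_same, mu_apply, if_pos hi] at h4
  have := kap_pos T m n i
  omega

end Pool.Agent.H408R3
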