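import Mathlib
import Pool.Agent.H408R3.Dig2
import Pool.Agent.H408R3.EvPd

/-!
The monomial ideal and its powers.
-/

set_option autoImplicit false

namespace Pool.Agent.H408R3.PDF

open MvPolynomial
open Pool.Agent.Helper698.Dstab
open Pool.Agent.Helper698.Symb

universe u

/-- degree parameter -/
def D2 (T p : ℕ) : ℕ := (T + 1) * AA T p

/-- exponents of the `(n+1)`-st power -/
def EE (T p : ℕ) (G : ℕ → ℕ) (n : ℕ) : Set (Fin (p + 2) →₀ ℕ) :=
  {γ | 2 * D2 T p * (n + 1) + 2 ≤ w2 γ ∨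
    (w2 γ = 2 * D2 T p * (n + 1) ∧ ∃ d ∈ DS T p (n + 1), γ 0 = 2 * ((T + 1) * d)) ∨
    (w2 γ = 2 * D2 T p * (n + 1) + 1 ∧ ∃ α, γ 0 = 2 * α + 1 ∧ (α ∈ Cov T p n ∨
      ∃ (s : ℕ) (i : Fin p) (d : ℕ), s < T ∧ i.val < G s ∧ d ∈ DS T p n ∧
        α = (T + 1) * (cc T p s i + d) + (s + 1) ∧ 1 ≤ γ i.succ.succ))}

variable {T p : ℕ} {G : ℕ → ℕ}

theorem EE_add (n : ℕ) (γ v : Fin (p + 2) →₀ ℕ) (hγ : γ ∈ EE T p G n) : γ + v ∈ EE T p G n := by
  by_cases hv : w2 v = 0
  · have hv0 : v 0 = 0 := by unfold w2 at hv; omega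
    have hw : w2 (γ + v) = w2 γ := by rw [w2_add, hv, add_zero]
    have h0 : (γ + v) 0 = γ 0 := by rw [Finsupp.add_apply, hv0, add_zero]
    rcases hγ with h | ⟨h, hd⟩ | ⟨h, α, hα, h1 | ⟨s, i, d, hs, hi, hd, he, hz⟩⟩
    · left; rw [hw]; exact h
    · right; left; rw [hw, h0]; exact ⟨h, hd⟩
    · right; right; rw [hw, h0]; exact ⟨h, α, hα, Or.inl h1⟩
    · right; right
      rw [hw, h0]
      exact ⟨h, α, hα, Or.inr ⟨s, i, d, hs, hi, hd, he, by rw [Finsupp.add_apply]; omega⟩⟩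
  · rcases hγ with h | ⟨h, d, hd, h0⟩ | ⟨h, -⟩
    · left; rw [w2_add]; omega
    · by_cases hv1 : w2 v = 1
      · right; right
        have hv0 : v 0 = 1 := by unfold w2 at hv1; omega
        refine ⟨by rw [w2_add]; omega, (T + 1) * d, ?_, Or.inl ?_⟩
        · rw [Finsupp.add_apply]; omega
        · obtain ⟨d1, hd1, d2, hd2, rfl⟩ := DS_succ hd
          exact ⟨d1, hd1, (T + 1) * d2, Or.inl ⟨d2, hd2, rfl⟩, by ring⟩
      · left; rw [w2_add]; omega
    · left; rw [w2_add]; omega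

theorem EE_upper (n : ℕ) : IsUpperSet (EE T p G n) := by
  intro a b hab ha
  have : b = a + (b - a) := (add_tsub_cancel_of_le hab).symm
  rw [this]
  exact EE_add n a _ ha

theorem EE_wt {n : ℕ} {γ : Fin (p + 2) →₀ ℕ} (h : γ ∈ EE T p G n) :
    2 * D2 T p * (n + 1) ≤ w2 γ := by
  rcases h with h | h | h <;> omega

theorem EE_mul {n : ℕ} {a b : Fin (p + 2) →₀ ℕ} (ha : a ∈ EE T p G n) (hb : b ∈ EE T p G 0) :
    a + b ∈ EE T p G (n + 1) := by
  have e0 : 2 * D2 T p * (n + 1 + 1) = 2 * D2 T p * (n + 1) + 2 * D2 T p * (0 + 1) := by ring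
  have hwa := EE_wt ha
  have hwb := EE_wt hb
  rcases ha with h | ⟨h, d, hd, h0⟩ | ⟨h, α, hα, h1⟩
  · left; rw [w2_add]; omega
  · rcases hb with h' | ⟨h', d', hd', h0'⟩ | ⟨h', α', hα', h1'⟩
    · left; rw [w2_add]; omega
    · right; left
      refine ⟨by rw [w2_add]; omega, d + d', DS_add hd hd', ?_⟩
      rw [Finsupp.add_apply, h0, h0']; ring
    · right; right
      refine ⟨by rw [w2_add]; omega, (T + 1) * d + α', ?_, ?_⟩
      · rw [Finsupp.add_apply, h0, hα']; ring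
      · rcases h1' with ⟨d0, hd0, x, hx, rfl⟩ | ⟨s, i, d0, hs, hi, hd0, rfl, hz⟩
        · rw [DS_zero.1 hd0]
          exact Or.inl ⟨d, hd, x, hx, by ring⟩
        · rw [DS_zero.1 hd0]
          exact Or.inr ⟨s, i, d, hs, hi, hd, by ring, by rw [Finsupp.add_apply]; omega⟩
  · rcases hb with h' | ⟨h', d', hd', h0'⟩ | ⟨h', α', hα', h1'⟩
    · left; rw [w2_add]; omega
    · right; right
      refine ⟨by rw [w2_add]; omega, α + (T + 1) * d', ?_, ?_⟩
      · rw [Finsupp.add_apply, h0', hα]; ring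
      · rcases h1 with ⟨d0, hd0, x, hx, rfl⟩ | ⟨s, i, d0, hs, hi, hd0, rfl, hz⟩
        · exact Or.inl ⟨d0 + d', DS_add hd0 hd', x, hx, by ring⟩
        · exact Or.inr ⟨s, i, d0 + d', hs, hi, DS_add hd0 hd', by ring,
            by rw [Finsupp.add_apply]; omega⟩
    · left; rw [w2_add]; omega

/-- exponents in the first two variables -/
noncomputable def ex2 (p a b : ℕ) : Fin (p + 2) →₀ ℕ := Finsupp.single 0 a + Finsupp.single 1 b

theorem ex2_zero (a b : ℕ) : ex2 p a b 0 = a := by simp [ex2]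

theorem ex2_one (a b : ℕ) : ex2 p a b 1 = b := by simp [ex2]

theorem ex2_z (a b : ℕ) (i : Fin p) : ex2 p a b i.succ.succ = 0 := by
  have h1 : i.succ.succ ≠ (0 : Fin (p + 2)) := Fin.succ_ne_zero _
  have h2 : i.succ.succ ≠ (1 : Fin (p + 2)) := by
    rw [← Fin.succ_zero_eq_one]
    intro h
    exact Fin.succ_ne_zero _ (Fin.succ_injective _ h)
  simp [ex2, Finsupp.single_eq_of_ne h1, Finsupp.single_eq_of_ne h2]

theorem ex2_le {γ : Fin (p + 2) →₀ ℕ} {a b : ℕ} (ha : a ≤ γ 0) (hb : b ≤ γ 1) : ex2 p a b ≤ γ := by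
  intro i
  refine Fin.cases ?_ (fun i => Fin.cases ?_ (fun i => ?_) i) i
  · rw [ex2_zero]; exact ha
  · rw [Fin.succ_zero_eq_one, ex2_one]; exact hb
  · rw [ex2_z]; exact Nat.zero_le _

theorem w2_ex2 (a b : ℕ) : w2 (ex2 p a b) = a + 2 * b := by
  unfold w2
  rw [ex2_zero, ex2_one]

theorem D2_mul (k : ℕ) : (T + 1) * (k * AA T p) = D2 T p * k := by unfold D2; ring

theorem line0 {d : ℕ} (hd : d ∈ DS T p 1) :
    ex2 p (2 * ((T + 1) * d)) (D2 T p - (T + 1) * d) ∈ EE T p G 0 := by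
  right; left
  have h1 : (T + 1) * d ≤ D2 T p := by
    have := DS_le hd
    rw [one_mul] at this
    exact Nat.mul_le_mul_left _ this
  refine ⟨?_, d, hd, ex2_zero _ _⟩
  rw [w2_ex2]; omega

theorem EE_split (hp : 1 ≤ p) {n : ℕ} {γ : Fin (p + 2) →₀ ℕ} (hγ : γ ∈ EE T p G (n + 1)) :
    ∃ a ∈ EE T p G n, ∃ b ∈ EE T p G 0, γ = a + b := by
  have e0 : 2 * D2 T p * (n + 1 + 1) = 2 * (D2 T p * (n + 1)) + 2 * D2 T p := by ring
  have e1 : 2 * D2 T p * (n + 1) = 2 * (D2 T p * (n + 1)) := by ring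
  have e2 : D2 T p * (n + 1) = D2 T p * n + D2 T p := by ring
  -- general splitting
  have key : ∀ x y : ℕ, x ≤ γ 0 → y ≤ γ 1 → ex2 p x y ∈ EE T p G 0 →
      γ - ex2 p x y ∈ EE T p G n → ∃ a ∈ EE T p G n, ∃ b ∈ EE T p G 0, γ = a + b := by
    intro x y hx hy h1 h2
    exact ⟨_, h2, _, h1, (tsub_add_cancel_of_le (ex2_le hx hy)).symm⟩
  have hw : ∀ x y : ℕ, x ≤ γ 0 → y ≤ γ 1 → w2 (γ - ex2 p x y) + (x + 2 * y) = w2 γ := by
    intro x y hx hy
    rw [← w2_ex2 (p := p), ← w2_add, tsub_add_cancel_of_le (ex2_le hx hy)]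
  rcases hγ with h | ⟨h, d, hd, h0⟩ | ⟨h, α, hα, h1⟩
  · by_cases hb : D2 T p ≤ γ 1
    · refine key 0 (D2 T p) (Nat.zero_le _) hb ?_ (Or.inl ?_)
      · have := line0 (G := G) (zero_mem_DS (T := T) (p := p) 1)
        simpa using this
      · have := hw 0 (D2 T p) (Nat.zero_le _) hb
        omega
    · have ha : 2 * D2 T p ≤ γ 0 := by
        unfold w2 at h; omega
      refine key (2 * D2 T p) 0 ha (Nat.zero_le _) ?_ (Or.inl ?_)
      · have := line0 (G := G) (AA_mem (T := T) (p := p))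
        have e3 : (T + 1) * AA T p = D2 T p := rfl
        rw [e3, Nat.sub_self] at this
        exact this
      · have := hw (2 * D2 T p) 0 ha (Nat.zero_le _)
        omega
  · obtain ⟨d1, hd1, d2, hd2, rfl⟩ := DS_succ hd
    have hle1 : (T + 1) * d1 ≤ D2 T p * (n + 1) := by
      rw [← D2_mul]; exact Nat.mul_le_mul_left _ (DS_le hd1)
    have hle2 : (T + 1) * d2 ≤ D2 T p := by
      have := DS_le hd2
      rw [one_mul] at this
      exact Nat.mul_le_mul_left _ this
    have e3 : (T + 1) * (d1 + d2) = (T + 1) * d1 + (T + 1) * d2 := by ring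
    have hx : 2 * ((T + 1) * d2) ≤ γ 0 := by omega
    have hy : D2 T p - (T + 1) * d2 ≤ γ 1 := by unfold w2 at h; omega
    refine key _ _ hx hy (line0 hd2) (Or.inr (Or.inl ⟨?_, d1, hd1, ?_⟩))
    · have := hw _ _ hx hy
      omega
    · rw [Finsupp.tsub_apply, ex2_zero]; omega
  · obtain ⟨d1, d2, α1, hd1, hd2, hα1, hle1, h2⟩ : ∃ d1 d2 α1, d1 ∈ DS T p n ∧ d2 ∈ DS T p 1 ∧
        α = α1 + (T + 1) * d2 ∧ α1 ≤ D2 T p * (n + 1) ∧ (α1 ∈ Cov T p n ∨
        ∃ (s : ℕ) (i : Fin p) (d : ℕ), s < T ∧ i.val < G s ∧ d ∈ DS T p n ∧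
        α1 = (T + 1) * (cc T p s i + d) + (s + 1) ∧ 1 ≤ γ i.succ.succ) := by
      rcases h1 with ⟨d, hd, x, hx, rfl⟩ | ⟨s, i, d, hs, hi, hd, rfl, hz⟩
      · obtain ⟨d1, hd1, d2, hd2, rfl⟩ := DS_succ hd
        refine ⟨d1, d2, (T + 1) * d1 + x, hd1, hd2, by ring, ?_, Or.inl ⟨d1, hd1, x, hx, rfl⟩⟩
        have h3 : (T + 1) * d1 ≤ D2 T p * n := by
          rw [← D2_mul]; exact Nat.mul_le_mul_left _ (DS_le hd1)
        have h4 : x ≤ D2 T p := PP_le hx
        omega
      · obtain ⟨d1, hd1, d2, hd2, rfl⟩ := DS_succ hd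
        refine ⟨d1, d2, (T + 1) * (cc T p s i + d1) + (s + 1), hd1, hd2, by ring, ?_,
          Or.inr ⟨s, i, d1, hs, hi, hd1, rfl, hz⟩⟩
        have h3 : (T + 1) * d1 ≤ D2 T p * n := by
          rw [← D2_mul]; exact Nat.mul_le_mul_left _ (DS_le hd1)
        have h4 : (T + 1) * cc T p s i + (T + 1) ≤ D2 T p := by
          have h5 := AA_gt (T := T) hp
          have h6 := cc_add (T := T) (p := p) hs i.isLt
          calc (T + 1) * cc T p s i + (T + 1) = (T + 1) * (cc T p s i + 1) := by ring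
            _ ≤ (T + 1) * AA T p := Nat.mul_le_mul_left _ (by omega)
        have h7 : (T + 1) * (cc T p s i + d1) = (T + 1) * cc T p s i + (T + 1) * d1 := by ring
        omega
    have hle2 : (T + 1) * d2 ≤ D2 T p := by
      have := DS_le hd2
      rw [one_mul] at this
      exact Nat.mul_le_mul_left _ this
    have hx : 2 * ((T + 1) * d2) ≤ γ 0 := by omega
    have hy : D2 T p - (T + 1) * d2 ≤ γ 1 := by unfold w2 at h; omega
    refine key _ _ hx hy (line0 hd2) (Or.inr (Or.inr ⟨?_, α1, ?_, ?_⟩))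
    · have := hw _ _ hx hy
      omega
    · rw [Finsupp.tsub_apply, ex2_zero]; omega
    · rcases h2 with h2 | ⟨s, i, d, hs, hi, hd, he, hz⟩
      · exact Or.inl h2
      · refine Or.inr ⟨s, i, d, hs, hi, hd, he, ?_⟩
        rw [Finsupp.tsub_apply, ex2_z]; omega

variable {K : Type u} [Field K]

/-- the powers -/
theorem MI_pow (hp : 1 ≤ p) (n : ℕ) : (MI K (EE T p G 0)) ^ (n + 1) = MI K (EE T p G n) := by
  induction n with
  | zero => rw [zero_add, pow_one]
  | succ n ih =>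
    rw [pow_succ, ih]
    apply le_antisymm
    · rw [MI, MI, Ideal.span_mul_span', Ideal.span_le]
      rintro _ ⟨_, ⟨a, ha, rfl⟩, _, ⟨b, hb, rfl⟩, rfl⟩
      show monomial a (1 : K) * monomial b 1 ∈ MI K (EE T p G (n + 1))
      rw [monomial_mul]
      exact monomial_mem_MI (EE_mul ha hb) _
    · rw [MI, Ideal.span_le]
      rintro _ ⟨γ, hγ, rfl⟩
      obtain ⟨a, ha, b, hb, rfl⟩ := EE_split hp hγ
      have : monomial (a + b) (1 : K) = monomial a 1 * monomial b 1 := by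
        rw [monomial_mul, one_mul]
      show monomial (a + b) (1 : K) ∈ _
      rw [this]
      exact Ideal.mul_mem_mul (monomial_mem_MI ha 1) (monomial_mem_MI hb 1)

/-- the active gadget -/
def ac (T n : ℕ) : ℕ := min n (T - 1)

theorem card_bound (hT : 1 ≤ T) (hG1 : ∀ s, 1 ≤ G s) {n α : ℕ}
    (hα : α ∉ Cov T p n) (U : Finset (Fin p))
    (hU : ∀ i ∈ U, ∃ s d, s < T ∧ i.val < G s ∧ d ∈ DS T p n ∧
      α = (T + 1) * (cc T p s i + d) + (s + 1)) : U.card ≤ G (ac T n) := by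
  classical
  rcases U.eq_empty_or_nonempty with rfl | ⟨i0, hi0⟩
  · simp
  obtain ⟨s0, d0, hs0, hi00, hd0, he0⟩ := hU i0 hi0
  -- everything lies on the same channel
  have hch : ∀ i ∈ U, ∃ d, i.val < G s0 ∧ d ∈ DS T p n ∧ cc T p s0 i + d = cc T p s0 i0 + d0 := by
    intro i hi
    obtain ⟨s, d, hs, hi1, hd, he⟩ := hU i hi
    rw [he0] at he
    obtain ⟨h1, h2⟩ := mod_unique (by omega) (by omega) he
    obtain rfl : s0 = s := by omega
    exact ⟨d, hi1, hd, h1.symm⟩
  rcases Nat.lt_or_ge n s0 with h1 | h1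
  · -- early: at most one
    have h2 : U ⊆ {i0} := by
      intro i hi
      obtain ⟨d, -, hd, he⟩ := hch i hi
      have := F1 hs0 h1 i.isLt i0.isLt hd hd0 he
      rw [Finset.mem_singleton]
      exact Fin.ext this
    have h3 := Finset.card_le_card h2
    rw [Finset.card_singleton] at h3
    exact h3.trans (hG1 _)
  · have h3 : ¬ (s0 + 1 ≤ n ∧ s0 + 1 < T) := by
      rintro ⟨h4, h5⟩
      obtain ⟨w, hw1, hw2, δ, hδ, he⟩ := F2 hs0 h4 i0.isLt hd0
      apply hα
      rw [he0, Cov_channel hs0]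
      exact ⟨h5, w, hw1, hw2, δ, hδ, he⟩
    have h4 : ac T n = s0 := by unfold ac; omega
    rw [h4]
    have h5 : U ⊆ Finset.univ.filter (fun i : Fin p => i.val < G s0) := by
      intro i hi
      obtain ⟨d, hi1, -, -⟩ := hch i hi
      rw [Finset.mem_filter]
      exact ⟨Finset.mem_univ _, hi1⟩
    refine (Finset.card_le_card h5).trans ?_
    rw [Fin.card_filter_val_lt]
    exact min_le_right _ _

theorem PD_EE (hT : 1 ≤ T) (hG1 : ∀ s, 1 ≤ G s) (hGp : ∀ s, G s ≤ p) (n : ℕ) :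
    PD (R := MvPolynomial (Fin (p + 2)) K) (MvPolynomial (Fin (p + 2)) K ⧸ MI K (EE T p G n))
      (G (ac T n) + 3) := by
  classical
  refine PD_filtration (EE T p G n) (EE_upper n) (2 * D2 T p * (n + 1) + 2) (fun γ h => Or.inl h)
    (G (ac T n)) ?_
  intro a ha haz
  by_cases hw : w2 a = 2 * D2 T p * (n + 1) + 1
  · obtain ⟨α, hα⟩ : ∃ α, a 0 = 2 * α + 1 := by
      refine ⟨(a 0 - 1) / 2, ?_⟩
      have : a 0 + 2 * a 1 = 2 * (D2 T p * (n + 1)) + 1 := by
        have h1 : w2 a = a 0 + 2 * a 1 := rfl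
        rw [← h1, hw]; ring
      omega
    have hcov : α ∉ Cov T p n := fun h => ha (Or.inr (Or.inr ⟨hw, α, hα, Or.inl h⟩))
    let U : Finset (Fin p) := Finset.univ.filter (fun i => ∃ s d, s < T ∧ i.val < G s ∧
      d ∈ DS T p n ∧ α = (T + 1) * (cc T p s i + d) + (s + 1))
    refine ⟨U, card_bound hT hG1 hcov U (fun i hi => (Finset.mem_filter.1 hi).2), ?_⟩
    intro β hβ0 hβ1
    have hwβ : w2 (a + β) = w2 a := by
      rw [w2_add]; unfold w2; omega
    have h0β : (a + β) 0 = a 0 := by rw [Finsupp.add_apply, hβ0, add_zero]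
    constructor
    · rintro (h | ⟨h, -⟩ | ⟨h, α', hα', h1⟩)
      · omega
      · omega
      · have : α' = α := by omega
        subst this
        rcases h1 with h1 | ⟨s, i, d, hs, hi, hd, he, hz⟩
        · exact absurd h1 hcov
        · refine ⟨i, Finset.mem_filter.2 ⟨Finset.mem_univ _, s, d, hs, hi, hd, he⟩, ?_⟩
          rw [Finsupp.add_apply, haz] at hz
          omega
    · rintro ⟨i, hi, hne⟩
      obtain ⟨s, d, hs, hi1, hd, he⟩ := (Finset.mem_filter.1 hi).2
      refine Or.inr (Or.inr ⟨by omega, α, by omega, Or.inr ⟨s, i, d, hs, hi1, hd, he, ?_⟩⟩)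
      rw [Finsupp.add_apply]; omega
  · refine ⟨∅, by simp, ?_⟩
    intro β hβ0 hβ1
    have hwβ : w2 (a + β) = w2 a := by
      rw [w2_add]; unfold w2; omega
    have h0β : (a + β) 0 = a 0 := by rw [Finsupp.add_apply, hβ0, add_zero]
    constructor
    · rintro (h | ⟨h, d, hd, h0⟩ | ⟨h, -⟩)
      · exact absurd (Or.inl (by omega)) ha
      · exact absurd (Or.inr (Or.inl ⟨by omega, d, hd, by omega⟩)) ha
      · omega
    · rintro ⟨i, hi, -⟩
      simp at hi

/-- the killed exponent -/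
noncomputable def ke (T p n : ℕ) : Fin (p + 2) →₀ ℕ :=
  ex2 p (2 * ((T + 1) * jj T p + (ac T n + 1)) + 1)
    (D2 T p * (n + 1) - ((T + 1) * jj T p + (ac T n + 1)))

theorem ke_bound (hp : 1 ≤ p) (hT : 1 ≤ T) (n : ℕ) :
    (T + 1) * jj T p + (ac T n + 1) ≤ D2 T p * (n + 1) := by
  have h1 : ac T n + 1 ≤ T + 1 := by unfold ac; omega
  have h2 := AA_gt (T := T) hp
  calc (T + 1) * jj T p + (ac T n + 1) ≤ (T + 1) * jj T p + (T + 1) := by omega
    _ = (T + 1) * (jj T p + 1) := by ring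
    _ ≤ (T + 1) * AA T p := Nat.mul_le_mul_left _ (by omega)
    _ = D2 T p * 1 := by unfold D2; ring
    _ ≤ D2 T p * (n + 1) := Nat.mul_le_mul_left _ (by omega)

theorem w2_ke (hp : 1 ≤ p) (hT : 1 ≤ T) (n : ℕ) : w2 (ke T p n) = 2 * D2 T p * (n + 1) + 1 := by
  have h := ke_bound hp hT n
  have e : 2 * D2 T p * (n + 1) = 2 * (D2 T p * (n + 1)) := by ring
  rw [ke, w2_ex2]
  omega

theorem ke_notMem (hp : 1 ≤ p) (hT : 1 ≤ T) (n : ℕ) : ke T p n ∉ EE T p G n := by
  have hw := w2_ke hp hT n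
  have h0 : ke T p n 0 = 2 * ((T + 1) * jj T p + (ac T n + 1)) + 1 := ex2_zero _ _
  rintro (h | ⟨h, -⟩ | ⟨h, α, hα, h1⟩)
  · omega
  · omega
  · have e : α = (T + 1) * jj T p + (ac T n + 1) := by omega
    subst e
    rcases h1 with h1 | ⟨s, i, d, hs, hi, hd, he, hz⟩
    · rw [Cov_channel (by unfold ac; omega)] at h1
      obtain ⟨h2, w, hw1, hw2, δ, hδ, he⟩ := h1
      apply hw2
      have h3 : ac T n = n := by unfold ac at h2 ⊢; omega
      rw [h3]
      exact ⟨δ, hδ, he.symm⟩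
    · rw [ke, ex2_z] at hz
      omega

theorem ke_z (hp : 1 ≤ p) (hT : 1 ≤ T) (n : ℕ) (i : Fin p) (hi : i.val < G (ac T n)) :
    ke T p n + Finsupp.single i.succ.succ 1 ∈ EE T p G n := by
  have hw := w2_ke hp hT n
  have hac : ac T n < T := by unfold ac; omega
  have hw' : w2 (Finsupp.single i.succ.succ 1 : Fin (p + 2) →₀ ℕ) = 0 := by
    have h1 : (0 : Fin (p + 2)) ≠ i.succ.succ := (Fin.succ_ne_zero _).symm
    have h2 : (1 : Fin (p + 2)) ≠ i.succ.succ := by
      rw [← Fin.succ_zero_eq_one]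
      intro h
      exact Fin.succ_ne_zero _ (Fin.succ_injective _ h.symm)
    unfold w2
    rw [Finsupp.single_eq_of_ne h1, Finsupp.single_eq_of_ne h2]; rfl
  have h0' : (Finsupp.single i.succ.succ 1 : Fin (p + 2) →₀ ℕ) 0 = 0 := by
    unfold w2 at hw'; omega
  refine Or.inr (Or.inr ⟨by rw [w2_add]; omega, (T + 1) * jj T p + (ac T n + 1), ?_,
    Or.inr ⟨ac T n, i, ac T n * (MM T) ^ i.val, hac, hi, pow_mem_DS i.isLt (by unfold ac; omega),
      ?_, ?_⟩⟩)
  · rw [Finsupp.add_apply, h0', ke, ex2_zero]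
  · rw [cc_add hac i.isLt]
  · rw [Finsupp.add_apply, Finsupp.single_eq_same]; omega

/-- the projective dimension of the powers -/
theorem pd_iff (hp : 1 ≤ p) (hT : 1 ≤ T) (hG1 : ∀ s, 1 ≤ G s) (hGp : ∀ s, G s ≤ p) (n m : ℕ) :
    PD (R := MvPolynomial (Fin (p + 2)) K) ↥((MI K (EE T p G 0)) ^ (n + 1)) (m + 1) ↔
      G (ac T n) + 1 ≤ m := by
  classical
  rw [MI_pow hp]
  have hup := EE_upper (T := T) (p := p) (G := G) n
  constructor
  · intro h
    have h1 := EV_of_PD m _ h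
    by_cases hm : p + 2 ≤ m
    · have := hGp (ac T n)
      omega
    have h2 : EV (kk K (p + 2)) (MvPolynomial (Fin (p + 2)) K ⧸ MI K (EE T p G n))
        (p + 2 - m - 1) :=
      EV_right _ _ (Submodule.injective_subtype _) (Submodule.mkQ_surjective _)
        (LinearMap.exact_subtype_mkQ _) (EV_ring.mono (by omega)) (h1.mono (by omega))
    have hle : MI K (EE T p G n) ≤ mm K (p + 2) := by
      intro f hf
      rw [mem_mm_iff]
      by_contra hne
      have h3 := (mem_MI hup f).1 hf 0 (mem_support_iff.2 hne)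
      have h4 := EE_wt h3
      have h5 : w2 (0 : Fin (p + 2) →₀ ℕ) = 0 := by simp [w2]
      have h6 := AA_gt (T := T) hp
      have h7 : 0 < 2 * D2 T p * (n + 1) := by
        unfold D2
        have : 0 < AA T p := by omega
        positivity
      omega
    obtain ⟨rs, hlen, hmem, hreg⟩ := exists_regular_of_EV _ hle _ h2
    let U : Finset (Fin (p + 2)) := Finset.univ.filter (fun j => j.val < G (ac T n) + 2)
    have hU : U.card = G (ac T n) + 2 := by
      rw [Fin.card_filter_val_lt]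
      have := hGp (ac T n)
      omega
    have h3 := len_le_of_killed (MI K (EE T p G n)) (monomial (ke T p n) 1) (by
        intro h hh
        rw [mem_mm_iff]
        by_contra hne
        apply ke_notMem (G := G) hp hT n
        apply (mem_MI hup _).1 hh
        rw [mem_support_iff]
        have := coeff_mul_monomial (0 : Fin (p + 2) →₀ ℕ) (ke T p n) (1 : K) h
        rw [zero_add, mul_one] at this
        rw [this]
        exact hne) U (by
        intro j hj
        have hj' : j.val < G (ac T n) + 2 := (Finset.mem_filter.1 hj).2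
        have h4 : (X j : MvPolynomial (Fin (p + 2)) K) * monomial (ke T p n) 1 =
            monomial (ke T p n + Finsupp.single j 1) 1 := by
          rw [X, monomial_mul, one_mul, add_comm (Finsupp.single j 1)]
        rw [h4]
        apply monomial_mem_MI
        have hwk := w2_ke hp hT n
        revert hj'
        refine Fin.cases ?_ (fun i => Fin.cases ?_ (fun i => ?_) i) j
        · intro _
          left
          rw [w2_add, hwk]
          have : w2 (Finsupp.single 0 1 : Fin (p + 2) →₀ ℕ) = 1 := by simp [w2]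
          omega
        · intro _
          left
          rw [Fin.succ_zero_eq_one, w2_add, hwk]
          have : w2 (Finsupp.single 1 1 : Fin (p + 2) →₀ ℕ) = 2 := by simp [w2]
          omega
        · intro hj'
          apply ke_z hp hT n i
          simp only [Fin.val_succ] at hj'
          omega) rs hreg.toIsWeaklyRegular hmem
    omega
  · intro h
    have h1 := PD_EE (K := K) (n := n) hT hG1 hGp
    exact (PD_ideal _ (by omega) h1).mono (by omega)

end Pool.Agent.H408R3.PDF
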