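import Mathlib
import Pool.Agent.H408R3.Killed
import Pool.Agent.H408R3.LB

/-!
Transfer to the polynomial ring in `m + 2` variables and computation of the depths.
-/

set_option autoImplicit false

namespace Pool.Agent.H408R3

open MvPolynomial RingTheory.Sequence
open Pool.Agent.Helper698.Dstab
open Pool.Agent.Helper698.Symb

universe u

/-- the equivalence of variables -/
noncomputable def eqv (m : ℕ) : Fin 2 ⊕ Fin m ≃ Fin (m + 2) :=
  (Equiv.sumComm _ _).trans finSumFinEquiv

/-- the ring isomorphism -/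
noncomputable def riso (K : Type u) [Field K] (m : ℕ) :
    MvPolynomial (Fin 2) (MvPolynomial (Fin m) K) ≃+* MvPolynomial (Fin (m + 2)) K :=
  ((sumAlgEquiv K (Fin 2) (Fin m)).symm.trans (renameEquiv K (eqv m))).toRingEquiv

variable {K : Type u} [Field K] {T m : ℕ} {g : ℕ → ℕ}

theorem riso_X (k : Fin 2) : riso K m (X k) = X (eqv m (Sum.inl k)) := by
  simp [riso]

theorem riso_CX (k : Fin m) : riso K m (C (X k)) = X (eqv m (Sum.inr k)) := by
  simp [riso]

theorem riso_CC (r : K) : riso K m (C (C r)) = C r := by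
  simp [riso]

theorem constCoeff_riso (h : MvPolynomial (Fin 2) (MvPolynomial (Fin m) K)) :
    constantCoeff (riso K m h) = constantCoeff (constantCoeff h) := by
  have h1 : (constantCoeff : MvPolynomial (Fin (m + 2)) K →+* K).comp
      (riso K m : _ →+* MvPolynomial (Fin (m + 2)) K) =
      (constantCoeff : MvPolynomial (Fin m) K →+* K).comp
        (constantCoeff : MvPolynomial (Fin 2) (MvPolynomial (Fin m) K) →+* _) := by
    apply MvPolynomial.ringHom_ext
    · intro r
      induction r using MvPolynomial.induction_on with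
      | C r =>
        simp only [RingHom.comp_apply, RingEquiv.coe_toRingHom, constantCoeff_C]
        rw [riso_CC, constantCoeff_C]
      | add p q hp hq => rw [C_add, map_add, hp, hq, map_add]
      | mul_X p i hp =>
        rw [C_mul, map_mul, hp, map_mul]
        congr 1
        simp only [RingHom.comp_apply, RingEquiv.coe_toRingHom, constantCoeff_C, constantCoeff_X]
        rw [riso_CX, constantCoeff_X]
    · intro i
      simp only [RingHom.comp_apply, RingEquiv.coe_toRingHom, constantCoeff_X, map_zero]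
      rw [riso_X, constantCoeff_X]
  exact DFunLike.congr_fun h1 h

/-- homogeneity of the images of monomials -/
theorem riso_monomial (q : Fin 2 →₀ ℕ) (a : Fin m →₀ ℕ) :
    (riso K m (monomial q (monomial a 1))).IsHomogeneous (q.degree + a.degree) := by
  have h1 : (monomial q (monomial a (1 : K)) : MvPolynomial (Fin 2) (MvPolynomial (Fin m) K)) =
      C (∏ i ∈ a.support, X i ^ a i) * ∏ i ∈ q.support, X i ^ q i := by
    have h2 : (∏ i ∈ a.support, (X i : MvPolynomial (Fin m) K) ^ a i) = monomial a 1 := by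
      rw [monomial_eq, C_1, one_mul, Finsupp.prod]
    rw [h2, monomial_eq]
    rfl
  rw [h1, map_mul, map_prod, map_prod, map_prod, add_comm (Finsupp.degree q) (Finsupp.degree a),
    Finsupp.degree_apply, Finsupp.degree_apply]
  refine IsHomogeneous.mul ?_ ?_
  · refine IsHomogeneous.prod _ _ _ fun i _ => ?_
    rw [map_pow, map_pow, riso_CX]
    simpa using (isHomogeneous_X K (eqv m (Sum.inr i))).pow (a i)
  · refine IsHomogeneous.prod _ _ _ fun i _ => ?_
    rw [map_pow, riso_X]
    simpa using (isHomogeneous_X K (eqv m (Sum.inl i))).pow (q i)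

/-- the ideal in `m + 2` variables -/
noncomputable def QQ (K : Type u) [Field K] (T m : ℕ) (g : ℕ → ℕ) :
    Ideal (MvPolynomial (Fin (m + 2)) K) :=
  (PI T m g (zz K m) 0).map (riso K m : _ →+* MvPolynomial (Fin (m + 2)) K)

theorem degree_fin2 (q : Fin 2 →₀ ℕ) : q.degree = q 0 + q 1 := by
  rw [Finsupp.degree_eq_sum, Fin.sum_univ_two]

theorem QQ_homogeneous (hgm : ∀ s, g s ≤ m) :
    ∃ G : Set (MvPolynomial (Fin (m + 2)) K), (∀ p ∈ G, ∃ d, p.IsHomogeneous d) ∧
      QQ K T m g = Ideal.span G := by
  unfold QQ PI lineI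
  rw [Ideal.map_span]
  refine ⟨_, ?_, rfl⟩
  rintro _ ⟨f, hf, rfl⟩
  rcases hf with ⟨q, hq, rfl⟩ | ⟨b, j, ζ, hB, rfl⟩
  · refine ⟨q.degree + (0 : Fin m →₀ ℕ).degree, ?_⟩
    exact riso_monomial (K := K) (m := m) q 0
  · obtain ⟨s, i, d, hs, hi, hig, hd, h1, h2, h3, h4, h5⟩ := hB
    dsimp only at h1 h2 h3 h4 h5
    have hgs := hgm s
    rw [zz_pow m i _ ⟨hi, by omega⟩] at h5
    have hb := riso_monomial (K := K) (m := m) b 0
    have hj := riso_monomial (K := K) (m := m) j
      (Finsupp.single ⟨i - 1, by omega⟩ (ee T m * (1 + s) + i))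
    rw [← h5] at hj
    refine ⟨b.degree + (0 : Fin m →₀ ℕ).degree, ?_⟩
    have hdeg : b.degree + (0 : Fin m →₀ ℕ).degree = j.degree +
        (Finsupp.single (⟨i - 1, by omega⟩ : Fin m) (ee T m * (1 + s) + i)).degree := by
      have hz : (0 : Fin m →₀ ℕ).degree = 0 := by simp
      rw [degree_fin2, degree_fin2, Finsupp.degree_single, hz]
      have e1 : ch m s i = ch m s 0 + i := by unfold ch; ring
      have e2 : ee T m * (T + 1 + s + d) = ee T m * (T + d) + ee T m * (1 + s) := by ring
      unfold wt at h1 h3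
      omega
    rw [RingEquiv.coe_toRingHom, map_add]
    refine IsHomogeneous.add hb ?_
    rw [hdeg]
    exact hj

theorem mem_QQ (n : ℕ) (hT : 1 ≤ T) (hgm : ∀ s, g s ≤ m) :
    (QQ K T m g) ^ (n + 1) = (PI T m g (zz K m) n).map
      (riso K m : _ →+* MvPolynomial (Fin (m + 2)) K) := by
  unfold QQ
  rw [← Ideal.map_pow, PI_pow hT hgm]

theorem mem_map_riso (J : Ideal (MvPolynomial (Fin 2) (MvPolynomial (Fin m) K)))
    (a : MvPolynomial (Fin (m + 2)) K) :
    a ∈ J.map (riso K m : _ →+* MvPolynomial (Fin (m + 2)) K) ↔ (riso K m).symm a ∈ J := by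
  have h := Ideal.mem_map_of_equiv (riso K m) (I := J) a
  constructor
  · intro ha
    obtain ⟨x, hx, rfl⟩ := h.1 ha
    simpa using hx
  · intro ha
    exact h.2 ⟨_, ha, by simp⟩

theorem QQ_ne_bot : QQ K T m g ≠ ⊥ := by
  intro h
  have h1 : riso K m (monomial (ex (2 * DD T m + 2) 0) 1) ∈ QQ K T m g := by
    apply Ideal.mem_map_of_mem
    apply mono_mem_lineI
    left
    rw [wt_ex]; omega
  rw [h, Ideal.mem_bot, map_eq_zero_iff _ (riso K m).injective, monomial_eq_zero] at h1
  exact one_ne_zero h1

theorem QQ_le : QQ K T m g ≤ mm K (m + 2) := by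
  have hD := DD_pos (T := T) (m := m)
  unfold QQ PI lineI
  rw [Ideal.map_span, Ideal.span_le]
  rintro _ ⟨f, hf, rfl⟩
  show (riso K m) f ∈ mm K (m + 2)
  rw [mem_mm_iff, constCoeff_riso]
  have h0 : ∀ (q : Fin 2 →₀ ℕ) (r : MvPolynomial (Fin m) K), 1 ≤ wt q →
      constantCoeff (monomial q r) = 0 := by
    intro q r hq
    rw [constantCoeff_monomial, if_neg]
    rintro rfl
    simp [wt] at hq
  rcases hf with ⟨q, hq, rfl⟩ | ⟨b, j, ζ, hB, rfl⟩
  · have := pure_wt_ge hq
    rw [h0 q 1 (by omega), map_zero]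
  · obtain ⟨h1, h2⟩ := bin_wt hB
    rw [map_add, h0 b 1 (by omega), h0 j _ (by omega), add_zero, map_zero]

/-- the depths -/
theorem depth_QQ (hT : 1 ≤ T) (hgm : ∀ s, g s ≤ m) (n : ℕ) :
    depthQuot ((QQ K T m g) ^ (n + 1)) = ((m - g (act T n) : ℕ) : ℕ∞) := by
  classical
  have hle : (QQ K T m g) ^ (n + 1) ≤ mm K (m + 2) := (Ideal.pow_le_self (by omega)).trans QQ_le
  apply le_antisymm
  · unfold depthQuot
    refine iSup_le fun rs => iSup_le fun hrs => ?_
    let U : Finset (Fin (m + 2)) := (Finset.univ.filter (fun a : Fin 2 ⊕ Fin m =>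
      ∀ i, a = Sum.inr i → i.val + 1 ≤ g (act T n))).map (eqv m).toEmbedding
    have hU : U.card = 2 + g (act T n) := by
      rw [Finset.card_map, Finset.card_filter, Fintype.sum_sum_type]
      have h1 : (∑ a : Fin 2, if (∀ i : Fin m, (Sum.inl a : Fin 2 ⊕ Fin m) = Sum.inr i →
          i.val + 1 ≤ g (act T n)) then 1 else 0) = 2 := by
        simp
      have h2 : (∑ a : Fin m, if (∀ i : Fin m, (Sum.inr a : Fin 2 ⊕ Fin m) = Sum.inr i →
          i.val + 1 ≤ g (act T n)) then 1 else 0) = g (act T n) := by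
        have h3 : ∀ a : Fin m, (∀ i : Fin m, (Sum.inr a : Fin 2 ⊕ Fin m) = Sum.inr i →
          i.val + 1 ≤ g (act T n)) ↔ a.val < g (act T n) := by
          intro a
          constructor
          · intro h; have := h a rfl; omega
          · rintro h i hi
            rw [← Sum.inr_injective hi]; omega
        simp_rw [h3]
        rw [← Finset.card_filter]
        rw [Fin.card_filter_val_lt]
        exact min_eq_right (hgm _)
      rw [h1, h2]
    have h1 := len_le_of_killed ((QQ K T m g) ^ (n + 1)) (riso K m (killed K T m n (g (act T n))))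
      (by
        intro h hh
        rw [mem_QQ n hT hgm, mem_map_riso, map_mul, RingEquiv.symm_apply_apply] at hh
        have h2 := killed_colon hT hgm n _ hh
        rw [mem_mm_iff]
        have h3 := constCoeff_riso ((riso K m).symm h)
        rw [RingEquiv.apply_symm_apply] at h3
        rw [h3]
        exact h2) U (by
        intro i hi
        obtain ⟨a, ha, rfl⟩ := Finset.mem_map.1 hi
        rw [Finset.mem_filter] at ha
        rw [mem_QQ n hT hgm, mem_map_riso, map_mul, RingEquiv.symm_apply_apply]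
        rcases a with k | k
        · have : (riso K m).symm (X ((eqv m).toEmbedding (Sum.inl k))) = X k := by
            rw [RingEquiv.symm_apply_eq, riso_X]; rfl
          rw [this]
          exact X_mul_killed hT n _ k
        · have : (riso K m).symm (X ((eqv m).toEmbedding (Sum.inr k))) = C (X k) := by
            rw [RingEquiv.symm_apply_eq, riso_CX]; rfl
          rw [this]
          exact Z_mul_killed hT hgm n k (ha.2 k rfl)) rs hrs.2.toIsWeaklyRegular hrs.1
    exact_mod_cast (by omega : rs.length ≤ m - g (act T n))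
  · have h1 := regChain_map (riso K m) _ _ (regChain_PI (K := K) hT hgm n)
    rw [← mem_QQ n hT hgm] at h1
    have h2 := EV_of_chain (N := kk K (m + 2)) _ _ h1 (by
      intro y hy
      rw [mem_ann_kk]
      rw [List.map_map, List.map_map, List.mem_map] at hy
      obtain ⟨i, -, rfl⟩ := hy
      rw [mem_mm_iff]
      show constantCoeff (riso K m (C (X i))) = 0
      rw [riso_CX, constantCoeff_X])
    rw [List.length_map, List.length_map, List.length_map, freeVars_length] at h2
    obtain ⟨rs, hlen, hmem, hreg⟩ := exists_regular_of_EV _ hle _ h2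
    unfold depthQuot
    refine le_iSup_of_le rs (le_iSup_of_le ⟨hmem, hreg⟩ ?_)
    rw [hlen]

end Pool.Agent.H408R3
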